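import Pool.Agent.Lib.MP_f017c9_lc.Extract

/-!
# Algorithms which decode algebraic features, stable features and a short sketch
-/

namespace Pool.Agent.KS

open Finset

variable {n k M : ℕ}

/-- For each seed `r` and each choice `e` of the variables of the clauses, the feature `z` is a
sum in the group `G` of terms `h J`, each depending only on the signs of the clauses in a set `J`
of at most `D` clauses. -/
def SumFeature {R : Type} (G : Type) [AddCommGroup G] (D : ℕ) (z : R → Formula n k M → G) :
    Prop :=
  ∀ (r : R) (e : Fin M → (Fin k ↪ Fin n)),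
    ∃ h : Finset (Fin M) → (Fin M → Pat k) → G,
      (∀ J s s', (∀ j ∈ J, s j = s' j) → h J s = h J s') ∧
        ∀ s : Fin M → Pat k, z r (fun j => (e j, s j)) = ∑ J with J.card ≤ D, h J s

/-- The sum over the clauses `j` of the expected number of the bits of the feature vector `w` which
change when the signs of the clause `j` are drawn again. -/
noncomputable def bitSensitivity {R : Type} [Fintype R] {Q : ℕ}
    (w : R → Formula n k M → Fin Q → Bool) : ℝ :=
  (∑ j : Fin M, ∑ r : R, ∑ F : Formula n k M, ∑ p : Pat k,
    (hammingDist (w r F) (w r (resign F j p)) : ℝ)) /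
      (Fintype.card (R × Formula n k M) * 2 ^ k)

/-- The output of `A` is determined by the seed, the variables of all clauses and the values of the
features `z`, `w`, `y`. -/
def DecodedFrom {R Z W Y : Type} (A : R → Formula n k M → Asg n) (z : R → Formula n k M → Z)
    (w : R → Formula n k M → W) (y : R → Formula n k M → Y) : Prop :=
  ∀ r F F', (∀ j, (F j).1 = (F' j).1) → z r F = z r F' → w r F = w r F' → y r F = y r F' →
    A r F = A r F'

/-- The subsets of the first `r` labels. -/
def emb {r L : ℕ} (h : r ≤ L) (T : Finset (Fin r)) : Finset (Fin L) := T.map (Fin.castLEEmb h)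

/-- Typical variables of the clauses: two assignments at distance more than `δ n` give the same
values to the variables of at most `4 (1 - δ) ^ k M` clauses. -/
def Typ (δ : ℝ) (e : Fin M → (Fin k ↪ Fin n)) : Prop :=
  ∀ σ σ' : Asg n, δ * n < (hammingDist σ σ' : ℝ) →
    (#{j : Fin M | (fun i => !σ (e j i)) = fun i => !σ' (e j i)} : ℝ) ≤ 4 * (1 - δ) ^ k * M

/-- The probability that a step with the labels `J₀` leads from a formula on which `A` succeeds to a
formula on which `A` succeeds with an output at distance at most `δ n`. -/
noncomputable def nearProb {R : Type} [Fintype R] {L : ℕ} (A : R → Formula n k M → Asg n) (δ : ℝ)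
    (J₀ : Finset (Fin L)) : ℝ :=
  (#{z : (R × Formula n k M) × (Fin M → Fin L × Pat k) |
          (numViolated (A z.1.1 z.1.2) z.1.2 : ℝ) ≤ M / 2 ^ k / 20 ∧
          (numViolated (A (moveJR J₀ z.1 z.2).1 (moveJR J₀ z.1 z.2).2)
            (moveJR J₀ z.1 z.2).2 : ℝ) ≤ M / 2 ^ k / 20 ∧
          (hammingDist (A z.1.1 z.1.2) (A (moveJR J₀ z.1 z.2).1 (moveJR J₀ z.1 z.2).2) : ℝ) ≤
            δ * n} : ℝ) /
        (Fintype.card (R × Formula n k M) * Fintype.card (Fin M → Fin L × Pat k))

end Pool.Agent.KS
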