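import Pool.Agent.Lib.MP_f017c9_lc_U.Defs

/-!
# Decoders which read few clauses adaptively
-/

namespace Pool.Agent.KS

open Finset

variable {n k M : ℕ}

/-- `A` is computed from the values of the features `z`, `w`, `y` by reading at most `q` clauses:
for each seed and each value `h` of the features there are a rule `B r h` and, for each formula
`F`, a set `S r h F` of at most `q` clauses (the clauses read), such that `S r h` and `B r h` take
the same values on all formulas with the same variables of all clauses and the same clauses read. -/
def ReadsFew {R Z W Y : Type} (q : ℝ) (A : R → Formula n k M → Asg n)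
    (z : R → Formula n k M → Z) (w : R → Formula n k M → W) (y : R → Formula n k M → Y) : Prop :=
  ∃ (B : R → Z × W × Y → Formula n k M → Asg n)
    (S : R → Z × W × Y → Formula n k M → Finset (Fin M)),
    (∀ r F, A r F = B r (z r F, w r F, y r F) F) ∧
    ∀ r h F, ((S r h F).card : ℝ) ≤ q ∧
      ∀ F', (∀ j, (F' j).1 = (F j).1) → (∀ j ∈ S r h F, F' j = F j) →
        S r h F' = S r h F ∧ B r h F' = B r h F

/-- the point of the base space with given seed, variables, labels and signs -/
def ptU {R : Type} {L : ℕ} (u : R) (e : Fin M → (Fin k ↪ Fin n))
    (x : Fin M → Fin L × (Pat k × Pat k)) : ExtZ R n k M L := (u, fun j => (e j, x j))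

end Pool.Agent.KS
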