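import Pool.Agent.Lib.MP_f017c9_lc_U.Defs
import Pool.Agent.Lib.MP_f017c9_lc.Moment

/-!
# First moment of tuples for fixed typical variables of the clauses
-/

namespace Pool.Agent.KS

open Finset

/-- one clause -/
private theorem Mom_one {n k : ℕ} {W Λ : Type} [Fintype W] [Fintype Λ] [Nonempty Λ]
    [DecidableEq Λ] (e : Fin k ↪ Fin n) (pat : Λ → W → Pat k)
    (h1 : ∀ l a, (#{w : W | pat l w = a} : ℝ) = Fintype.card W * (1 / 2 ^ k))
    (γ : Λ → Λ → ℝ) (hγ : ∀ l l', 0 ≤ γ l l' ∧ γ l l' ≤ 1)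
    (h2 : ∀ l l', l ≠ l' → ∀ a b, (#{w : W | pat l w = a ∧ pat l' w = b} : ℝ) ≤
      Fintype.card W * (1 / 2 ^ k) *
        (γ l l' * (if a = b then 1 else 0) + (1 - γ l l') * (1 / 2 ^ k)))
    (σ : Λ → Asg n) :
    ∑ w : W, ((1 : ℝ) / 4) ^ #{l : Λ | Violated (σ l) (e, pat l w)} ≤
      Fintype.card W * Real.exp (-(3 / 4) * Fintype.card Λ * (1 / 2 ^ k) +
        (3 / 8) * (1 / 2 ^ k) * ∑ l : Λ, ∑ l' ∈ univ.erase l,
          ((if (fun i => !σ l (e i)) = (fun i => !σ l' (e i)) then (1 : ℝ) else 0) +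
            1 / 2 ^ k)) := by
  obtain ⟨N, hN⟩ : ∃ N : ℝ, N = Fintype.card W := ⟨_, rfl⟩
  have hN0 : 0 ≤ N := by rw [hN]; positivity
  obtain ⟨m, hmdef⟩ : ∃ m : ℝ, m = Fintype.card Λ := ⟨_, rfl⟩
  rw [← hN, ← hmdef]
  -- first moment
  have hfirst : ∑ w : W, ((#{l : Λ | Violated (σ l) (e, pat l w)} : ℕ) : ℝ) =
      m * (N * (1 / 2 ^ k)) := by
    simp only [card_filter, Nat.cast_sum, Nat.cast_ite, Nat.cast_one, Nat.cast_zero]
    rw [sum_comm]
    have : ∀ l : Λ, ∑ w : W, (if Violated (σ l) (e, pat l w) then (1 : ℝ) else 0) =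
        N * (1 / 2 ^ k) := by
      intro l
      have h3 := h1 l (fun i => !σ l (e i))
      rw [card_filter] at h3
      push_cast at h3
      rw [hN, ← h3]
      refine sum_congr rfl fun w _ => ?_
      simp only [Moment_iff]
    rw [sum_congr rfl fun l _ => this l, sum_const, card_univ, nsmul_eq_mul, hmdef]
  -- second moment
  obtain ⟨B, hB⟩ : ∃ B : ℝ, B = ∑ l : Λ, ∑ l' ∈ univ.erase l,
      ((if (fun i => !σ l (e i)) = (fun i => !σ l' (e i)) then (1 : ℝ) else 0) + 1 / 2 ^ k) :=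
    ⟨_, rfl⟩
  rw [← hB]
  have hsecond : ∑ w : W, (((#{l : Λ | Violated (σ l) (e, pat l w)} : ℕ) : ℝ) *
        (((#{l : Λ | Violated (σ l) (e, pat l w)} : ℕ) : ℝ) - 1)) ≤
        N * (1 / 2 ^ k) * B := by
    have hid : ∀ w : W, (((#{l : Λ | Violated (σ l) (e, pat l w)} : ℕ) : ℝ) *
        (((#{l : Λ | Violated (σ l) (e, pat l w)} : ℕ) : ℝ) - 1)) =
        ∑ l : Λ, ∑ l' ∈ univ.erase l,
          (if Violated (σ l) (e, pat l w) ∧ Violated (σ l') (e, pat l' w) then (1 : ℝ)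
            else 0) := by
      intro w
      have h3 : ∀ l : Λ, ∑ l' ∈ univ.erase l,
          (if Violated (σ l) (e, pat l w) ∧ Violated (σ l') (e, pat l' w) then (1 : ℝ)
            else 0) =
          (if Violated (σ l) (e, pat l w) then (1 : ℝ) else 0) *
            (((#{l : Λ | Violated (σ l) (e, pat l w)} : ℕ) : ℝ) - 1) := by
        intro l
        by_cases hl : Violated (σ l) (e, pat l w)
        · simp only [hl, true_and, if_true, one_mul]
          rw [card_filter]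
          push_cast
          rw [← add_sum_erase univ _ (mem_univ l)]
          simp [hl]
        · simp [hl]
      rw [sum_congr rfl fun l _ => h3 l, ← sum_mul]
      rw [card_filter]
      push_cast
      rfl
    rw [sum_congr rfl fun w _ => hid w, sum_comm, hB, mul_sum]
    refine sum_le_sum fun l _ => ?_
    rw [sum_comm, mul_sum]
    refine sum_le_sum fun l' hl' => ?_
    have hne : l ≠ l' := (ne_of_mem_erase hl').symm
    have h6 := h2 l l' hne (fun i => !σ l (e i)) (fun i => !σ l' (e i))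
    have h7 : ∑ w : W, (if Violated (σ l) (e, pat l w) ∧ Violated (σ l') (e, pat l' w) then
        (1 : ℝ) else 0) =
        (#{w : W | pat l w = (fun i => !σ l (e i)) ∧ pat l' w = fun i => !σ l' (e i)} : ℝ) := by
      rw [card_filter]
      push_cast
      refine sum_congr rfl fun w _ => ?_
      simp only [Moment_iff]
    rw [h7]
    refine h6.trans ?_
    rw [← hN]
    refine mul_le_mul_of_nonneg_left ?_ (by positivity)
    obtain ⟨g0, g1⟩ := hγ l l'
    have h8 : (0 : ℝ) ≤ 1 / 2 ^ k := by positivity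
    refine add_le_add ?_ ?_
    · split_ifs
      · linarith
      · linarith
    · nlinarith
  have hpt : ∑ w : W, ((1 : ℝ) / 4) ^ #{l : Λ | Violated (σ l) (e, pat l w)} ≤
      ∑ w : W, (1 - (3 / 4) * (((#{l : Λ | Violated (σ l) (e, pat l w)} : ℕ) : ℝ) -
          ((#{l : Λ | Violated (σ l) (e, pat l w)} : ℕ) : ℝ) *
          (((#{l : Λ | Violated (σ l) (e, pat l w)} : ℕ) : ℝ) - 1) / 2)) :=
    sum_le_sum fun w _ => Tuple_phi _
  refine hpt.trans ?_
  have hsplit : ∑ w : W, (1 - (3 / 4) * (((#{l : Λ | Violated (σ l) (e, pat l w)} : ℕ) : ℝ) -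
          ((#{l : Λ | Violated (σ l) (e, pat l w)} : ℕ) : ℝ) *
          (((#{l : Λ | Violated (σ l) (e, pat l w)} : ℕ) : ℝ) - 1) / 2)) =
      N - (3 / 4) * (m * (N * (1 / 2 ^ k))) +
        (3 / 8) * ∑ w : W, (((#{l : Λ | Violated (σ l) (e, pat l w)} : ℕ) : ℝ) *
        (((#{l : Λ | Violated (σ l) (e, pat l w)} : ℕ) : ℝ) - 1)) := by
    rw [← hfirst]
    have hc : N = ∑ _w : W, (1 : ℝ) := by
      rw [sum_const, card_univ, nsmul_eq_mul, mul_one, hN]
    rw [hc, mul_sum, mul_sum, ← sum_sub_distrib, ← sum_add_distrib]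
    apply sum_congr rfl
    intro y _
    ring
  rw [hsplit]
  have hexp := Real.add_one_le_exp (-(3 / 4) * m * (1 / 2 ^ k) + (3 / 8) * (1 / 2 ^ k) * B)
  have hfin := mul_le_mul_of_nonneg_left hexp hN0
  linarith

/-- PROOF. As for `moment` (Moment.lean), clause by clause, but for fixed variables `e j`. For one
clause, `∑ w, (1/4) ^ #{l | Violated (σ l) (e j, pat l w)} ≤ ∑ w, (1 - 3/4 (X - X (X - 1) / 2))`
(`Tuple_phi`) `= card W * (1 - 3/4 card Λ / 2 ^ k) + 3/8 * ∑_{l ≠ l'} #{w | both violated}`, and by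
`h1` (with `Moment_iff`) and `h2` the pair term is at most
`card W / 2 ^ k * (1[(fun i => !σ l (e j i)) = fun i => !σ l' (e j i)] + 1 / 2 ^ k)`. Write
`1 + x ≤ exp x` for every clause and take the product over `j`: the exponent is at most
`-(3/4) card Λ M / 2 ^ k + 3/8 / 2 ^ k * ∑_{l ≠ l'} (4 θ M + M / 2 ^ k)` with `θ = (1 - δ) ^ k`, by
`he`; as `1 / 2 ^ k ≤ θ`, it is at most
`-(3/4) card Λ M / 2 ^ k + 3/8 card Λ (card Λ - 1) 5 θ M / 2 ^ k ≤ -(9/16) card Λ M / 2 ^ k` by
`hm`.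
The passage from this to the claim is the same as in `moment` (factor `4 ^ (card Λ E / 20)`). -/
theorem momentU {n k M : ℕ} {W Λ : Type} [Fintype W] [Nonempty W] [Fintype Λ]
    [Nonempty Λ] [DecidableEq Λ] (e : Fin M → (Fin k ↪ Fin n)) (δ : ℝ) (hδ0 : 0 ≤ δ)
    (hδ : δ ≤ 1 / 2) (he : Typ δ e) (pat : Λ → W → Pat k)
    (h1 : ∀ l a, (#{w : W | pat l w = a} : ℝ) = Fintype.card W * (1 / 2 ^ k))
    (γ : Λ → Λ → ℝ) (hγ : ∀ l l', 0 ≤ γ l l' ∧ γ l l' ≤ 1)
    (h2 : ∀ l l', l ≠ l' → ∀ a b, (#{w : W | pat l w = a ∧ pat l' w = b} : ℝ) ≤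
      Fintype.card W * (1 / 2 ^ k) *
        (γ l l' * (if a = b then 1 else 0) + (1 - γ l l') * (1 / 2 ^ k)))
    (hm : 5 * ((Fintype.card Λ : ℝ) - 1) * (1 - δ) ^ k ≤ 1 / 2) (σ : Λ → Asg n)
    (hσ : ∀ l l', l ≠ l' → δ * n < (hammingDist (σ l) (σ l') : ℝ)) :
    (#{z : Fin M → W |
        ∀ l, (#{j : Fin M | Violated (σ l) (e j, pat l (z j))} : ℝ) ≤ M / 2 ^ k / 20} : ℝ) ≤
      Fintype.card (Fin M → W) * Real.exp (-(49 / 100) * Fintype.card Λ * (M / 2 ^ k)) := by
  obtain ⟨E, hE⟩ : ∃ E : ℝ, E = M / 2 ^ k := ⟨_, rfl⟩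
  have hE0 : 0 ≤ E := by rw [hE]; positivity
  obtain ⟨m, hmdef⟩ : ∃ m : ℝ, m = Fintype.card Λ := ⟨_, rfl⟩
  have hm0 : 0 ≤ m := by rw [hmdef]; positivity
  have hm1 : 1 ≤ m := by
    rw [hmdef]
    exact_mod_cast Fintype.card_pos
  rw [← hE, ← hmdef]
  rw [← hmdef] at hm
  have hpoint : ∀ z : Fin M → W,
      (if ∀ l, (#{j : Fin M | Violated (σ l) (e j, pat l (z j))} : ℝ) ≤ E / 20 then (1 : ℝ)
        else 0) ≤
      Real.exp (Real.log 4 * (m * (E / 20))) *
        ∏ j : Fin M, ((1 : ℝ) / 4) ^ #{l : Λ | Violated (σ l) (e j, pat l (z j))} := by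
    intro z
    split_ifs with h
    · rw [prod_pow_eq_pow_sum]
      have hs : ((∑ j : Fin M, #{l : Λ | Violated (σ l) (e j, pat l (z j))} : ℕ) : ℝ) ≤
          m * (E / 20) := by
        have h3 : (∑ j : Fin M, #{l : Λ | Violated (σ l) (e j, pat l (z j))}) =
            ∑ l : Λ, #{j : Fin M | Violated (σ l) (e j, pat l (z j))} := by
          simp only [card_filter]
          rw [sum_comm]
        rw [h3]
        push_cast
        calc ∑ l : Λ, (#{j : Fin M | Violated (σ l) (e j, pat l (z j))} : ℝ)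
            ≤ ∑ _l : Λ, E / 20 := sum_le_sum fun l _ => h l
          _ = m * (E / 20) := by
              rw [sum_const, card_univ, nsmul_eq_mul, hmdef]
      have hlog : (0 : ℝ) ≤ Real.log 4 := Real.log_nonneg (by norm_num)
      have h2 : ((1 : ℝ) / 4) ^
          (∑ j : Fin M, #{l : Λ | Violated (σ l) (e j, pat l (z j))}) =
          Real.exp (-(Real.log 4 *
            ((∑ j : Fin M, #{l : Λ | Violated (σ l) (e j, pat l (z j))} : ℕ) : ℝ))) := by
        rw [Real.exp_neg, mul_comm (Real.log 4), Real.exp_nat_mul, Real.exp_log (by norm_num),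
          one_div, inv_pow]
      rw [h2, ← Real.exp_add]
      apply Real.one_le_exp
      have := mul_le_mul_of_nonneg_left hs hlog
      linarith
    · positivity
  have hcard : (Fintype.card (Fin M → W) : ℝ) = (Fintype.card W : ℝ) ^ M := by
    rw [Fintype.card_fun, Fintype.card_fin]
    exact Nat.cast_pow _ _
  have hsum : ∑ z : Fin M → W,
      ∏ j : Fin M, ((1 : ℝ) / 4) ^ #{l : Λ | Violated (σ l) (e j, pat l (z j))} =
      ∏ j : Fin M, ∑ w : W, ((1 : ℝ) / 4) ^ #{l : Λ | Violated (σ l) (e j, pat l w)} := by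
    rw [prod_univ_sum, Fintype.piFinset_univ]
  obtain ⟨V, hV⟩ : ∃ V : Fin M → ℝ, ∀ j, V j = ∑ l : Λ, ∑ l' ∈ univ.erase l,
      ((if (fun i => !σ l (e j i)) = (fun i => !σ l' (e j i)) then (1 : ℝ) else 0) +
        1 / 2 ^ k) := ⟨_, fun _ => rfl⟩
  have hprod : ∏ j : Fin M, ∑ w : W, ((1 : ℝ) / 4) ^ #{l : Λ | Violated (σ l) (e j, pat l w)} ≤
      Fintype.card (Fin M → W) * Real.exp (-(9 / 16) * m * E) := by
    have h3 : ∏ j : Fin M, ∑ w : W,
        ((1 : ℝ) / 4) ^ #{l : Λ | Violated (σ l) (e j, pat l w)} ≤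
        ∏ j : Fin M, (Fintype.card W * Real.exp (-(3 / 4) * m * (1 / 2 ^ k) +
          (3 / 8) * (1 / 2 ^ k) * V j)) := by
      refine prod_le_prod (fun j _ => sum_nonneg fun w _ => by positivity) fun j _ => ?_
      rw [hmdef, hV]
      exact Mom_one (e j) pat h1 γ hγ h2 σ
    refine h3.trans ?_
    rw [prod_mul_distrib, prod_const, card_univ, Fintype.card_fin, ← hcard, ← Real.exp_sum]
    refine mul_le_mul_of_nonneg_left ?_ (Nat.cast_nonneg _)
    apply Real.exp_le_exp.2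
    rw [sum_add_distrib, sum_const, card_univ, Fintype.card_fin, nsmul_eq_mul, ← mul_sum]
    have h4 : ∑ j : Fin M, V j ≤ m * (M / 2) := by
      have h5 : ∑ j : Fin M, V j = ∑ l : Λ, ∑ l' ∈ univ.erase l, ((#{j : Fin M |
          (fun i => !σ l (e j i)) = fun i => !σ l' (e j i)} : ℝ) + M * (1 / 2 ^ k)) := by
        rw [sum_congr rfl fun j _ => hV j, sum_comm]
        refine sum_congr rfl fun l _ => ?_
        rw [sum_comm]
        refine sum_congr rfl fun l' _ => ?_
        rw [sum_add_distrib, sum_const, card_univ, Fintype.card_fin, nsmul_eq_mul, card_filter]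
        push_cast
        rfl
      have h6 : (1 / 2 ^ k : ℝ) ≤ (1 - δ) ^ k := by
        have h7 : (1 / 2 : ℝ) ^ k ≤ (1 - δ) ^ k :=
          pow_le_pow_left₀ (by norm_num) (by linarith) k
        rw [one_div_pow] at h7
        exact h7
      have hM0 : (0 : ℝ) ≤ M := Nat.cast_nonneg M
      have h8 : ∀ l : Λ, ∑ l' ∈ univ.erase l, ((#{j : Fin M |
          (fun i => !σ l (e j i)) = fun i => !σ l' (e j i)} : ℝ) + M * (1 / 2 ^ k)) ≤
          M / 2 := by
        intro l
        have h9 : ∀ l' ∈ univ.erase l, ((#{j : Fin M |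
            (fun i => !σ l (e j i)) = fun i => !σ l' (e j i)} : ℝ) + M * (1 / 2 ^ k)) ≤
            5 * (1 - δ) ^ k * M := by
          intro l' hl'
          have hne : l ≠ l' := (ne_of_mem_erase hl').symm
          have h10 := he (σ l) (σ l') (hσ l l' hne)
          have h11 := mul_le_mul_of_nonneg_left h6 hM0
          linarith
        refine (sum_le_sum h9).trans ?_
        rw [sum_const, card_erase_of_mem (mem_univ l), card_univ, nsmul_eq_mul]
        have h12 : 1 ≤ Fintype.card Λ := Fintype.card_pos_iff.2 ⟨l⟩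
        rw [Nat.cast_sub h12, Nat.cast_one, ← hmdef]
        have h13 := mul_le_mul_of_nonneg_right hm hM0
        linarith
      rw [h5]
      refine (sum_le_sum fun l _ => h8 l).trans (le_of_eq ?_)
      rw [sum_const, card_univ, nsmul_eq_mul, hmdef]
    have h14 : (0 : ℝ) ≤ (3 / 8) * (1 / 2 ^ k) := by positivity
    have h15 := mul_le_mul_of_nonneg_left h4 h14
    have h16 : E = M * (1 / 2 ^ k) := by
      rw [hE]
      ring
    rw [h16]
    linarith
  have hnum2 : (#{z : Fin M → W |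
        ∀ l, (#{j : Fin M | Violated (σ l) (e j, pat l (z j))} : ℝ) ≤ E / 20} : ℝ) =
      ∑ z : Fin M → W,
        (if ∀ l, (#{j : Fin M | Violated (σ l) (e j, pat l (z j))} : ℝ) ≤ E / 20 then (1 : ℝ)
          else 0) := by
    rw [card_filter]
    push_cast
    rfl
  rw [hnum2]
  refine (sum_le_sum fun z _ => hpoint z).trans ?_
  rw [← mul_sum, hsum]
  have hcn : (0 : ℝ) ≤ Fintype.card (Fin M → W) := Nat.cast_nonneg _
  refine (mul_le_mul_of_nonneg_left hprod (Real.exp_pos _).le).trans ?_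
  rw [mul_left_comm]
  apply mul_le_mul_of_nonneg_left _ hcn
  rw [← Real.exp_add]
  apply Real.exp_le_exp.2
  have hlog4 : Real.log 4 ≤ 1.3863 := by
    have h4 : (4 : ℝ) = 2 ^ 2 := by norm_num
    rw [h4, Real.log_pow]
    have := Real.log_two_lt_d9
    push_cast
    linarith
  have hmE : (0 : ℝ) ≤ m * E := by positivity
  have h3 := mul_le_mul_of_nonneg_right hlog4 hmE
  nlinarith

end Pool.Agent.KS
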