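import Pool.Agent.Lib.MP_f017c9_lc_U.Defs

/-!
# All vertices of a cube with frozen clauses are good with positive probability
-/

namespace Pool.Agent.KS

open Finset

/-- The label in `Fin (r + 1)` of a label in `Fin L`. -/
private def PosLab {r L : ℕ} (i : Fin L) : Fin (r + 1) :=
  if h : i.1 < r then ⟨i.1, by omega⟩ else ⟨r, by omega⟩

private theorem PosLab_mem {r L : ℕ} (hrL : r ≤ L) (T : Finset (Fin r)) (i : Fin L) :
    PosLab (r := r) i ∈ T.map Fin.castSuccEmb ↔ i ∈ emb hrL T := by
  rw [emb, Finset.mem_map, Finset.mem_map]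
  constructor
  · rintro ⟨a, ha, hai⟩
    refine ⟨a, ha, ?_⟩
    unfold PosLab at hai
    split_ifs at hai with h
    · apply Fin.ext
      have := congrArg Fin.val hai
      simpa using this
    · have := congrArg Fin.val hai
      simp only [Fin.coe_castSuccEmb, Fin.val_castSucc] at this
      have := a.2
      omega
  · rintro ⟨a, ha, hai⟩
    refine ⟨a, ha, ?_⟩
    have h1 : a.1 = i.1 := by
      have := congrArg Fin.val hai
      simpa using this
    unfold PosLab
    rw [dif_pos (by have := a.2; omega)]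
    apply Fin.ext
    simpa using h1

/-- PROOF. Copy `ext_pos` (Extract.lean) with labels in `Fin L`. The only change: for fixed seed,
variables and labels `i : Fin M → Fin L` apply `box_pos` to the labels
`i' j : Fin (r + 1)`, `i' j = i j` if `i j < r` and `i' j = r` otherwise; this gives the exponent
`2 ^ (r + 1)` and all vertices `T' ⊆ Fin (r + 1)`; the vertices `T'` which do not contain `r` are
the vertices `emb hrL T`, `T ⊆ Fin r`. -/
theorem posU {n k M r L : ℕ} (hk : k ≤ n) (hrL : r ≤ L) (hL : 1 ≤ L) {R : Type} [Fintype R]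
    [Nonempty R] (A : R → Formula n k M → Asg n) :
    (successProb A) ^ (2 ^ (r + 1)) * Fintype.card (ExtZ R n k M L) ≤
      (#{z : ExtZ R n k M L | ∀ T : Finset (Fin r),
        (numViolated (A z.1 (extF z (emb hrL T))) (extF z (emb hrL T)) : ℝ) ≤
          M / 2 ^ k / 20} : ℝ) := by
  classical
  have : Nonempty (Fin L) := ⟨⟨0, hL⟩⟩
  have : Nonempty (Fin k ↪ Fin n) := ⟨Fin.castLEEmb hk⟩
  set C : ℝ := (Fintype.card (Fin M → Pat k) : ℝ) with hC
  have hCpos : 0 < C := by
    rw [hC]
    exact_mod_cast Fintype.card_pos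
  -- the density for fixed seed and fixed variables
  set d : (R × (Fin M → (Fin k ↪ Fin n))) → ℝ := fun x =>
    (#{s : Fin M → Pat k | (numViolated (A x.1 fun j => (x.2 j, s j)) (fun j => (x.2 j, s j)) : ℝ) ≤
      M / 2 ^ k / 20} : ℝ) / C with hd
  have hd0 : ∀ x, 0 ≤ d x := fun x => by
    simp only [hd]
    positivity
  -- the average density
  have h1 : ∑ x, d x = successProb A * Fintype.card (R × (Fin M → (Fin k ↪ Fin n))) := by
    have h2 : #{x : R × Formula n k M | (numViolated (A x.1 x.2) x.2 : ℝ) ≤ M / 2 ^ k / 20} =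
        ∑ x : R × (Fin M → (Fin k ↪ Fin n)), #{s : Fin M → Pat k |
          (numViolated (A x.1 fun j => (x.2 j, s j)) (fun j => (x.2 j, s j)) : ℝ) ≤
            M / 2 ^ k / 20} := by
      rw [← ext_card_prod fun (x : R × (Fin M → (Fin k ↪ Fin n))) (s : Fin M → Pat k) =>
        (numViolated (A x.1 fun j => (x.2 j, s j)) (fun j => (x.2 j, s j)) : ℝ) ≤ M / 2 ^ k / 20]
      refine Finset.card_equiv
        { toFun := fun x : R × Formula n k M => ((x.1, fun j => (x.2 j).1), fun j => (x.2 j).2)
          invFun := fun y => (y.1.1, fun j => (y.1.2 j, y.2 j))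
          left_inv := fun _ => rfl
          right_inv := fun _ => rfl } fun x => ?_
      simp only [Finset.mem_filter, Finset.mem_univ, true_and]
      rfl
    have h3 : (Fintype.card (R × Formula n k M) : ℝ) =
        Fintype.card (R × (Fin M → (Fin k ↪ Fin n))) * C := by
      rw [hC, ← Nat.cast_mul, ← Fintype.card_prod]
      congr 1
      exact Fintype.card_congr
        { toFun := fun x : R × Formula n k M => ((x.1, fun j => (x.2 j).1), fun j => (x.2 j).2)
          invFun := fun y => (y.1.1, fun j => (y.1.2 j, y.2 j))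
          left_inv := fun _ => rfl
          right_inv := fun _ => rfl }
    have h4 : (0 : ℝ) < Fintype.card (R × (Fin M → (Fin k ↪ Fin n))) := by
      exact_mod_cast Fintype.card_pos
    rw [successProb, h2, h3]
    simp only [hd]
    rw [← Finset.sum_div]
    push_cast
    have h5 : ∀ a X : ℝ, 0 < X → a / C = a / (X * C) * X := by
      intro a X hX
      field_simp
    exact h5 _ _ h4
  -- the count
  have h5 : #{z : ExtZ R n k M L |
        ∀ T : Finset (Fin r),
          (numViolated (A z.1 (extF z (emb hrL T))) (extF z (emb hrL T)) : ℝ) ≤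
            M / 2 ^ k / 20} =
      ∑ x : (R × (Fin M → (Fin k ↪ Fin n))) × (Fin M → Fin L),
        #{y : (Fin M → Pat k) × (Fin M → Pat k) | ∀ T : Finset (Fin r),
          (numViolated (A x.1.1 (cubeF x.1.2 x.2 y.1 y.2 (emb hrL T)))
            (cubeF x.1.2 x.2 y.1 y.2 (emb hrL T)) : ℝ) ≤ M / 2 ^ k / 20} := by
    rw [← ext_card_prod fun (x : (R × (Fin M → (Fin k ↪ Fin n))) × (Fin M → Fin L))
      (y : (Fin M → Pat k) × (Fin M → Pat k)) => ∀ T : Finset (Fin r),
        (numViolated (A x.1.1 (cubeF x.1.2 x.2 y.1 y.2 (emb hrL T)))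
          (cubeF x.1.2 x.2 y.1 y.2 (emb hrL T)) : ℝ) ≤ M / 2 ^ k / 20]
    refine Finset.card_equiv (extEq1 R n k M L) fun z => ?_
    simp only [Finset.mem_filter, Finset.mem_univ, true_and]
    rfl
  have h6 : ∀ x : (R × (Fin M → (Fin k ↪ Fin n))) × (Fin M → Fin L),
      C ^ 2 * d x.1 ^ (2 ^ (r + 1)) ≤
        (#{y : (Fin M → Pat k) × (Fin M → Pat k) | ∀ T : Finset (Fin r),
          (numViolated (A x.1.1 (cubeF x.1.2 x.2 y.1 y.2 (emb hrL T)))
            (cubeF x.1.2 x.2 y.1 y.2 (emb hrL T)) : ℝ) ≤ M / 2 ^ k / 20} : ℝ) := by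
    intro x
    have h7 := box_pos (P := Pat k) (fun j => PosLab (r := r) (x.2 j)) fun s =>
      (numViolated (A x.1.1 fun j => (x.1.2 j, s j)) (fun j => (x.1.2 j, s j)) : ℝ) ≤
        M / 2 ^ k / 20
    rw [← hC, le_div_iff₀ (by positivity)] at h7
    rw [mul_comm]
    refine h7.trans ?_
    refine Nat.cast_le.mpr (Finset.card_le_card fun y hy => ?_)
    rw [Finset.mem_filter] at hy ⊢
    refine ⟨Finset.mem_univ _, fun T => ?_⟩
    have h7' := hy.2 (T.map Fin.castSuccEmb)
    have h7'' : cubeF x.1.2 x.2 y.1 y.2 (emb hrL T) = fun j => (x.1.2 j,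
        if PosLab (r := r) (x.2 j) ∈ T.map Fin.castSuccEmb then y.2 j else y.1 j) := by
      funext j
      simp only [cubeF]
      refine Prod.ext rfl ?_
      exact if_congr (PosLab_mem hrL T (x.2 j)).symm rfl rfl
    rw [h7'']
    exact h7'
  have h8 : (#{z : ExtZ R n k M L |
        ∀ T : Finset (Fin r),
          (numViolated (A z.1 (extF z (emb hrL T))) (extF z (emb hrL T)) : ℝ) ≤
            M / 2 ^ k / 20} : ℝ) ≥
      ∑ x : (R × (Fin M → (Fin k ↪ Fin n))) × (Fin M → Fin L), C ^ 2 * d x.1 ^ (2 ^ (r + 1)) := by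
    rw [h5]
    push_cast
    exact Finset.sum_le_sum fun x _ => h6 x
  refine le_trans ?_ h8
  -- the power mean inequality
  set X : ℝ := (Fintype.card (R × (Fin M → (Fin k ↪ Fin n))) : ℝ) with hX
  have hXpos : 0 < X := by
    rw [hX]
    exact_mod_cast Fintype.card_pos
  have h9 := Real.pow_arith_mean_le_arith_mean_pow
    (Finset.univ : Finset (R × (Fin M → (Fin k ↪ Fin n)))) (fun _ => 1 / X) d
    (fun _ _ => by positivity)
    (by rw [Finset.sum_const, nsmul_eq_mul, Finset.card_univ, ← hX]; field_simp)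
    (fun x _ => hd0 x) (2 ^ (r + 1))
  rw [← Finset.mul_sum, ← Finset.mul_sum, h1] at h9
  have h10 : 1 / X * (successProb A * X) = successProb A := by field_simp
  rw [h10] at h9
  have h11 : (Fintype.card (ExtZ R n k M L) : ℝ) = X * Fintype.card (Fin M → Fin L) * C ^ 2 := by
    rw [Fintype.card_congr (extEq1 R n k M L), Fintype.card_prod, Fintype.card_prod,
      Fintype.card_prod (Fin M → Pat k) (Fin M → Pat k), hX, hC]
    push_cast
    ring
  rw [h11, Fintype.sum_prod_type]
  simp only [Finset.sum_const, nsmul_eq_mul, Finset.card_univ]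
  rw [← Finset.mul_sum, ← Finset.mul_sum]
  have h12 := mul_le_mul_of_nonneg_left h9
    (show (0 : ℝ) ≤ X * Fintype.card (Fin M → Fin L) * C ^ 2 by positivity)
  calc (successProb A) ^ (2 ^ (r + 1)) * (X * Fintype.card (Fin M → Fin L) * C ^ 2)
      = X * Fintype.card (Fin M → Fin L) * C ^ 2 * (successProb A) ^ (2 ^ (r + 1)) := by ring
    _ ≤ _ := h12
    _ = _ := by
      field_simp

end Pool.Agent.KS
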