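import Pool.Agent.Lib.MP_f017c9_lc_U.Defs
import Pool.Agent.Lib.MP_f017c9_lc_U.Mom
import Pool.Agent.Lib.MP_f017c9_lc_U.Pos

/-!
# One good step from a good cube
-/

namespace Pool.Agent.KS

open Finset

/-- separation of the seed and the variables from the labels and the signs -/
private def extUEq (R : Type) (n k M L : ℕ) : ExtZ R n k M L ≃
    (R × (Fin M → (Fin k ↪ Fin n))) × (Fin M → Fin L × (Pat k × Pat k)) where
  toFun z := ((z.1, fun j => (z.2 j).1), fun j => (z.2 j).2)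
  invFun y := (y.1.1, fun j => (y.1.2 j, y.2 j))
  left_inv _ := rfl
  right_inv _ := rfl

private theorem extU_fib {n k M L : ℕ} {R : Type} [Fintype R] (P : ExtZ R n k M L → Prop)
    [DecidablePred P] :
    #{z : ExtZ R n k M L | P z} = ∑ x : R × (Fin M → (Fin k ↪ Fin n)),
      #{y : Fin M → Fin L × (Pat k × Pat k) | P (x.1, fun j => (x.2 j, y j))} := by
  rw [← ext_card_prod fun (x : R × (Fin M → (Fin k ↪ Fin n)))
    (y : Fin M → Fin L × (Pat k × Pat k)) => P (x.1, fun j => (x.2 j, y j))]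
  refine Finset.card_equiv (extUEq R n k M L) fun z => ?_
  simp only [Finset.mem_filter, Finset.mem_univ, true_and]
  rfl

private theorem extU_card (R : Type) [Fintype R] (n k M L : ℕ) :
    (Fintype.card (ExtZ R n k M L) : ℝ) = Fintype.card R *
      Fintype.card (Fin M → (Fin k ↪ Fin n)) *
        Fintype.card (Fin M → Fin L × (Pat k × Pat k)) := by
  rw [Fintype.card_congr (extUEq R n k M L), Fintype.card_prod, Fintype.card_prod]
  push_cast
  rfl

open Classical in
private theorem extU_typ {n k M L : ℕ} {R : Type} [Fintype R] (δ η₁ : ℝ)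
    (hTyp : (Nat.card {e : Fin M → (Fin k ↪ Fin n) // ¬ Typ δ e} : ℝ) ≤
      η₁ * Fintype.card (Fin M → (Fin k ↪ Fin n))) :
    (#{z : ExtZ R n k M L | ¬ Typ δ (fun j => (z.2 j).1)} : ℝ) ≤
      η₁ * Fintype.card (ExtZ R n k M L) := by
  rw [extU_fib, extU_card]
  push_cast
  obtain ⟨Y, hY⟩ : ∃ Y : ℝ, Y = Fintype.card (Fin M → Fin L × (Pat k × Pat k)) := ⟨_, rfl⟩
  have hY0 : 0 ≤ Y := by
    rw [hY]
    positivity
  have h1 : ∀ x : R × (Fin M → (Fin k ↪ Fin n)),
      (#{y : Fin M → Fin L × (Pat k × Pat k) | ¬ Typ δ (fun j => x.2 j)} : ℝ) =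
        (if ¬ Typ δ x.2 then 1 else 0) * Y := by
    intro x
    by_cases hx : Typ δ x.2
    · rw [Finset.filter_false_of_mem fun y _ => by
        rw [not_not]
        exact hx, if_neg (by
        rw [not_not]
        exact hx)]
      simp
    · rw [Finset.filter_true_of_mem fun y _ => hx, if_pos hx, one_mul, hY, Finset.card_univ]
  have h5 : (∑ x : R × (Fin M → (Fin k ↪ Fin n)), (if ¬ Typ δ x.2 then (1 : ℝ) else 0)) =
      Fintype.card R * ∑ e : Fin M → (Fin k ↪ Fin n), (if ¬ Typ δ e then (1 : ℝ) else 0) := by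
    have h6 := Fintype.sum_prod_type' fun (_ : R) (e : Fin M → (Fin k ↪ Fin n)) =>
      if ¬ Typ δ e then (1 : ℝ) else 0
    rw [Finset.sum_const, nsmul_eq_mul, Finset.card_univ] at h6
    exact h6
  rw [Finset.sum_congr rfl fun x _ => h1 x, ← Finset.sum_mul, h5, ← hY]
  have h2 : (∑ e : Fin M → (Fin k ↪ Fin n), (if ¬ Typ δ e then (1 : ℝ) else 0)) =
      Nat.card {e : Fin M → (Fin k ↪ Fin n) // ¬ Typ δ e} := by
    rw [Nat.card_eq_fintype_card, Fintype.card_subtype, Finset.card_filter]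
    push_cast
    rfl
  rw [h2]
  have h3 := mul_le_mul_of_nonneg_right (mul_le_mul_of_nonneg_left hTyp
    (Nat.cast_nonneg (α := ℝ) (Fintype.card R))) hY0
  refine h3.trans (le_of_eq ?_)
  ring

open Classical in
private theorem extU_fibre {n k M r L : ℕ} (hrL : r ≤ L) (hL : 1 ≤ L) {R : Type}
    (A : R → Formula n k M → Asg n) (δ : ℝ) (hδ0 : 0 ≤ δ) (hδ : δ ≤ 1 / 2)
    (hm : 5 * ((2 : ℝ) ^ r - 1) * (1 - δ) ^ k ≤ 1 / 2) (Γ : ℝ) (St : ExtZ R n k M L → Prop)
    (h𝒯 : ∀ (u : R) (e : Fin M → (Fin k ↪ Fin n)), ∃ 𝒯 : Finset (Finset (Fin r) → Asg n),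
      (𝒯.card : ℝ) ≤ Γ ∧ ∀ z : ExtZ R n k M L, z.1 = u → (fun j => (z.2 j).1) = e → St z →
        (fun T => A z.1 (extF z (emb hrL T))) ∈ 𝒯) (u : R) (e : Fin M → (Fin k ↪ Fin n)) :
    (#{y : Fin M → Fin L × (Pat k × Pat k) | Typ δ e ∧ St (u, fun j => (e j, y j)) ∧
        (∀ T : Finset (Fin r), (numViolated (A u (extF (u, fun j => (e j, y j)) (emb hrL T)))
          (extF (u, fun j => (e j, y j)) (emb hrL T)) : ℝ) ≤ M / 2 ^ k / 20) ∧
        ∀ T T' : Finset (Fin r), T ≠ T' →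
          δ * n < (hammingDist (A u (extF (u, fun j => (e j, y j)) (emb hrL T)))
            (A u (extF (u, fun j => (e j, y j)) (emb hrL T'))) : ℝ)} : ℝ) ≤
      Γ * Real.exp (-(49 / 100) * 2 ^ r * (M / 2 ^ k)) *
        Fintype.card (Fin M → Fin L × (Pat k × Pat k)) := by
  have : Nonempty (Fin L) := ⟨⟨0, hL⟩⟩
  have hL0 : (0 : ℝ) < L := by exact_mod_cast hL
  obtain ⟨𝒯, hΓ, h𝒯⟩ := h𝒯 u e
  have hΓ0 : 0 ≤ Γ := (Nat.cast_nonneg _).trans hΓ
  by_cases he : Typ δ e
  swap
  · rw [Finset.filter_false_of_mem fun y _ h => he h.1]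
    simp only [Finset.card_empty, Nat.cast_zero]
    positivity
  have key : ∀ τ : Finset (Fin r) → Asg n,
      (∀ T T', T ≠ T' → δ * n < (hammingDist (τ T) (τ T') : ℝ)) →
      (#{y : Fin M → Fin L × (Pat k × Pat k) | ∀ T : Finset (Fin r),
        (#{j : Fin M | Violated (τ T) (e j, extPat (emb hrL T) (y j))} : ℝ) ≤ M / 2 ^ k / 20} : ℝ)
      ≤ Fintype.card (Fin M → Fin L × (Pat k × Pat k)) *
        Real.exp (-(49 / 100) * 2 ^ r * (M / 2 ^ k)) := by
    intro τ hτ
    have h1 := momentU (M := M) (Λ := Finset (Fin r)) (W := Fin L × (Pat k × Pat k)) e δ hδ0 hδ he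
      (fun T w => extPat (emb hrL T) w) (fun T a => ext_h1 (emb hrL T) a)
      (fun T T' => 1 - ((symmDiff (emb hrL T) (emb hrL T')).card : ℝ) / L)
      (fun T T' => by
        have hc : ((symmDiff (emb hrL T) (emb hrL T')).card : ℝ) ≤ L := by
          have := Finset.card_le_univ (symmDiff (emb hrL T) (emb hrL T'))
          rw [Fintype.card_fin] at this
          exact_mod_cast this
        have h2 : ((symmDiff (emb hrL T) (emb hrL T')).card : ℝ) / L ≤ 1 :=
          (div_le_one hL0).mpr hc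
        have h3 : 0 ≤ ((symmDiff (emb hrL T) (emb hrL T')).card : ℝ) / L := by positivity
        exact ⟨by linarith, by linarith⟩)
      (fun T T' _ a b => le_of_eq (ext_h2 hL (emb hrL T) (emb hrL T') a b))
      (by
        rw [Fintype.card_finset, Fintype.card_fin]
        push_cast
        exact hm) τ hτ
    rw [Fintype.card_finset, Fintype.card_fin] at h1
    push_cast at h1
    convert h1 using 4
  set 𝒯' := 𝒯.filter fun τ => ∀ T T', T ≠ T' → δ * n < (hammingDist (τ T) (τ T') : ℝ) with h𝒯'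
  have h6 : (Finset.univ.filter fun y : Fin M → Fin L × (Pat k × Pat k) =>
      Typ δ e ∧ St (u, fun j => (e j, y j)) ∧
        (∀ T : Finset (Fin r), (numViolated (A u (extF (u, fun j => (e j, y j)) (emb hrL T)))
          (extF (u, fun j => (e j, y j)) (emb hrL T)) : ℝ) ≤ M / 2 ^ k / 20) ∧
        ∀ T T' : Finset (Fin r), T ≠ T' →
          δ * n < (hammingDist (A u (extF (u, fun j => (e j, y j)) (emb hrL T)))
            (A u (extF (u, fun j => (e j, y j)) (emb hrL T'))) : ℝ)) ⊆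
      𝒯'.biUnion fun τ => Finset.univ.filter fun y : Fin M → Fin L × (Pat k × Pat k) =>
        ∀ T : Finset (Fin r),
          (#{j : Fin M | Violated (τ T) (e j, extPat (emb hrL T) (y j))} : ℝ) ≤
            M / 2 ^ k / 20 := by
    intro y hy
    obtain ⟨-, h7, h8, h9⟩ := (Finset.mem_filter.mp hy).2
    refine Finset.mem_biUnion.mpr
      ⟨fun T => A u (extF (u, fun j => (e j, y j)) (emb hrL T)), ?_, ?_⟩
    · rw [h𝒯', Finset.mem_filter]
      exact ⟨h𝒯 (u, fun j => (e j, y j)) rfl rfl h7, h9⟩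
    · exact Finset.mem_filter.mpr ⟨Finset.mem_univ _, h8⟩
  have h9 := (Finset.card_le_card h6).trans Finset.card_biUnion_le
  have h10 : (#{y : Fin M → Fin L × (Pat k × Pat k) | Typ δ e ∧ St (u, fun j => (e j, y j)) ∧
        (∀ T : Finset (Fin r), (numViolated (A u (extF (u, fun j => (e j, y j)) (emb hrL T)))
          (extF (u, fun j => (e j, y j)) (emb hrL T)) : ℝ) ≤ M / 2 ^ k / 20) ∧
        ∀ T T' : Finset (Fin r), T ≠ T' →
          δ * n < (hammingDist (A u (extF (u, fun j => (e j, y j)) (emb hrL T)))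
            (A u (extF (u, fun j => (e j, y j)) (emb hrL T'))) : ℝ)} : ℝ) ≤
      ∑ τ ∈ 𝒯', (#{y : Fin M → Fin L × (Pat k × Pat k) | ∀ T : Finset (Fin r),
        (#{j : Fin M | Violated (τ T) (e j, extPat (emb hrL T) (y j))} : ℝ) ≤
          M / 2 ^ k / 20} : ℝ) := by
    exact_mod_cast h9
  refine h10.trans ((Finset.sum_le_card_nsmul _ _ _ fun τ hτ =>
    key τ (by
      rw [h𝒯', Finset.mem_filter] at hτ
      exact hτ.2)).trans ?_)
  rw [nsmul_eq_mul]
  have h11 : (𝒯'.card : ℝ) ≤ Γ := by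
    refine le_trans ?_ hΓ
    exact_mod_cast Finset.card_filter_le _ _
  have h12 : (0 : ℝ) ≤ Fintype.card (Fin M → Fin L × (Pat k × Pat k)) *
      Real.exp (-(49 / 100) * 2 ^ r * (M / 2 ^ k)) := by positivity
  refine (mul_le_mul_of_nonneg_right h11 h12).trans (le_of_eq ?_)
  ring

/-- PROOF. As for `extract` (Extract.lean). Take `J₀` with the largest `nearProb A δ J₀` among the
nonempty sets. The points `z` of `posU` with all vertices good are of one of four kinds: (1) the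
variables `e` of `z` are not typical: at most `η₁ * card`; (2) `¬ St z`: at most `η₂ * card`;
(3) typical, `St z`, all outputs `A z.1 (extF z (emb hrL T))` pairwise at distance more than
`δ n`: for fixed seed and typical variables the tuple of the outputs lies in `𝒯`, and for each
tuple of `𝒯` with pairwise distances more than `δ n` `momentU` with `Λ = Finset (Fin r)`,
`W = Fin L × (Pat k × Pat k)`, `pat T = extPat (emb hrL T)` (laws: `ext_h1`, `ext_h2`) bounds the
number of the remaining data by `exp (-(49/100) 2 ^ r M / 2 ^ k) * card`; (4) two outputs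
`T ≠ T'` at distance at most `δ n`: `ext_pair` for `emb hrL T`, `emb hrL T'` and the choice of `J₀`
(`emb hrL` is injective, so the symmetric difference is not empty), `4 ^ r` pairs. -/
theorem extractU {n k M r L : ℕ} (hk : k ≤ n) (hrL : r ≤ L) (hL : 1 ≤ L) {R : Type}
    [Fintype R] [Nonempty R] (A : R → Formula n k M → Asg n) (δ : ℝ) (hδ0 : 0 ≤ δ)
    (hδ : δ ≤ 1 / 2) (hm : 5 * ((2 : ℝ) ^ r - 1) * (1 - δ) ^ k ≤ 1 / 2) (Γ η₁ η₂ : ℝ)
    (hTyp : (Nat.card {e : Fin M → (Fin k ↪ Fin n) // ¬ Typ δ e} : ℝ) ≤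
      η₁ * Fintype.card (Fin M → (Fin k ↪ Fin n)))
    (St : ExtZ R n k M L → Prop)
    (hSt : (Nat.card {z : ExtZ R n k M L // ¬ St z} : ℝ) ≤ η₂ * Fintype.card (ExtZ R n k M L))
    (h𝒯 : ∀ (u : R) (e : Fin M → (Fin k ↪ Fin n)), ∃ 𝒯 : Finset (Finset (Fin r) → Asg n),
      (𝒯.card : ℝ) ≤ Γ ∧ ∀ z : ExtZ R n k M L, z.1 = u → (fun j => (z.2 j).1) = e → St z →
        (fun T => A z.1 (extF z (emb hrL T))) ∈ 𝒯) :
    ∃ J₀ : Finset (Fin L), J₀.Nonempty ∧
      (successProb A) ^ (2 ^ (r + 1)) - η₁ - η₂ -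
          Γ * Real.exp (-(49 / 100) * 2 ^ r * (M / 2 ^ k)) ≤ 4 ^ r * nearProb A δ J₀ := by
  classical
  have : Nonempty (Fin L) := ⟨⟨0, hL⟩⟩
  have : Nonempty (Fin k ↪ Fin n) := ⟨Fin.castLEEmb hk⟩
  obtain ⟨J₀, hJ₀, hmax⟩ := Finset.exists_max_image
    ((Finset.univ : Finset (Finset (Fin L))).filter fun J => J.Nonempty) (nearProb A δ)
    ⟨Finset.univ, by simp [Finset.univ_nonempty]⟩
  refine ⟨J₀, (Finset.mem_filter.mp hJ₀).2, ?_⟩
  obtain ⟨π, hπ⟩ : ∃ π : ℝ, π = nearProb A δ J₀ := ⟨_, rfl⟩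
  rw [← hπ]
  obtain ⟨N, hN⟩ : ∃ N : ℝ, N = Fintype.card (ExtZ R n k M L) := ⟨_, rfl⟩
  have hNpos : 0 < N := by
    rw [hN]
    exact_mod_cast Fintype.card_pos
  have hπ0 : 0 ≤ π := by
    rw [hπ, nearProb]
    positivity
  have hΓ0 : 0 ≤ Γ := by
    obtain ⟨u⟩ := ‹Nonempty R›
    obtain ⟨𝒯, hΓ, -⟩ := h𝒯 u fun _ => Fin.castLEEmb hk
    exact (Nat.cast_nonneg _).trans hΓ
  have h1 := posU (M := M) hk hrL hL A
  rw [← hN] at h1 hSt
  -- typical variables
  have hS1 := extU_typ (R := R) (L := L) δ η₁ hTyp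
  rw [← hN] at hS1
  -- unstable points
  have hS2 : (#{z : ExtZ R n k M L | ¬ St z} : ℝ) ≤ η₂ * N := by
    rwa [Nat.card_eq_fintype_card, Fintype.card_subtype] at hSt
  -- separated outputs
  have hS3 : (#{z : ExtZ R n k M L | Typ δ (fun j => (z.2 j).1) ∧ St z ∧
        (∀ T : Finset (Fin r), (numViolated (A z.1 (extF z (emb hrL T)))
          (extF z (emb hrL T)) : ℝ) ≤ M / 2 ^ k / 20) ∧
        ∀ T T' : Finset (Fin r), T ≠ T' →
          δ * n < (hammingDist (A z.1 (extF z (emb hrL T)))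
            (A z.1 (extF z (emb hrL T'))) : ℝ)} : ℝ) ≤
      Γ * Real.exp (-(49 / 100) * 2 ^ r * (M / 2 ^ k)) * N := by
    rw [extU_fib]
    push_cast
    refine (Finset.sum_le_sum fun x _ => extU_fibre hrL hL A δ hδ0 hδ hm Γ St h𝒯 x.1 x.2).trans ?_
    rw [Finset.sum_const, nsmul_eq_mul, Finset.card_univ, hN, extU_card, Fintype.card_prod]
    push_cast
    refine le_of_eq ?_
    ring
  -- close outputs
  have hS4 : ∀ T T' : Finset (Fin r), T ≠ T' →
      (#{z : ExtZ R n k M L | (numViolated (A z.1 (extF z (emb hrL T)))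
          (extF z (emb hrL T)) : ℝ) ≤ M / 2 ^ k / 20 ∧
        (numViolated (A z.1 (extF z (emb hrL T'))) (extF z (emb hrL T')) : ℝ) ≤
          M / 2 ^ k / 20 ∧
        (hammingDist (A z.1 (extF z (emb hrL T))) (A z.1 (extF z (emb hrL T'))) : ℝ) ≤
          δ * n} : ℝ) ≤ π * N := by
    intro T T' hTT
    rw [ext_pair A δ (emb hrL T) (emb hrL T')]
    have h4 : nearProb A δ (symmDiff (emb hrL T) (emb hrL T')) ≤ π := by
      rw [hπ]
      apply hmax
      simp only [Finset.mem_filter, Finset.mem_univ, true_and]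
      rw [Finset.nonempty_iff_ne_empty]
      intro h0
      exact hTT (Finset.map_injective _ (symmDiff_eq_bot.mp h0))
    have h5 := mul_le_mul_of_nonneg_right h4 hNpos.le
    refine le_trans (le_of_eq ?_) h5
    have h6 : (Fintype.card (R × Formula n k M) *
        Fintype.card (Fin M → Fin L × Pat k) : ℝ) ≠ 0 := by
      rw [← ext_card, ← hN]
      exact hNpos.ne'
    rw [hN, ext_card, nearProb, div_mul_cancel₀ _ h6]
  obtain ⟨S4, hS4def⟩ : ∃ S4 : Finset (ExtZ R n k M L),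
      S4 = (Finset.univ : Finset (Finset (Fin r))).offDiag.biUnion fun p =>
        Finset.univ.filter fun z : ExtZ R n k M L =>
          (numViolated (A z.1 (extF z (emb hrL p.1))) (extF z (emb hrL p.1)) : ℝ) ≤
            M / 2 ^ k / 20 ∧
          (numViolated (A z.1 (extF z (emb hrL p.2))) (extF z (emb hrL p.2)) : ℝ) ≤
            M / 2 ^ k / 20 ∧
          (hammingDist (A z.1 (extF z (emb hrL p.1))) (A z.1 (extF z (emb hrL p.2))) : ℝ) ≤
            δ * n := ⟨_, rfl⟩
  have hS4c : (S4.card : ℝ) ≤ 4 ^ r * (π * N) := by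
    have h9 : (S4.card : ℝ) ≤ ∑ p ∈ (Finset.univ : Finset (Finset (Fin r))).offDiag,
        (#{z : ExtZ R n k M L | (numViolated (A z.1 (extF z (emb hrL p.1)))
          (extF z (emb hrL p.1)) : ℝ) ≤ M / 2 ^ k / 20 ∧
          (numViolated (A z.1 (extF z (emb hrL p.2))) (extF z (emb hrL p.2)) : ℝ) ≤
            M / 2 ^ k / 20 ∧
          (hammingDist (A z.1 (extF z (emb hrL p.1))) (A z.1 (extF z (emb hrL p.2))) : ℝ) ≤
            δ * n} : ℝ) := by
      rw [hS4def]
      exact_mod_cast Finset.card_biUnion_le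
    refine h9.trans ((Finset.sum_le_card_nsmul _ _ (π * N) fun p hp => ?_).trans ?_)
    · exact hS4 p.1 p.2 (Finset.mem_offDiag.mp hp).2.2
    · rw [nsmul_eq_mul]
      apply mul_le_mul_of_nonneg_right _ (by positivity)
      have h13 : ((Finset.univ : Finset (Finset (Fin r))).offDiag.card : ℝ) ≤
          ((2 ^ r * 2 ^ r : ℕ) : ℝ) := by
        have h14 : (Finset.univ : Finset (Finset (Fin r))).offDiag.card ≤ 2 ^ r * 2 ^ r := by
          rw [Finset.offDiag_card, Finset.card_univ, Fintype.card_finset, Fintype.card_fin]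
          exact Nat.sub_le _ _
        exact_mod_cast h14
      refine h13.trans (le_of_eq ?_)
      push_cast
      rw [← mul_pow]
      norm_num
  -- the union bound
  obtain ⟨S1, hS1def⟩ : ∃ S1 : Finset (ExtZ R n k M L), S1 =
      Finset.univ.filter fun z : ExtZ R n k M L => ¬ Typ δ (fun j => (z.2 j).1) := ⟨_, rfl⟩
  obtain ⟨S2, hS2def⟩ : ∃ S2 : Finset (ExtZ R n k M L), S2 =
      Finset.univ.filter fun z : ExtZ R n k M L => ¬ St z := ⟨_, rfl⟩
  obtain ⟨S3, hS3def⟩ : ∃ S3 : Finset (ExtZ R n k M L), S3 =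
      Finset.univ.filter fun z : ExtZ R n k M L => Typ δ (fun j => (z.2 j).1) ∧ St z ∧
        (∀ T : Finset (Fin r), (numViolated (A z.1 (extF z (emb hrL T)))
          (extF z (emb hrL T)) : ℝ) ≤ M / 2 ^ k / 20) ∧
        ∀ T T' : Finset (Fin r), T ≠ T' →
          δ * n < (hammingDist (A z.1 (extF z (emb hrL T)))
            (A z.1 (extF z (emb hrL T'))) : ℝ) := ⟨_, rfl⟩
  rw [← hS1def] at hS1
  rw [← hS2def] at hS2
  rw [← hS3def] at hS3
  have hsub : (Finset.univ.filter fun z : ExtZ R n k M L => ∀ T : Finset (Fin r),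
        (numViolated (A z.1 (extF z (emb hrL T))) (extF z (emb hrL T)) : ℝ) ≤
          M / 2 ^ k / 20) ⊆ S1 ∪ (S2 ∪ (S3 ∪ S4)) := by
    intro z hz
    have hz' := (Finset.mem_filter.mp hz).2
    rw [Finset.mem_union, Finset.mem_union, Finset.mem_union]
    by_cases h2 : Typ δ (fun j => (z.2 j).1)
    swap
    · left
      rw [hS1def, Finset.mem_filter]
      exact ⟨Finset.mem_univ _, h2⟩
    right
    by_cases h3 : St z
    swap
    · left
      rw [hS2def, Finset.mem_filter]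
      exact ⟨Finset.mem_univ _, h3⟩
    right
    by_cases hs : ∀ T T' : Finset (Fin r), T ≠ T' →
        δ * n < (hammingDist (A z.1 (extF z (emb hrL T)))
          (A z.1 (extF z (emb hrL T'))) : ℝ)
    · left
      rw [hS3def, Finset.mem_filter]
      exact ⟨Finset.mem_univ _, h2, h3, hz', hs⟩
    · right
      push Not at hs
      obtain ⟨T, T', hTT, hd⟩ := hs
      rw [hS4def]
      refine Finset.mem_biUnion.mpr ⟨(T, T'), ?_, ?_⟩
      · simp [Finset.mem_offDiag, hTT]
      · exact Finset.mem_filter.mpr ⟨Finset.mem_univ _, hz' T, hz' T', hd⟩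
  have hcard : (#{z : ExtZ R n k M L | ∀ T : Finset (Fin r),
        (numViolated (A z.1 (extF z (emb hrL T))) (extF z (emb hrL T)) : ℝ) ≤
          M / 2 ^ k / 20} : ℝ) ≤ S1.card + (S2.card + (S3.card + S4.card)) := by
    have h2 := Finset.card_le_card hsub
    have h3 := Finset.card_union_le S1 (S2 ∪ (S3 ∪ S4))
    have h4 := Finset.card_union_le S2 (S3 ∪ S4)
    have h5 := Finset.card_union_le S3 S4
    have h6 : #{z : ExtZ R n k M L | ∀ T : Finset (Fin r),
        (numViolated (A z.1 (extF z (emb hrL T))) (extF z (emb hrL T)) : ℝ) ≤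
          M / 2 ^ k / 20} ≤ S1.card + (S2.card + (S3.card + S4.card)) := by omega
    exact_mod_cast h6
  have h15 : (successProb A) ^ (2 ^ (r + 1)) * N ≤
      (η₁ + η₂ + Γ * Real.exp (-(49 / 100) * 2 ^ r * (M / 2 ^ k)) + 4 ^ r * π) * N := by
    have h16 := h1.trans hcard
    nlinarith
  have h16 := le_of_mul_le_mul_right h15 hNpos
  linarith

end Pool.Agent.KS
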