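import Pool.Agent.Lib.MP_f017c9_lc_U.Defs

/-!
# The restrictions of a group-valued polynomial of degree `D` to a cube with frozen clauses
-/

namespace Pool.Agent.KS

open Finset

/-- Moebius inversion on the Boolean lattice, existence. -/
private theorem fam_moebius {r : ℕ} {G : Type} [AddCommGroup G]
    (f : Finset (Fin r) → G) :
    ∃ c : Finset (Fin r) → G, ∀ T, f T = ∑ U ∈ T.powerset, c U := by
  classical
  let c : Finset (Fin r) → G := fun T => Finset.strongInduction (p := fun _ => G)
    (fun T ih => f T - ∑ U ∈ T.ssubsets.attach, ih U.1 (mem_ssubsets.1 U.2)) T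
  have hc : ∀ T, c T = f T - ∑ U ∈ T.ssubsets, c U := by
    intro T
    have h := Finset.strongInduction_eq (p := fun _ => G)
      (fun T ih => f T - ∑ U ∈ T.ssubsets.attach, ih U.1 (mem_ssubsets.1 U.2)) T
    have h2 : c T = f T - ∑ U ∈ T.ssubsets.attach, c U.1 := h
    rw [h2, Finset.sum_attach T.ssubsets c]
  refine ⟨c, fun T => ?_⟩
  have h3 : ∑ U ∈ T.powerset, c U = c T + ∑ U ∈ T.ssubsets, c U := by
    rw [Finset.ssubsets, Finset.add_sum_erase _ _ (by simp)]
  rw [h3, hc T]
  abel

/-- functions on the cube of degree at most `D` -/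
private def FamGood {r : ℕ} {G : Type} [AddCommGroup G] (D : ℕ)
    (f : Finset (Fin r) → G) : Prop :=
  ∃ c : Finset (Fin r) → G, ∀ T, f T = ∑ U with U.card ≤ D, if U ⊆ T then c U else 0

private theorem fam_good_sum {r : ℕ} {G : Type} [AddCommGroup G] {D : ℕ} {ι : Type}
    (S : Finset ι) (f : ι → Finset (Fin r) → G) (h : ∀ x ∈ S, FamGood D (f x)) :
    FamGood D (fun T => ∑ x ∈ S, f x T) := by
  classical
  choose! c hc using h
  refine ⟨fun U => ∑ x ∈ S, c x U, fun T => ?_⟩
  show ∑ x ∈ S, f x T = ∑ U with U.card ≤ D, if U ⊆ T then ∑ x ∈ S, c x U else 0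
  rw [Finset.sum_congr rfl fun x hx => hc x hx T, Finset.sum_comm]
  refine Finset.sum_congr rfl fun U _ => ?_
  split_ifs <;> simp

private theorem fam_good_one {r : ℕ} {G : Type} [AddCommGroup G] {D : ℕ}
    (f : Finset (Fin r) → G) (U₀ : Finset (Fin r)) (h0 : U₀.card ≤ D)
    (hf : ∀ T, f T = f (T ∩ U₀)) : FamGood D f := by
  classical
  obtain ⟨c, hc⟩ := fam_moebius f
  refine ⟨fun U => if U ⊆ U₀ then c U else 0, fun T => ?_⟩
  rw [hf T, hc]
  have h1 : (∑ U with U.card ≤ D, if U ⊆ T then (if U ⊆ U₀ then c U else 0) else 0) =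
      ∑ U with U.card ≤ D, if U ∈ (T ∩ U₀).powerset then c U else 0 := by
    refine Finset.sum_congr rfl fun U _ => ?_
    simp only [mem_powerset, subset_inter_iff]
    split_ifs <;> first | rfl | tauto
  rw [h1, ← Finset.sum_filter]
  refine Finset.sum_congr ?_ fun _ _ => rfl
  ext U
  simp only [mem_powerset, mem_filter, mem_univ, true_and]
  constructor
  · intro h
    exact ⟨(card_le_card (h.trans inter_subset_right)).trans h0, h⟩
  · exact fun h => h.2

private theorem fam_card (r D : ℕ) :
    #{U : Finset (Fin r) | U.card ≤ D} = ∑ d ∈ range (D + 1), r.choose d := by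
  classical
  have h := Finset.card_eq_sum_card_fiberwise (s := {U : Finset (Fin r) | U.card ≤ D})
    (t := range (D + 1)) (f := fun U => U.card)
    (by
      intro U hU
      simp only [coe_filter, mem_univ, true_and, Set.mem_ofPred_eq] at hU
      simp only [coe_range, Set.mem_Iio]
      omega)
  rw [h]
  refine Finset.sum_congr rfl fun d hd => ?_
  have h2 : (({U : Finset (Fin r) | U.card ≤ D} : Finset (Finset (Fin r))).filter
      fun U => U.card = d) = powersetCard d univ := by
    ext U
    simp only [mem_filter, mem_univ, true_and, mem_powersetCard, subset_univ]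
    have : d < D + 1 := mem_range.1 hd
    constructor
    · exact fun h => h.2
    · exact fun h => ⟨by omega, h⟩
  rw [h2, card_powersetCard, card_univ, Fintype.card_fin]

/-- PROOF. As for `family` (Family.lean; copy the private lemmas), without the function `φ` and
with the clauses whose label is not among the first `r` labels frozen: the value of the term `J`
depends only on `T ∩ U₀`, where `U₀ : Finset (Fin r)` is the set of the labels `< r` of the clauses
of `J`, `U₀.card ≤ J.card ≤ D`. -/
theorem familyU {G : Type} [AddCommGroup G] [Fintype G] (r D : ℕ) :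
    ∃ ℱ : Finset (Finset (Fin r) → G),
      (ℱ.card : ℝ) ≤ (Fintype.card G : ℝ) ^ (∑ d ∈ range (D + 1), r.choose d) ∧
      ∀ (M L : ℕ) (hrL : r ≤ L) (P : Type) (h : Finset (Fin M) → (Fin M → P) → G),
        (∀ J s s', (∀ j ∈ J, s j = s' j) → h J s = h J s') →
        ∀ (i : Fin M → Fin L) (s s' : Fin M → P),
          (fun T : Finset (Fin r) =>
            ∑ J with J.card ≤ D, h J (fun j => if i j ∈ emb hrL T then s' j else s j)) ∈ ℱ := by
  classical
  let L₀ : Finset (Finset (Fin r)) := {U : Finset (Fin r) | U.card ≤ D}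
  let Φ : (L₀ → G) → Finset (Fin r) → G := fun p T => ∑ U : L₀, if U.1 ⊆ T then p U else 0
  refine ⟨univ.image Φ, ?_, ?_⟩
  · have h1 : (univ.image Φ).card ≤
        (Fintype.card G) ^ (∑ d ∈ range (D + 1), r.choose d) := by
      refine card_image_le.trans (le_of_eq ?_)
      rw [card_univ, Fintype.card_fun, Fintype.card_coe, ← fam_card]
    exact_mod_cast h1
  · intro M L hrL P h hloc i s s'
    have hgood : FamGood D (fun T : Finset (Fin r) =>
        ∑ J with J.card ≤ D, h J (fun j => if i j ∈ emb hrL T then s' j else s j)) := by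
      refine fam_good_sum _ (fun (J : Finset (Fin M)) (T : Finset (Fin r)) =>
        h J (fun j => if i j ∈ emb hrL T then s' j else s j)) ?_
      intro J hJ
      let U₀ : Finset (Fin r) := {a : Fin r | Fin.castLEEmb hrL a ∈ J.image i}
      refine fam_good_one _ U₀ ?_ ?_
      · have h3 : U₀.card ≤ (J.image i).card :=
          card_le_card_of_injOn (fun a => Fin.castLEEmb hrL a)
            (fun a ha => (mem_filter.1 (mem_coe.1 ha)).2) (Fin.castLEEmb hrL).injective.injOn
        exact h3.trans (card_image_le.trans (mem_filter.1 hJ).2)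
      · intro T
        refine hloc J _ _ fun j hj => ?_
        have : i j ∈ emb hrL (T ∩ U₀) ↔
            i j ∈ emb hrL T := by
          unfold emb
          rw [mem_map, mem_map]
          constructor
          · rintro ⟨a, ha, hi⟩
            exact ⟨a, (mem_inter.1 ha).1, hi⟩
          · rintro ⟨a, ha, hi⟩
            refine ⟨a, mem_inter.2 ⟨ha, mem_filter.2 ⟨mem_univ _, ?_⟩⟩, hi⟩
            rw [hi]
            exact mem_image_of_mem _ hj
        simp only [this]
    obtain ⟨c, hc⟩ := hgood
    refine mem_image.2 ⟨fun U => c U.1, mem_univ _, ?_⟩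
    funext T
    simp only [Φ]
    have h2 : (∑ U : L₀, if U.1 ⊆ T then c U.1 else 0) =
        ∑ U ∈ L₀, if U ⊆ T then c U else 0 :=
      Finset.sum_coe_sort L₀ (fun U => if U ⊆ T then c U else 0)
    rw [h2, ← hc T]

end Pool.Agent.KS
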