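import Pool.Agent.Lib.MP_f017c9_lc_U.Defs
import Pool.Agent.Lib.MP_f017c9_lc.NumericG
import Pool.Agent.Lib.MP_f017c9_lc.Count

/-!
# Choice of the parameters, part A
-/

namespace Pool.Agent.KS

open Finset

/-- the distance parameter -/
noncomputable def dlU (ε : ℝ) : ℝ := ε / (16 * Real.log (16 / ε))

private theorem NumA_dl {ε : ℝ} (hε : 0 < ε) (hε1 : ε ≤ 1) : 0 < dlU ε ∧ dlU ε ≤ 1 / 4 := by
  have hu := NumericG_u hε hε1
  have hu0 : 0 < Real.log (16 / ε) := by linarith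
  constructor
  · rw [dlU]
    positivity
  · rw [dlU, div_le_div_iff₀ (by positivity) (by norm_num)]
    nlinarith

private theorem NumA_two {x : ℝ} {r : ℕ} (hx : 16 * x ≤ r + 1) :
    (2 : ℝ) ^ x ≤ 2 * (21 / 20 : ℝ) ^ r := by
  have h1 : Real.log 2 ≤ 16 * Real.log (21 / 20) := by
    have h2 : (16 : ℝ) * Real.log (21 / 20) = Real.log ((21 / 20 : ℝ) ^ 16) := by
      rw [Real.log_pow]
      norm_num
    rw [h2]
    exact Real.log_le_log (by norm_num) (by norm_num)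
  have h3 : (21 / 20 : ℝ) ^ r = Real.exp (r * Real.log (21 / 20)) := by
    rw [Real.exp_nat_mul, Real.exp_log (by norm_num)]
  have h4 : 0 < Real.log 2 := Real.log_pos (by norm_num)
  have h5 : (0 : ℝ) ≤ r := Nat.cast_nonneg r
  calc (2 : ℝ) ^ x = Real.exp (Real.log 2 * x) := Real.rpow_def_of_pos (by norm_num) x
    _ ≤ Real.exp (Real.log 2 + r * Real.log (21 / 20)) := by
        apply Real.exp_le_exp.2
        nlinarith [mul_le_mul_of_nonneg_left hx h4.le, mul_le_mul_of_nonneg_left h1 h5]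
    _ = 2 * (21 / 20 : ℝ) ^ r := by
        rw [Real.exp_add, Real.exp_log (by norm_num), h3]

private theorem NumA_growth {ε : ℝ} (hε : 0 < ε) {g : ℕ} (hg : 1 ≤ g) : ∃ r₀ : ℕ, ∀ r ≥ r₀,
    2 * (21 / 20 : ℝ) ^ r * ((3 / 2 : ℝ) ^ r * Real.log g) +
      2 * (21 / 20 : ℝ) ^ r * Real.log 2 ≤ ε / 50 * 2 ^ r := by
  obtain ⟨C, hC⟩ : ∃ C : ℝ, C = 2 * Real.log g + 2 * Real.log 2 := ⟨_, rfl⟩
  have hg' : (1 : ℝ) ≤ g := by exact_mod_cast hg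
  have hl : 0 ≤ Real.log g := Real.log_nonneg hg'
  have hl2 : 0 ≤ Real.log 2 := Real.log_nonneg (by norm_num)
  obtain ⟨r₀, hr₀⟩ := exists_nat_ge (200 * C / ε)
  refine ⟨r₀, fun r hr => ?_⟩
  have h1 : 2 * (21 / 20 : ℝ) ^ r * ((3 / 2 : ℝ) ^ r * Real.log g) +
      2 * (21 / 20 : ℝ) ^ r * Real.log 2 ≤ (63 / 40 : ℝ) ^ r * C := by
    have h2 : (63 / 40 : ℝ) ^ r = (21 / 20 : ℝ) ^ r * (3 / 2 : ℝ) ^ r := by
      rw [← mul_pow]
      norm_num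
    have h3 : (1 : ℝ) ≤ (3 / 2 : ℝ) ^ r := one_le_pow₀ (by norm_num)
    have h4 : (0 : ℝ) ≤ (21 / 20 : ℝ) ^ r * Real.log 2 := by positivity
    rw [h2, hC]
    nlinarith [mul_le_mul_of_nonneg_left h3 h4]
  have h3 : (1 : ℝ) + r * (17 / 63) ≤ (80 / 63 : ℝ) ^ r := by
    have := one_add_mul_le_pow (show (-2 : ℝ) ≤ 17 / 63 by norm_num) r
    rw [show (80 : ℝ) / 63 = 1 + 17 / 63 by norm_num]
    exact this
  have h4 : C ≤ ε / 50 * (80 / 63 : ℝ) ^ r := by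
    have h5 : 200 * C / ε ≤ r := hr₀.trans (by exact_mod_cast hr)
    rw [div_le_iff₀ hε] at h5
    have h6 : ε / 50 * (1 + r * (17 / 63)) ≤ ε / 50 * (80 / 63 : ℝ) ^ r :=
      mul_le_mul_of_nonneg_left h3 (by positivity)
    nlinarith
  have h7 : (2 : ℝ) ^ r = (63 / 40 : ℝ) ^ r * (80 / 63 : ℝ) ^ r := by
    rw [← mul_pow]
    norm_num
  rw [h7]
  calc _ ≤ (63 / 40 : ℝ) ^ r * C := h1
    _ ≤ (63 / 40 : ℝ) ^ r * (ε / 50 * (80 / 63 : ℝ) ^ r) :=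
        mul_le_mul_of_nonneg_left h4 (by positivity)
    _ = ε / 50 * ((63 / 40 : ℝ) ^ r * (80 / 63 : ℝ) ^ r) := by ring

/-- PROOF. Put `δ = dlU ε ≤ 1/4` (`NumericG_u`), `r = ⌊δ k⌋`. `(1 - δ) ^ k ≤ exp (-δ k)` and
`2 ^ r ≤ 2 ^ (δ k) = exp (δ k log 2)`, so the second claim holds as soon as
`exp (-(1 - log 2) δ k) ≤ 1/10`; the fourth: `2 ε (2 (1 - δ)) ^ k ≥ 2 ε (3/2) ^ k`. Compare the
proof of `numericG` in NumericG.lean. -/
theorem numU_sep (ε : ℝ) (hε : 0 < ε) (hε1 : ε ≤ 1) :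
    ∃ k₀ : ℕ, ∀ k ≥ k₀, 1 ≤ ⌊dlU ε * k⌋₊ ∧
      5 * ((2 : ℝ) ^ ⌊dlU ε * k⌋₊ - 1) * (1 - dlU ε) ^ k ≤ 1 / 2 ∧
      16 * Real.log (16 / ε) ^ 2 ≤ ε * k ∧ 3 ≤ 2 * ((1 - dlU ε) ^ k * (ε * 2 ^ k)) := by
  obtain ⟨hδ0, hδ1⟩ := NumA_dl hε hε1
  obtain ⟨δ, hδ⟩ : ∃ δ : ℝ, δ = dlU ε := ⟨_, rfl⟩
  rw [← hδ] at hδ0 hδ1 ⊢
  obtain ⟨k₀, hk₀⟩ := exists_nat_ge (max (30 / δ) (max (16 * Real.log (16 / ε) ^ 2 / ε) (3 / ε)))
  refine ⟨k₀, fun k hk => ?_⟩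
  have hk' : (k₀ : ℝ) ≤ k := by exact_mod_cast hk
  have hka : 30 ≤ δ * k := by
    have := (le_max_left _ _).trans (hk₀.trans hk')
    rw [div_le_iff₀ hδ0] at this
    linarith
  have hkb : 16 * Real.log (16 / ε) ^ 2 ≤ ε * k := by
    have := ((le_max_left _ _).trans (le_max_right _ _)).trans (hk₀.trans hk')
    rw [div_le_iff₀ hε] at this
    linarith
  have hkc : 3 ≤ ε * k := by
    have := ((le_max_right _ _).trans (le_max_right _ _)).trans (hk₀.trans hk')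
    rw [div_le_iff₀ hε] at this
    linarith
  obtain ⟨r, hr⟩ : ∃ r : ℕ, r = ⌊δ * k⌋₊ := ⟨_, rfl⟩
  rw [← hr]
  have hrle : (r : ℝ) ≤ δ * k := by
    rw [hr]
    exact Nat.floor_le (by positivity)
  have hrlt : δ * k < r + 1 := by
    rw [hr]
    exact Nat.lt_floor_add_one _
  have hr1 : 1 ≤ r := by
    have : (1 : ℝ) < r + 1 := by linarith
    have : 1 < r + 1 := by exact_mod_cast this
    omega
  refine ⟨hr1, ?_, hkb, ?_⟩
  · have h1 : (1 - δ) ^ k ≤ Real.exp (-(δ * k)) := by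
      have h2 : (1 - δ) ≤ Real.exp (-δ) := by
        have := Real.add_one_le_exp (-δ)
        linarith
      calc (1 - δ) ^ k ≤ Real.exp (-δ) ^ k := pow_le_pow_left₀ (by linarith) h2 k
        _ = Real.exp (k * (-δ)) := (Real.exp_nat_mul _ _).symm
        _ = Real.exp (-(δ * k)) := by congr 1; ring
    have h3 : (2 : ℝ) ^ r = Real.exp (r * Real.log 2) := by
      rw [Real.exp_nat_mul, Real.exp_log (by norm_num)]
    have h4 : (1 : ℝ) ≤ 2 ^ r := one_le_pow₀ (by norm_num)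
    have h5 : 0 ≤ (1 - δ) ^ k := pow_nonneg (by linarith) k
    have h6 := Real.log_two_lt_d9
    have h6' := Real.log_two_gt_d9
    have h7 : ((2 : ℝ) ^ r - 1) * (1 - δ) ^ k ≤ 1 / 10 := by
      calc ((2 : ℝ) ^ r - 1) * (1 - δ) ^ k ≤ 2 ^ r * (1 - δ) ^ k :=
            mul_le_mul_of_nonneg_right (by linarith) h5
        _ ≤ 2 ^ r * Real.exp (-(δ * k)) := mul_le_mul_of_nonneg_left h1 (by positivity)
        _ = Real.exp (r * Real.log 2 + -(δ * k)) := by rw [h3, Real.exp_add]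
        _ ≤ Real.exp (-9) := by
            apply Real.exp_le_exp.2
            have h7 : (r : ℝ) * Real.log 2 ≤ δ * k * Real.log 2 :=
              mul_le_mul_of_nonneg_right hrle (by linarith)
            nlinarith
        _ ≤ 1 / 10 := by
            rw [Real.exp_neg, ← one_div]
            have h8 := Real.add_one_le_exp (9 : ℝ)
            exact one_div_le_one_div_of_le (by norm_num) (by linarith)
    linarith
  · have h1 : (3 / 2 : ℝ) ^ k ≤ (1 - δ) ^ k * 2 ^ k := by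
      rw [← mul_pow]
      exact pow_le_pow_left₀ (by norm_num) (by linarith) k
    have h2 : (1 : ℝ) + k * (1 / 2) ≤ (3 / 2 : ℝ) ^ k := by
      have := one_add_mul_le_pow (show (-2 : ℝ) ≤ 1 / 2 by norm_num) k
      rw [show (3 : ℝ) / 2 = 1 + 1 / 2 by norm_num]
      exact this
    have h3 : ε * (1 + k * (1 / 2)) ≤ ε * ((1 - δ) ^ k * 2 ^ k) :=
      mul_le_mul_of_nonneg_left (h2.trans h1) hε.le
    have h4 : 2 * ((1 - δ) ^ k * (ε * 2 ^ k)) = 2 * (ε * ((1 - δ) ^ k * 2 ^ k)) := by ring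
    rw [h4]
    nlinarith

/-- PROOF. `16 D ≤ r` (as `16 D ≤ dlU ε * k < r + 1`), so the sum of the binomial coefficients is
at most `(3/2) ^ r` (`NumericG_choose`); `2 ^ (dlU ε / 16 * k) ≤ 2 ^ ((r + 1) / 16) ≤
2 * (21/20) ^ r` (`2 ≤ (21/20) ^ 16`). The logarithm of the left side is at most
`n * (2 (21/20) ^ r (3/2) ^ r log g + 2 (21/20) ^ r + ε 2 ^ r / 32 + ε 2 ^ r log 2 / 2
- 48/100 ε 2 ^ r)`, and `(63/40) ^ r` is small against `2 ^ r`, so for large `r` the first two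
terms are at most `ε 2 ^ r / 50`; the total is at most `-(8/100) ε 2 ^ r n`, `2 ≤ 2 ^ r`. -/
theorem numU_count (ε : ℝ) (hε : 0 < ε) (hε1 : ε ≤ 1) (g : ℕ) (hg : 1 ≤ g) :
    ∃ k₀ : ℕ, ∀ k ≥ k₀, ∀ (n r D Q₁ Q₂ Q₃ : ℕ) (E : ℝ), r = ⌊dlU ε * k⌋₊ →
      (D : ℝ) ≤ dlU ε / 16 * k → (Q₁ : ℝ) ≤ (2 : ℝ) ^ (dlU ε / 16 * k) * n →
      (Q₂ : ℝ) ≤ (2 : ℝ) ^ (dlU ε / 16 * k) * n → (Q₃ : ℝ) ≤ ε * n / 2 → ε * n ≤ E →
      ((g : ℝ) ^ (∑ d ∈ range (D + 1), r.choose d)) ^ Q₁ *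
        (2 ^ Q₂ * Real.exp (ε * n / 32) ^ (2 ^ r)) * 2 ^ (Q₃ * 2 ^ r) *
        Real.exp (-(48 / 100) * 2 ^ r * E) ≤ Real.exp (-(ε * n / 12)) := by
  obtain ⟨hδ0, hδ1⟩ := NumA_dl hε hε1
  obtain ⟨δ, hδ⟩ : ∃ δ : ℝ, δ = dlU ε := ⟨_, rfl⟩
  rw [← hδ] at hδ0 hδ1 ⊢
  obtain ⟨r₀, hr₀⟩ := NumA_growth hε hg
  obtain ⟨k₀, hk₀⟩ := exists_nat_ge ((r₀ + 3) / δ)
  refine ⟨k₀, fun k hk => ?_⟩
  intro n r D Q₁ Q₂ Q₃ E hr hD hQ₁ hQ₂ hQ₃ hE
  have hk' : (k₀ : ℝ) ≤ k := by exact_mod_cast hk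
  have hka : (r₀ : ℝ) + 3 ≤ δ * k := by
    have := hk₀.trans hk'
    rw [div_le_iff₀ hδ0] at this
    linarith
  have hr0' : (0 : ℝ) ≤ r₀ := Nat.cast_nonneg r₀
  have hrlt : δ * k < r + 1 := by
    rw [hr]
    exact Nat.lt_floor_add_one _
  have hrr : r₀ ≤ r := by
    have : (r₀ : ℝ) < r + 1 := by linarith
    have : r₀ < r + 1 := by exact_mod_cast this
    omega
  have hDr : 16 * D ≤ r := by
    have h1 : (16 : ℝ) * D ≤ δ * k := by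
      have : δ / 16 * k = δ * k / 16 := by ring
      rw [this] at hD
      linarith
    have h2 : (16 : ℝ) * D < r + 1 := lt_of_le_of_lt h1 hrlt
    have h3 : 16 * D < r + 1 := by exact_mod_cast h2
    omega
  have hx : (2 : ℝ) ^ (δ / 16 * k) ≤ 2 * (21 / 20 : ℝ) ^ r := by
    apply NumA_two
    have : 16 * (δ / 16 * k) = δ * k := by ring
    rw [this]
    exact hrlt.le
  have hn0 : (0 : ℝ) ≤ n := Nat.cast_nonneg n
  have hQ₁' : (Q₁ : ℝ) ≤ 2 * (21 / 20 : ℝ) ^ r * n :=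
    hQ₁.trans (mul_le_mul_of_nonneg_right hx hn0)
  have hQ₂' : (Q₂ : ℝ) ≤ 2 * (21 / 20 : ℝ) ^ r * n :=
    hQ₂.trans (mul_le_mul_of_nonneg_right hx hn0)
  have hS := NumericG_choose hDr
  obtain ⟨S, hSdef⟩ : ∃ S : ℕ, S = ∑ d ∈ range (D + 1), r.choose d := ⟨_, rfl⟩
  rw [← hSdef] at hS ⊢
  have hgr := hr₀ r hrr
  have hg' : (1 : ℝ) ≤ g := by exact_mod_cast hg
  have hl : 0 ≤ Real.log g := Real.log_nonneg hg'
  have hl2 := Real.log_two_lt_d9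
  have hl2' : 0 < Real.log 2 := Real.log_pos (by norm_num)
  have e1 : ((g : ℝ) ^ S) ^ Q₁ = Real.exp (Q₁ * (S * Real.log g)) := by
    rw [Real.exp_nat_mul, Real.exp_nat_mul, Real.exp_log (by linarith)]
  have e2 : (2 : ℝ) ^ Q₂ = Real.exp (Q₂ * Real.log 2) := by
    rw [Real.exp_nat_mul, Real.exp_log (by norm_num)]
  have e3 : Real.exp (ε * n / 32) ^ (2 ^ r) = Real.exp (2 ^ r * (ε * n / 32)) := by
    rw [← Real.exp_nat_mul]
    push_cast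
    rfl
  have e4 : (2 : ℝ) ^ (Q₃ * 2 ^ r) = Real.exp (Q₃ * 2 ^ r * Real.log 2) := by
    have h1 : (Q₃ * 2 ^ r * Real.log 2 : ℝ) = ((Q₃ * 2 ^ r : ℕ) : ℝ) * Real.log 2 := by
      push_cast
      rfl
    rw [h1, Real.exp_nat_mul, Real.exp_log (by norm_num)]
  rw [e1, e2, e3, e4, ← Real.exp_add, ← Real.exp_add, ← Real.exp_add, ← Real.exp_add]
  apply Real.exp_le_exp.2
  have hr1 : 1 ≤ r := by
    have : (1 : ℝ) < r + 1 := by linarith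
    have : 1 < r + 1 := by exact_mod_cast this
    omega
  have h2r : (2 : ℝ) ≤ 2 ^ r := by
    calc (2 : ℝ) = 2 ^ 1 := (pow_one _).symm
      _ ≤ 2 ^ r := pow_le_pow_right₀ (by norm_num) hr1
  have f1 : (Q₁ : ℝ) * (S * Real.log g) ≤
      2 * (21 / 20 : ℝ) ^ r * n * ((3 / 2 : ℝ) ^ r * Real.log g) := by
    refine mul_le_mul hQ₁' (mul_le_mul_of_nonneg_right hS hl) ?_ (by positivity)
    exact mul_nonneg (Nat.cast_nonneg _) hl
  have f2 : (Q₂ : ℝ) * Real.log 2 ≤ 2 * (21 / 20 : ℝ) ^ r * n * Real.log 2 :=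
    mul_le_mul_of_nonneg_right hQ₂' hl2'.le
  have f3 : (Q₃ : ℝ) * 2 ^ r * Real.log 2 ≤ ε * n / 2 * 2 ^ r * 0.6931471808 := by
    refine mul_le_mul (mul_le_mul_of_nonneg_right hQ₃ (by positivity)) hl2.le hl2'.le
      (by positivity)
  have f4 : (2 : ℝ) ^ r * (ε * n) ≤ 2 ^ r * E := mul_le_mul_of_nonneg_left hE (by positivity)
  have f5 : n * (2 * (21 / 20 : ℝ) ^ r * ((3 / 2 : ℝ) ^ r * Real.log g) +
      2 * (21 / 20 : ℝ) ^ r * Real.log 2) ≤ n * (ε / 50 * 2 ^ r) :=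
    mul_le_mul_of_nonneg_left hgr hn0
  have f6 : ε * n * 2 ≤ ε * n * 2 ^ r := mul_le_mul_of_nonneg_left h2r (by positivity)
  have f7 : 0 ≤ ε * n := by positivity
  nlinarith

/-- PROOF. `lam = ε / (64 x)`, `κ = ε / (64 log (1 / lam))`, `ball_bound` (Count.lean) with `Q`
instead of `n`. -/
theorem numU_ball (ε x : ℝ) (hε : 0 < ε) (hε1 : ε ≤ 1) (hx : 1 ≤ x) :
    ∃ κ : ℝ, 0 < κ ∧ ∀ n Q : ℕ, (Q : ℝ) ≤ x * n → ∀ v : Fin Q → Bool,
      (#{v' : Fin Q → Bool | (hammingDist v v' : ℝ) ≤ κ * n} : ℝ) ≤ Real.exp (ε * n / 32) := by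
  have hx0 : 0 < x := by linarith
  obtain ⟨lam, hlam⟩ : ∃ lam : ℝ, lam = ε / (64 * x) := ⟨_, rfl⟩
  have hl0 : 0 < lam := by
    rw [hlam]
    positivity
  have hl1 : lam ≤ 1 / 64 := by
    rw [hlam, div_le_div_iff₀ (by positivity) (by norm_num)]
    linarith
  have hlog : 0 < Real.log (1 / lam) := by
    apply Real.log_pos
    rw [lt_div_iff₀ hl0]
    linarith
  refine ⟨ε / (64 * Real.log (1 / lam)), by positivity, ?_⟩
  intro n Q hQ v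
  have hn0 : (0 : ℝ) ≤ n := Nat.cast_nonneg n
  have h1 := ball_bound v (ε / (64 * Real.log (1 / lam)) * n) lam (by positivity) hl0
    (by linarith)
  refine h1.trans (Real.exp_le_exp.2 ?_)
  have h2 : ε / (64 * Real.log (1 / lam)) * n * Real.log (1 / lam) = ε * n / 64 := by
    field_simp
  have h3 : lam * Q ≤ ε * n / 64 := by
    refine (mul_le_mul_of_nonneg_left hQ hl0.le).trans (le_of_eq ?_)
    rw [hlam]
    field_simp
  linarith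

end Pool.Agent.KS
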