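import Pool.Agent.Lib.MP_f017c9_lc_U.Defs
import Pool.Agent.Lib.MP_f017c9_lc.NumericG

/-!
# Choice of the parameters, part D: the end of the proof
-/

namespace Pool.Agent.KS

open Finset

private lemma NumD_pow {F a : ℝ} (ha : 0 < a) (k : ℕ) (hF : 0 ≤ F) :
    ∃ n₁ : ℕ, ∀ n : ℕ, n₁ ≤ n → F * (n : ℝ) ^ k < Real.exp (a * n) := by
  have h1 := isLittleO_pow_exp_pos_mul_atTop (k := k) ha
  have h2 : ∀ᶠ x : ℝ in Filter.atTop, ‖x ^ k‖ ≤ 1 / (F + 1) * ‖Real.exp (a * x)‖ :=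
    h1.def (by positivity)
  have h3 : ∀ᶠ n : ℕ in Filter.atTop, ‖(n : ℝ) ^ k‖ ≤ 1 / (F + 1) * ‖Real.exp (a * n)‖ :=
    tendsto_natCast_atTop_atTop.eventually h2
  obtain ⟨n₁, hn₁⟩ := Filter.eventually_atTop.1 h3
  refine ⟨n₁, fun n hn => ?_⟩
  have h4 := hn₁ n hn
  have h5 : (0 : ℝ) ≤ (n : ℝ) ^ k := by positivity
  have h6 := Real.exp_pos (a * n)
  rw [Real.norm_of_nonneg h5, Real.norm_of_nonneg h6.le] at h4
  have hF1 : 0 < F + 1 := by linarith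
  have h7 : (F + 1) * (n : ℝ) ^ k ≤ Real.exp (a * n) := by
    calc (F + 1) * (n : ℝ) ^ k ≤ (F + 1) * (1 / (F + 1) * Real.exp (a * n)) :=
          mul_le_mul_of_nonneg_left h4 hF1.le
      _ = Real.exp (a * n) := by field_simp
  by_cases h8 : (n : ℝ) ^ k = 0
  · rw [h8, mul_zero]
    exact h6
  · have h9 : 0 < (n : ℝ) ^ k := lt_of_le_of_ne h5 (Ne.symm h8)
    nlinarith

private lemma NumD_K {κ C P S : ℝ} {m r n L K : ℕ} (hκ : 0 < κ) (hC : 0 < C)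
    (hP : 0 < P) (hS : 0 ≤ S) (hCS : C * S < P ^ 2)
    (hL : L = r + ⌈2 ^ (r + 1) * r * S * n / (κ * P)⌉₊) (hK : K ≤ 2 * (m * (2 * L))) :
    (K : ℝ) ≤ 4 * m * (r + 1) + 4 * m * (2 ^ (r + 1) * r / (κ * C)) * n * P := by
  have h1 : (2 : ℝ) ^ (r + 1) * r * S * n / (κ * P) ≤ 2 ^ (r + 1) * r / (κ * C) * n * P := by
    rw [div_le_iff₀ (by positivity)]
    have h2 : (2 : ℝ) ^ (r + 1) * r / (κ * C) * n * P * (κ * P) =
        2 ^ (r + 1) * r * n * (P ^ 2 / C) := by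
      field_simp
    rw [h2]
    have h3 : S ≤ P ^ 2 / C := by
      rw [le_div_iff₀ hC]
      linarith
    have h4 : (0 : ℝ) ≤ 2 ^ (r + 1) * r * n := by positivity
    calc (2 : ℝ) ^ (r + 1) * r * S * n = 2 ^ (r + 1) * r * n * S := by ring
      _ ≤ _ := mul_le_mul_of_nonneg_left h3 h4
  have h5 : (L : ℝ) ≤ r + 1 + 2 ^ (r + 1) * r / (κ * C) * n * P := by
    have h6 : (0 : ℝ) ≤ 2 ^ (r + 1) * r * S * n / (κ * P) := by positivity
    have h7 := Nat.ceil_lt_add_one h6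
    rw [hL]
    push_cast
    linarith
  have h8 : (K : ℝ) ≤ 2 * (m * (2 * L)) := by exact_mod_cast hK
  have h9 : (m : ℝ) * L ≤ m * (r + 1 + 2 ^ (r + 1) * r / (κ * C) * n * P) :=
    mul_le_mul_of_nonneg_left h5 (Nat.cast_nonneg m)
  calc (K : ℝ) ≤ 4 * (m * L) := by linarith
    _ ≤ 4 * (m * (r + 1 + 2 ^ (r + 1) * r / (κ * C) * n * P)) := by linarith
    _ = _ := by ring

private lemma NumD_pi {ε P π : ℝ} {r n : ℕ} (hε1 : ε ≤ 1)
    (hn : 168 ≤ ε * n) (hP : Real.exp (-(ε * n / 24)) ≤ P)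
    (hπ : P - Real.exp (-n) - P / 2 - Real.exp (-(ε * n / 12)) ≤ 4 ^ r * π) :
    P / 4 ^ (r + 1) ≤ π := by
  have hn0 : (0 : ℝ) ≤ n := Nat.cast_nonneg n
  have h1 : Real.exp (-(n : ℝ)) ≤ Real.exp (-(ε * n / 12)) := by
    apply Real.exp_le_exp.2
    have : ε * n ≤ 1 * n := mul_le_mul_of_nonneg_right hε1 hn0
    linarith
  have h2 : Real.exp (-(ε * n / 12)) * 8 ≤ Real.exp (-(ε * n / 24)) := by
    have h3 : Real.exp (-(ε * n / 24)) = Real.exp (-(ε * n / 12)) * Real.exp (ε * n / 24) := by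
      rw [← Real.exp_add]
      congr 1
      ring
    rw [h3]
    have h4 := Real.add_one_le_exp (ε * n / 24)
    exact mul_le_mul_of_nonneg_left (by linarith) (Real.exp_pos _).le
  rw [div_le_iff₀ (by positivity), pow_succ]
  linarith

/-- PROOF. Put `P = p ^ (2 ^ (r + 1))`, so `p ^ (2 ^ (r + 2)) = P ^ 2`. By `hp`
`S < P ^ 2 / C` and `exp (-c' n / 2) < P`. Hence
`L ≤ r + 1 + 2 ^ (r + 1) r n P / (κ C)` and, for `c' ≤ ε / 100` and large `n`,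
`P ≥ 8 (exp (-n) + exp (-(ε n / 12)))`, so `π ≥ P / 4 ^ (r + 1)` and
`log (1 / π) ≤ (r + 1) log 4 + log (1 / P)`. As `P log (1 / P) ≤ 1` and `log (1 / P) ≤ c' n / 2`,
`K log (1 / π) ≤ 4 m (r + 1) ((r + 1) log 4 + c' n / 2) +
4 m 2 ^ (r + 1) r n / (κ C) * ((r + 1) log 4 + 1) ≤ ε n / 25`
for `c'` small, `C` and `n` large. So `π ^ K ≥ exp (-(ε n / 25))`. The left side of the claim is at
most `((K₀ + 1) ^ 2 + (K₀ + 1) ^ (m + 1) * m ^ m) * exp (-(24/100 ε n))` with `K ≤ K₀`, `K₀` linear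
in `n` (`NumericG_left`), which is smaller for large `n`. -/
theorem numU_final (ε κ : ℝ) (hε : 0 < ε) (hε1 : ε ≤ 1) (hκ : 0 < κ) (m r : ℕ)
    (hm : 6 / ε ≤ (m : ℝ)) (hr : 1 ≤ r) :
    ∃ C c' : ℝ, 0 < C ∧ 0 < c' ∧ ∃ n₀ : ℕ, ∀ n ≥ n₀, ∀ (S p E π : ℝ) (L K : ℕ), 0 ≤ S → 0 ≤ p →
      p ≤ 1 → ε * n ≤ E → C * S + Real.exp (-c' * n) < p ^ (2 ^ (r + 2)) →
      L = r + ⌈2 ^ (r + 1) * r * S * n / (κ * p ^ (2 ^ (r + 1)))⌉₊ → K ≤ 2 * (m * (2 * L)) →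
      p ^ (2 ^ (r + 1)) - Real.exp (-n) - p ^ (2 ^ (r + 1)) / 2 - Real.exp (-(ε * n / 12)) ≤
        4 ^ r * π →
      ((K : ℝ) + 1) ^ 2 * (Real.exp (ε * n / 4) * Real.exp (-(49 / 100) * E)) +
        ((K : ℝ) + 1) ^ (m + 1) * ((2 ^ n * ((m : ℝ) * Real.exp (ε * n / 4)) ^ m) *
          Real.exp (-(49 / 100) * (m + 1) * E)) < π ^ K := by
  have hm0 : (0 : ℝ) < m := lt_of_lt_of_le (by positivity) hm
  have hm6 : (6 : ℝ) ≤ m := by
    have h1 : (6 : ℝ) ≤ 6 / ε := by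
      rw [le_div_iff₀ hε]
      linarith
    linarith
  have hr' : (1 : ℝ) ≤ r := by exact_mod_cast hr
  have hr0 : (0 : ℝ) < r := by linarith
  have hl4 : 0 < Real.log 4 := Real.log_pos (by norm_num)
  obtain ⟨A, hA⟩ : ∃ A : ℝ, A = (r + 1) * Real.log 4 + 1 := ⟨_, rfl⟩
  have hA0 : 0 < A := by rw [hA]; positivity
  obtain ⟨C, hC⟩ : ∃ C : ℝ, C = 400 * m * (2 ^ (r + 1) * r) * A / (κ * ε) := ⟨_, rfl⟩
  have hC0 : 0 < C := by rw [hC]; positivity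
  obtain ⟨c', hc'⟩ : ∃ c' : ℝ, c' = ε / (200 * m * (r + 1)) := ⟨_, rfl⟩
  have hc'0 : 0 < c' := by rw [hc']; positivity
  obtain ⟨B, hB⟩ : ∃ B : ℝ, B = 2 ^ (r + 1) * r / (κ * C) := ⟨_, rfl⟩
  have hB0 : 0 ≤ B := by rw [hB]; positivity
  have hBA : 4 * m * B * A = ε / 100 := by
    rw [hB, hC]
    field_simp
    norm_num
  have hcm : 2 * m * (r + 1) * c' = ε / 100 := by
    rw [hc']
    field_simp
    norm_num
  have hc12 : c' ≤ ε / 12 := by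
    rw [hc']
    refine div_le_div_of_nonneg_left hε.le (by norm_num) ?_
    nlinarith
  obtain ⟨D, hD⟩ : ∃ D : ℝ, D = 4 * m * (r + 1) + 4 * m * B + 1 := ⟨_, rfl⟩
  have hD0 : 0 < D := by rw [hD]; positivity
  obtain ⟨F, hF⟩ : ∃ F : ℝ, F = D ^ 2 + D ^ (m + 1) * (m : ℝ) ^ m := ⟨_, rfl⟩
  have hF0 : 0 ≤ F := by rw [hF]; positivity
  obtain ⟨n₁, hn₁⟩ := NumD_pow (F := F) (a := ε / 5) (by positivity) (m + 2) hF0
  obtain ⟨n₂, hn₂⟩ := exists_nat_ge (max (168 / ε) (200 * m * (r + 1) ^ 2 * Real.log 4 / ε))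
  refine ⟨C, c', hC0, hc'0, max 1 (max n₁ n₂), ?_⟩
  intro n hn S p E π L K hS hp0 hp1 hE hCS hL hK hπ
  have hn1 : 1 ≤ n := (le_max_left _ _).trans hn
  have hnn₁ : n₁ ≤ n := ((le_max_left _ _).trans (le_max_right _ _)).trans hn
  have hnn₂ : n₂ ≤ n := ((le_max_right _ _).trans (le_max_right _ _)).trans hn
  have hn1' : (1 : ℝ) ≤ n := by exact_mod_cast hn1
  have hn0 : (0 : ℝ) ≤ n := by linarith
  have hn2' : (n₂ : ℝ) ≤ n := by exact_mod_cast hnn₂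
  have hna : 168 ≤ ε * n := by
    have := (le_max_left _ _).trans (hn₂.trans hn2')
    rw [div_le_iff₀ hε] at this
    linarith
  have hnb : 200 * m * (r + 1) ^ 2 * Real.log 4 ≤ ε * n := by
    have := (le_max_right _ _).trans (hn₂.trans hn2')
    rw [div_le_iff₀ hε] at this
    linarith
  obtain ⟨P, hP⟩ : ∃ P : ℝ, P = p ^ (2 ^ (r + 1)) := ⟨_, rfl⟩
  have hP0 : 0 ≤ P := by rw [hP]; positivity
  have hP1 : P ≤ 1 := by rw [hP]; exact pow_le_one₀ hp0 hp1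
  have hP2 : p ^ (2 ^ (r + 2)) = P ^ 2 := by
    rw [hP, ← pow_mul, ← pow_succ]
  rw [hP2] at hCS
  rw [← hP] at hL hπ
  have hexp : Real.exp (-(c' * n / 2)) < P := by
    have h1 : Real.exp (-(c' * n / 2)) ^ 2 = Real.exp (-c' * n) := by
      rw [← Real.exp_nat_mul]
      congr 1
      push_cast
      ring
    have h2 : Real.exp (-(c' * n / 2)) ^ 2 < P ^ 2 := by
      rw [h1]
      have : 0 ≤ C * S := by positivity
      linarith
    exact lt_of_pow_lt_pow_left₀ 2 hP0 h2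
  have hPpos : 0 < P := (Real.exp_pos _).trans hexp
  have hCS' : C * S < P ^ 2 := by
    have := Real.exp_pos (-c' * n)
    linarith
  have hKb := NumD_K (n := n) (m := m) hκ hC0 hPpos hS hCS' hL hK
  rw [← hB] at hKb
  have hπb : P / 4 ^ (r + 1) ≤ π := by
    refine NumD_pi hε1 hna (le_trans (Real.exp_le_exp.2 ?_) hexp.le) hπ
    have : c' * n ≤ ε / 12 * n := mul_le_mul_of_nonneg_right hc12 hn0
    linarith
  -- the power
  have hb0 : 0 < P / 4 ^ (r + 1) := by positivity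
  have hpow : Real.exp (-(ε * n / 25)) ≤ π ^ K := by
    refine le_trans ?_ (pow_le_pow_left₀ hb0.le hπb K)
    have h1 : P / 4 ^ (r + 1) = Real.exp (Real.log P - (r + 1) * Real.log 4) := by
      rw [Real.exp_sub, Real.exp_log hPpos]
      congr 1
      have : ((r : ℝ) + 1) * Real.log 4 = ((r + 1 : ℕ) : ℝ) * Real.log 4 := by push_cast; rfl
      rw [this, Real.exp_nat_mul, Real.exp_log (by norm_num)]
    rw [h1, ← Real.exp_nat_mul]
    apply Real.exp_le_exp.2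
    obtain ⟨ℓ, hℓ⟩ : ∃ ℓ : ℝ, ℓ = -Real.log P := ⟨_, rfl⟩
    have hℓ0 : 0 ≤ ℓ := by
      rw [hℓ]
      exact neg_nonneg.2 (Real.log_nonpos hP0 hP1)
    have hℓ1 : ℓ ≤ c' * n / 2 := by
      have h2 := Real.log_le_log (Real.exp_pos _) hexp.le
      rw [Real.log_exp] at h2
      rw [hℓ]
      linarith
    have hℓ2 : P * ℓ ≤ 1 := by
      have h2 := Real.log_le_sub_one_of_pos (inv_pos.2 hPpos)
      rw [Real.log_inv, ← hℓ] at h2
      have h3 : P * ℓ ≤ P * (P⁻¹ - 1) := mul_le_mul_of_nonneg_left h2 hP0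
      have h4 : P * (P⁻¹ - 1) = 1 - P := by
        field_simp
      linarith
    have h5 : (K : ℝ) * (ℓ + (r + 1) * Real.log 4) ≤
        (4 * m * (r + 1) + 4 * m * B * n * P) * (ℓ + (r + 1) * Real.log 4) :=
      mul_le_mul_of_nonneg_right hKb (by positivity)
    have h6 : 4 * m * (r + 1) * ℓ ≤ 4 * m * (r + 1) * (c' * n / 2) :=
      mul_le_mul_of_nonneg_left hℓ1 (by positivity)
    have h7 : 4 * m * (r + 1) * (c' * n / 2) = ε * n / 100 := by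
      calc 4 * m * (r + 1) * (c' * n / 2) = 2 * m * (r + 1) * c' * n := by ring
        _ = ε * n / 100 := by rw [hcm]; ring
    have h8 : 4 * m * B * n * (P * ℓ + P * ((r + 1) * Real.log 4)) ≤ 4 * m * B * n * A := by
      refine mul_le_mul_of_nonneg_left ?_ (by positivity)
      rw [hA]
      have h9 : P * ((r + 1) * Real.log 4) ≤ 1 * ((r + 1) * Real.log 4) :=
        mul_le_mul_of_nonneg_right hP1 (by positivity)
      linarith
    have h10 : 4 * m * B * n * A = ε * n / 100 := by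
      calc 4 * m * B * n * A = 4 * m * B * A * n := by ring
        _ = ε * n / 100 := by rw [hBA]; ring
    have h11 : (K : ℝ) * (Real.log P - (r + 1) * Real.log 4) =
        -((K : ℝ) * (ℓ + (r + 1) * Real.log 4)) := by
      rw [hℓ]
      ring
    rw [h11]
    have h12 : (4 * m * (r + 1) + 4 * m * B * n * P) * (ℓ + (r + 1) * Real.log 4) =
        4 * m * (r + 1) * ℓ + 4 * m * (r + 1) ^ 2 * Real.log 4 +
          4 * m * B * n * (P * ℓ + P * ((r + 1) * Real.log 4)) := by ring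
    have h13 : 4 * m * (r + 1) ^ 2 * Real.log 4 ≤ ε * n / 50 := by linarith
    linarith
  have hleft := NumericG_left (E := E) (K := K) (K0 := K) hε hE hm le_rfl
  refine lt_of_le_of_lt hleft (lt_of_lt_of_le ?_ hpow)
  have hKD : (K : ℝ) + 1 ≤ D * n := by
    have h1 : 4 * m * B * n * P ≤ 4 * m * B * n * 1 :=
      mul_le_mul_of_nonneg_left hP1 (by positivity)
    have h2 : 4 * m * (r + 1) * 1 ≤ 4 * m * (r + 1) * (n : ℝ) :=
      mul_le_mul_of_nonneg_left hn1' (by positivity)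
    rw [hD]
    nlinarith
  have hK0 : (0 : ℝ) ≤ K + 1 := by positivity
  have h1 : ((K : ℝ) + 1) ^ 2 ≤ D ^ 2 * (n : ℝ) ^ (m + 2) := by
    calc ((K : ℝ) + 1) ^ 2 ≤ (D * n) ^ 2 := pow_le_pow_left₀ hK0 hKD 2
      _ = D ^ 2 * (n : ℝ) ^ 2 := by ring
      _ ≤ D ^ 2 * (n : ℝ) ^ (m + 2) := by
          refine mul_le_mul_of_nonneg_left ?_ (by positivity)
          exact pow_le_pow_right₀ hn1' (by omega)
  have h2 : ((K : ℝ) + 1) ^ (m + 1) ≤ D ^ (m + 1) * (n : ℝ) ^ (m + 2) := by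
    calc ((K : ℝ) + 1) ^ (m + 1) ≤ (D * n) ^ (m + 1) := pow_le_pow_left₀ hK0 hKD _
      _ = D ^ (m + 1) * (n : ℝ) ^ (m + 1) := by rw [mul_pow]
      _ ≤ D ^ (m + 1) * (n : ℝ) ^ (m + 2) := by
          refine mul_le_mul_of_nonneg_left ?_ (by positivity)
          exact pow_le_pow_right₀ hn1' (by omega)
  have h3 : ((K : ℝ) + 1) ^ 2 + ((K : ℝ) + 1) ^ (m + 1) * (m : ℝ) ^ m ≤
      F * (n : ℝ) ^ (m + 2) := by
    have h4 : ((K : ℝ) + 1) ^ (m + 1) * (m : ℝ) ^ m ≤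
        D ^ (m + 1) * (n : ℝ) ^ (m + 2) * (m : ℝ) ^ m :=
      mul_le_mul_of_nonneg_right h2 (by positivity)
    rw [hF]
    calc _ ≤ D ^ 2 * (n : ℝ) ^ (m + 2) + D ^ (m + 1) * (n : ℝ) ^ (m + 2) * (m : ℝ) ^ m :=
          add_le_add h1 h4
      _ = _ := by ring
  have h5 := hn₁ n hnn₁
  have h6 : Real.exp (-(ε * n / 25)) =
      Real.exp (ε / 5 * n) * Real.exp (-(24 / 100 * ε * n)) := by
    rw [← Real.exp_add]
    congr 1
    ring
  rw [h6]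
  exact mul_lt_mul_of_pos_right (lt_of_le_of_lt h3 h5) (Real.exp_pos _)

end Pool.Agent.KS
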