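import Pool.Agent.Lib.MP_f017c9_lc_U.NumA

/-!
# Choice of the parameters, part E: the clauses read
-/

namespace Pool.Agent.KS

open Finset

/-- PROOF. `dlU ε ≤ 1/40` (`NumericG_u`), so `2 ^ ⌊dlU ε * k⌋ ≤ 2 ^ (k / 40)` and the product is at
most `2 ^ (-(k / 40)) ≤ 1/100` for `k ≥ 280`. -/
theorem numU_read (ε : ℝ) (hε : 0 < ε) (hε1 : ε ≤ 1) :
    ∃ k₀ : ℕ, ∀ k ≥ k₀, (2 : ℝ) ^ ⌊dlU ε * k⌋₊ * (2 : ℝ) ^ (-((k : ℝ) / 20)) ≤ 1 / 100 := by
  have hl2 : (0.6931471803 : ℝ) < Real.log 2 := Real.log_two_gt_d9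
  have h16 : Real.log 16 = 4 * Real.log 2 := by
    rw [show (16 : ℝ) = 2 ^ 4 by norm_num, Real.log_pow]
    norm_num
  have hle : Real.log 16 ≤ Real.log (16 / ε) := by
    refine Real.log_le_log (by norm_num) ?_
    rw [le_div_iff₀ hε]
    nlinarith
  have hlog : (5 / 2 : ℝ) ≤ Real.log (16 / ε) := by
    rw [h16] at hle
    linarith
  have hdl : dlU ε ≤ 1 / 40 := by
    unfold dlU
    rw [div_le_iff₀ (by linarith)]
    linarith
  have hdl0 : 0 ≤ dlU ε := by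
    unfold dlU
    exact div_nonneg hε.le (by linarith)
  refine ⟨280, fun k hk => ?_⟩
  have hk' : (280 : ℝ) ≤ k := by exact_mod_cast hk
  have hfl : (⌊dlU ε * k⌋₊ : ℝ) ≤ k / 40 := by
    refine (Nat.floor_le (mul_nonneg hdl0 (by linarith))).trans ?_
    nlinarith
  rw [← Real.rpow_natCast, ← Real.rpow_add (by norm_num : (0 : ℝ) < 2)]
  calc (2 : ℝ) ^ ((⌊dlU ε * k⌋₊ : ℝ) + -((k : ℝ) / 20)) ≤ (2 : ℝ) ^ (-(7 : ℝ)) := by
        refine Real.rpow_le_rpow_of_exponent_le (by norm_num) ?_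
        linarith
    _ ≤ 1 / 100 := by
        rw [Real.rpow_neg (by norm_num), show (7 : ℝ) = ((7 : ℕ) : ℝ) by norm_num,
          Real.rpow_natCast]
        norm_num

end Pool.Agent.KS
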