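import Pool.Agent.Lib.MP_f017c9_lc_U.DefsA
import Pool.Agent.Lib.MP_f017c9_lc_U.Fam

/-!
# The number of strategies on a cube, for fixed seed and fixed variables
-/

namespace Pool.Agent.KS

open Finset

private theorem Strat_ball {r Q₂ : ℕ} (ρ B : ℝ)
    (hB : ∀ v : Fin Q₂ → Bool, (#{v' : Fin Q₂ → Bool | (hammingDist v v' : ℝ) ≤ ρ} : ℝ) ≤ B) :
    ∃ 𝒱 : Finset (Finset (Fin r) → Fin Q₂ → Bool), (𝒱.card : ℝ) ≤ 2 ^ Q₂ * B ^ (2 ^ r) ∧
      ∀ (v₀ : Fin Q₂ → Bool) (v : Finset (Fin r) → Fin Q₂ → Bool),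
        (∀ T, (hammingDist v₀ (v T) : ℝ) ≤ ρ) → v ∈ 𝒱 := by
  refine ⟨(univ : Finset (Fin Q₂ → Bool)).biUnion fun v₀ =>
    Fintype.piFinset fun _ : Finset (Fin r) =>
      {v' : Fin Q₂ → Bool | (hammingDist v₀ v' : ℝ) ≤ ρ}, ?_, fun v₀ v hv => ?_⟩
  · have h1 : ∀ v₀ : Fin Q₂ → Bool, (((Fintype.piFinset fun _ : Finset (Fin r) =>
        ({v' : Fin Q₂ → Bool | (hammingDist v₀ v' : ℝ) ≤ ρ} : Finset (Fin Q₂ → Bool))).card : ℕ) :
          ℝ) ≤ B ^ (2 ^ r) := by
      intro v₀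
      rw [Fintype.card_piFinset, prod_const, card_univ, Fintype.card_finset, Fintype.card_fin,
        Nat.cast_pow]
      exact pow_le_pow_left₀ (Nat.cast_nonneg _) (hB v₀) _
    refine le_trans (Nat.cast_le.2 card_biUnion_le) ?_
    rw [Nat.cast_sum]
    refine le_trans (sum_le_sum fun v₀ _ => h1 v₀) ?_
    rw [sum_const, card_univ, nsmul_eq_mul]
    simp
  · rw [mem_biUnion]
    refine ⟨v₀, mem_univ _, ?_⟩
    rw [Fintype.mem_piFinset]
    intro T
    rw [mem_filter]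
    exact ⟨mem_univ _, hv T⟩

/-- PROOF. Let `B`, `S₀` be the rule and the sets of `hA`. A strategy is given by the values
`h T = (z T, w T, y T)` of the features at the vertices `T : Finset (Fin r)`, where
`fun T => z T a` lies in `ℱ` (`familyU`) for every `a : Fin Q₁` (at most `ℱ.card ^ Q₁` choices),
`hammingDist (w ∅) (w T) ≤ ρ` for all `T` (at most `2 ^ Q₂ * B ^ (2 ^ r)` choices) and `y T` is
arbitrary (`(2 ^ Q₃) ^ (2 ^ r)` choices); enumerate the finite type of these data by `Fin N`. Its set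
and its outputs are `S h x = ⋃ T, S₀ u (h T) (extF (ptU u e x) (emb hrL T))` and
`σ h x T = B u (h T) (extF (ptU u e x) (emb hrL T))`. If `x'` agrees with `x` on `S h x`, the
formulas at every vertex agree on the clauses read there. For a stable `x` take the values of the
features at the vertices; `hz` and `familyU` show that the first ones are in the family
(`extF (ptU u e x) (emb hrL T) = fun j => (e j, if (x j).1 ∈ emb hrL T then (x j).2.2 else
(x j).2.1)` by `rfl`), `emb hrL ∅ = ∅`. -/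
theorem stratU {n k M r L Q₁ Q₂ Q₃ : ℕ} (hrL : r ≤ L) {R G : Type} [AddCommGroup G] [Fintype G]
    (D : ℕ) (A : R → Formula n k M → Asg n) (z : R → Formula n k M → Fin Q₁ → G)
    (w : R → Formula n k M → Fin Q₂ → Bool) (y : R → Formula n k M → Fin Q₃ → Bool)
    (hz : ∀ a, SumFeature G D fun r F => z r F a) (q : ℝ) (hA : ReadsFew q A z w y)
    (hq : 2 ^ r * q ≤ M / 100) (ρ B : ℝ)
    (hB : ∀ v : Fin Q₂ → Bool, (#{v' : Fin Q₂ → Bool | (hammingDist v v' : ℝ) ≤ ρ} : ℝ) ≤ B)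
    (u : R) (e : Fin M → (Fin k ↪ Fin n)) :
    ∃ N : ℕ, (N : ℝ) ≤ ((Fintype.card G : ℝ) ^ (∑ d ∈ range (D + 1), r.choose d)) ^ Q₁ *
        (2 ^ Q₂ * B ^ (2 ^ r)) * 2 ^ (Q₃ * 2 ^ r) ∧
      ∃ (S : Fin N → (Fin M → Fin L × (Pat k × Pat k)) → Finset (Fin M))
        (σ : Fin N → (Fin M → Fin L × (Pat k × Pat k)) → Finset (Fin r) → Asg n),
        (∀ h x, ((S h x).card : ℝ) ≤ M / 100) ∧
        (∀ h x x', (∀ j ∈ S h x, x' j = x j) → S h x' = S h x ∧ σ h x' = σ h x) ∧
        ∀ x : Fin M → Fin L × (Pat k × Pat k),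
          (∀ T : Finset (Fin r), (hammingDist (w u (extF (ptU u e x) ∅))
            (w u (extF (ptU u e x) (emb hrL T))) : ℝ) ≤ ρ) →
          ∃ h, σ h x = fun T => A u (extF (ptU u e x) (emb hrL T)) := by
  classical
  obtain ⟨ℱ, hF1, hF2⟩ := familyU (G := G) r D
  obtain ⟨𝒱, hV1, hV2⟩ := Strat_ball (r := r) ρ B hB
  obtain ⟨B₀, S₀, hA1, hA2⟩ := hA
  let 𝒟 : Finset ((Fin Q₁ → Finset (Fin r) → G) × (Finset (Fin r) → Fin Q₂ → Bool) ×
      (Finset (Fin r) → Fin Q₃ → Bool)) :=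
    (Fintype.piFinset fun _ : Fin Q₁ => ℱ) ×ˢ 𝒱 ×ˢ
      (univ : Finset (Finset (Fin r) → Fin Q₃ → Bool))
  let dt : Fin 𝒟.card → (Fin Q₁ → Finset (Fin r) → G) × (Finset (Fin r) → Fin Q₂ → Bool) ×
      (Finset (Fin r) → Fin Q₃ → Bool) := fun h => (𝒟.equivFin.symm h).1
  let hv : Fin 𝒟.card → Finset (Fin r) → (Fin Q₁ → G) × (Fin Q₂ → Bool) × (Fin Q₃ → Bool) :=
    fun h T => (fun a => (dt h).1 a T, (dt h).2.1 T, (dt h).2.2 T)
  have hkey : ∀ (h : Fin 𝒟.card) (x x' : Fin M → Fin L × (Pat k × Pat k)) (T : Finset (Fin r)),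
      (∀ j ∈ S₀ u (hv h T) (extF (ptU u e x) (emb hrL T)), x' j = x j) →
      S₀ u (hv h T) (extF (ptU u e x') (emb hrL T)) =
        S₀ u (hv h T) (extF (ptU u e x) (emb hrL T)) ∧
      B₀ u (hv h T) (extF (ptU u e x') (emb hrL T)) =
        B₀ u (hv h T) (extF (ptU u e x) (emb hrL T)) := by
    intro h x x' T hx
    refine (hA2 u (hv h T) (extF (ptU u e x) (emb hrL T))).2
      (extF (ptU u e x') (emb hrL T)) (fun j => rfl) (fun j hj => ?_)
    have h1 := hx j hj
    change ((e j, if (x' j).1 ∈ emb hrL T then (x' j).2.2 else (x' j).2.1) : Clause n k) =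
      (e j, if (x j).1 ∈ emb hrL T then (x j).2.2 else (x j).2.1)
    rw [h1]
  refine ⟨𝒟.card, ?_,
    fun h x => univ.biUnion fun T => S₀ u (hv h T) (extF (ptU u e x) (emb hrL T)),
    fun h x T => B₀ u (hv h T) (extF (ptU u e x) (emb hrL T)), ?_, ?_, ?_⟩
  · simp only [𝒟]
    rw [card_product, card_product, Fintype.card_piFinset, prod_const, card_univ, card_univ,
      Fintype.card_fin]
    have h1 : (Fintype.card (Finset (Fin r) → Fin Q₃ → Bool) : ℝ) = 2 ^ (Q₃ * 2 ^ r) := by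
      rw [pow_mul]
      simp
    push_cast
    rw [h1, ← mul_assoc]
    refine mul_le_mul_of_nonneg_right ?_ (by positivity)
    exact mul_le_mul (pow_le_pow_left₀ (Nat.cast_nonneg _) hF1 _) hV1 (Nat.cast_nonneg _)
      (by positivity)
  · intro h x
    refine le_trans (le_trans (Nat.cast_le.2 card_biUnion_le) ?_) hq
    rw [Nat.cast_sum]
    refine le_trans (sum_le_sum fun T _ =>
      (hA2 u (hv h T) (extF (ptU u e x) (emb hrL T))).1) ?_
    rw [sum_const, card_univ, nsmul_eq_mul, Fintype.card_finset, Fintype.card_fin]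
    push_cast
    exact le_rfl
  · intro h x x' hx
    have hx' : ∀ T : Finset (Fin r), ∀ j ∈ S₀ u (hv h T) (extF (ptU u e x) (emb hrL T)),
        x' j = x j := fun T j hj => hx j (mem_biUnion.2 ⟨T, mem_univ _, hj⟩)
    constructor
    · exact biUnion_congr rfl fun T _ => (hkey h x x' T (hx' T)).1
    · funext T
      exact (hkey h x x' T (hx' T)).2
  · intro x hd
    let p : (Fin Q₁ → Finset (Fin r) → G) × (Finset (Fin r) → Fin Q₂ → Bool) ×
        (Finset (Fin r) → Fin Q₃ → Bool) :=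
      (fun a T => z u (extF (ptU u e x) (emb hrL T)) a,
        fun T => w u (extF (ptU u e x) (emb hrL T)), fun T => y u (extF (ptU u e x) (emb hrL T)))
    have hp : p ∈ 𝒟 := by
      simp only [𝒟, p]
      rw [mem_product, mem_product]
      refine ⟨?_, hV2 _ _ hd, mem_univ _⟩
      rw [Fintype.mem_piFinset]
      intro a
      obtain ⟨h, h1, h2⟩ := hz a u e
      have h3 := hF2 M L hrL (Pat k) h h1 (fun j => (x j).1) (fun j => (x j).2.1)
        (fun j => (x j).2.2)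
      have h4 : (fun T : Finset (Fin r) => z u (extF (ptU u e x) (emb hrL T)) a) =
          fun T : Finset (Fin r) => ∑ J with J.card ≤ D,
            h J (fun j => if (x j).1 ∈ emb hrL T then (x j).2.2 else (x j).2.1) := by
        funext T
        exact h2 _
      change (fun T : Finset (Fin r) => z u (extF (ptU u e x) (emb hrL T)) a) ∈ ℱ
      rw [h4]
      exact h3
    refine ⟨𝒟.equivFin ⟨p, hp⟩, ?_⟩
    funext T
    have h5 : dt (𝒟.equivFin ⟨p, hp⟩) = p := by
      simp only [dt, Equiv.symm_apply_apply]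
    have h6 : hv (𝒟.equivFin ⟨p, hp⟩) T = (z u (extF (ptU u e x) (emb hrL T)),
        w u (extF (ptU u e x) (emb hrL T)), y u (extF (ptU u e x) (emb hrL T))) := by
      simp only [hv, h5, p]
    change B₀ u (hv (𝒟.equivFin ⟨p, hp⟩) T) (extF (ptU u e x) (emb hrL T)) = _
    rw [h6]
    exact (hA1 u _).symm

end Pool.Agent.KS
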