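import Pool.Agent.Lib.MP_f017c9_lc_U.Defs
import Pool.Agent.Lib.MP_f017c9_lc.Tuple

/-!
# Almost all choices of the variables are typical
-/

namespace Pool.Agent.KS

open Finset

/-- The exponential moment of the number of agreements of one clause. -/
private theorem Typ_inner {n k : ℕ} (hk : k ≤ n) (δ : ℝ) (hδ0 : 0 ≤ δ) (hδ : δ ≤ 1 / 2)
    (σ σ' : Asg n) (h : δ * n < (hammingDist σ σ' : ℝ)) :
    ∑ e : Fin k ↪ Fin n,
      Real.exp (if (fun i => !σ (e i)) = (fun i => !σ' (e i)) then (1 : ℝ) else 0) ≤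
      Fintype.card (Fin k ↪ Fin n) * Real.exp (2 * (1 - δ) ^ k) := by
  have h1 : ∀ e : Fin k ↪ Fin n,
      Real.exp (if (fun i => !σ (e i)) = (fun i => !σ' (e i)) then (1 : ℝ) else 0) =
      1 + (Real.exp 1 - 1) *
        (if (fun i => !σ (e i)) = (fun i => !σ' (e i)) then (1 : ℝ) else 0) := by
    intro e
    split_ifs
    · ring
    · rw [Real.exp_zero]
      ring
  have h2 := Tuple_agree hk δ hδ0 hδ σ σ' h
  rw [card_filter] at h2
  push_cast at h2
  rw [sum_congr rfl fun e _ => h1 e, sum_add_distrib, ← mul_sum, sum_const, card_univ,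
    nsmul_eq_mul, mul_one]
  have h3 : 0 ≤ Real.exp 1 - 1 := by
    have := Real.add_one_le_exp (1 : ℝ)
    linarith
  have h4 : Real.exp 1 - 1 ≤ 2 := by
    have := Real.exp_one_lt_d9
    linarith
  have hθ : (0 : ℝ) ≤ (1 - δ) ^ k := by
    have : (0 : ℝ) ≤ 1 - δ := by linarith
    positivity
  have hN : (0 : ℝ) ≤ Fintype.card (Fin k ↪ Fin n) := Nat.cast_nonneg _
  have h5 := mul_le_mul_of_nonneg_left h2 h3
  have h6 := mul_le_mul_of_nonneg_right h4 (mul_nonneg hθ hN)
  have h7 := Real.add_one_le_exp (2 * (1 - δ) ^ k)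
  have h8 := mul_le_mul_of_nonneg_left h7 hN
  linarith

open Classical in
/-- The count for one pair of assignments. -/
private theorem Typ_pair {n k M : ℕ} (hk : k ≤ n) (δ : ℝ) (hδ0 : 0 ≤ δ) (hδ : δ ≤ 1 / 2)
    (σ σ' : Asg n) (h : δ * n < (hammingDist σ σ' : ℝ)) :
    ((univ.filter fun e : Fin M → (Fin k ↪ Fin n) => 4 * (1 - δ) ^ k * M <
      (#{j : Fin M | (fun i => !σ (e j i)) = fun i => !σ' (e j i)} : ℝ)).card : ℝ) ≤
      Real.exp (-2 * ((1 - δ) ^ k * M)) * Fintype.card (Fin M → (Fin k ↪ Fin n)) := by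
  obtain ⟨S, hS⟩ : ∃ S : Finset (Fin M → (Fin k ↪ Fin n)), S = univ.filter fun e =>
      4 * (1 - δ) ^ k * M <
        (#{j : Fin M | (fun i => !σ (e j i)) = fun i => !σ' (e j i)} : ℝ) := ⟨_, rfl⟩
  rw [← hS]
  have h1 : (S.card : ℝ) * Real.exp (4 * (1 - δ) ^ k * M) ≤
      ∑ e : Fin M → (Fin k ↪ Fin n),
        ∏ j : Fin M, Real.exp
          (if (fun i => !σ (e j i)) = (fun i => !σ' (e j i)) then (1 : ℝ) else 0) := by
    have h2 : (S.card : ℝ) * Real.exp (4 * (1 - δ) ^ k * M) =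
        ∑ _e ∈ S, Real.exp (4 * (1 - δ) ^ k * M) := by
      rw [sum_const, nsmul_eq_mul]
    rw [h2]
    refine (sum_le_sum fun e he => ?_).trans
      (sum_le_sum_of_subset_of_nonneg (subset_univ S) fun e _ _ => ?_)
    · rw [hS, mem_filter] at he
      rw [← Real.exp_sum]
      apply Real.exp_le_exp.2
      have h3 := he.2
      rw [card_filter] at h3
      push_cast at h3
      exact h3.le
    · exact prod_nonneg fun j _ => (Real.exp_pos _).le
  have h2 : ∑ e : Fin M → (Fin k ↪ Fin n),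
        ∏ j : Fin M, Real.exp
          (if (fun i => !σ (e j i)) = (fun i => !σ' (e j i)) then (1 : ℝ) else 0) =
      (∑ e : Fin k ↪ Fin n,
        Real.exp (if (fun i => !σ (e i)) = (fun i => !σ' (e i)) then (1 : ℝ) else 0)) ^ M := by
    rw [Fintype.sum_pow]
  have h3 := Typ_inner hk δ hδ0 hδ σ σ' h
  have h4 : (0 : ℝ) ≤ ∑ e : Fin k ↪ Fin n,
        Real.exp (if (fun i => !σ (e i)) = (fun i => !σ' (e i)) then (1 : ℝ) else 0) :=
    sum_nonneg fun e _ => (Real.exp_pos _).le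
  have h5 := pow_le_pow_left₀ h4 h3 M
  have hcard : (Fintype.card (Fin M → (Fin k ↪ Fin n)) : ℝ) =
      (Fintype.card (Fin k ↪ Fin n) : ℝ) ^ M := by
    rw [Fintype.card_fun, Fintype.card_fin]
    exact Nat.cast_pow _ _
  have h6 : Real.exp (2 * (1 - δ) ^ k) ^ M = Real.exp (2 * ((1 - δ) ^ k * M)) := by
    rw [← Real.exp_nat_mul]
    congr 1
    ring
  rw [mul_pow, h6, ← hcard] at h5
  rw [h2] at h1
  have h7 := h1.trans h5
  have h8 : Real.exp (4 * (1 - δ) ^ k * M) * Real.exp (-2 * ((1 - δ) ^ k * M)) =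
      Real.exp (2 * ((1 - δ) ^ k * M)) := by
    rw [← Real.exp_add]
    congr 1
    ring
  have h9 : (S.card : ℝ) * Real.exp (4 * (1 - δ) ^ k * M) ≤
      (Real.exp (-2 * ((1 - δ) ^ k * M)) * Fintype.card (Fin M → (Fin k ↪ Fin n))) *
        Real.exp (4 * (1 - δ) ^ k * M) := by
    calc _ ≤ _ := h7
      _ = _ := by
        rw [← h8]
        ring
  exact le_of_mul_le_mul_right h9 (Real.exp_pos _)

/-- PROOF. Put `θ = (1 - δ) ^ k`. Union bound over the `4 ^ n` pairs `(σ, σ')` with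
`δ n < hammingDist σ σ'`. For one pair let `X e` be the number of `j` with
`(fun i => !σ (e j i)) = fun i => !σ' (e j i)`. Then `∑ e, exp (X e) = (∑ e₁, exp 1[e₁ agrees]) ^ M`
(`Fintype.sum_pow`, see the end of the proof of `moment` in Moment.lean), and the inner sum is at
most `card (Fin k ↪ Fin n) * (1 + (exp 1 - 1) θ) ≤ card * exp (2 θ)` by `Tuple_agree` and
`Real.exp_one_lt_d9`. So `#{e | 4 θ M < X e} * exp (4 θ M) ≤ card ^ M * exp (2 θ M)`. -/
theorem typ_count {n k M : ℕ} (hk : k ≤ n) (δ : ℝ) (hδ0 : 0 ≤ δ) (hδ : δ ≤ 1 / 2) :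
    (Nat.card {e : Fin M → (Fin k ↪ Fin n) // ¬ Typ δ e} : ℝ) ≤
      4 ^ n * Real.exp (-2 * ((1 - δ) ^ k * M)) *
        Fintype.card (Fin M → (Fin k ↪ Fin n)) := by
  classical
  rw [Nat.card_eq_fintype_card, Fintype.card_subtype]
  obtain ⟨B, hB⟩ : ∃ B : Asg n × Asg n → Finset (Fin M → (Fin k ↪ Fin n)), B = fun x =>
      univ.filter fun e => δ * n < (hammingDist x.1 x.2 : ℝ) ∧ 4 * (1 - δ) ^ k * M <
        (#{j : Fin M | (fun i => !x.1 (e j i)) = fun i => !x.2 (e j i)} : ℝ) := ⟨_, rfl⟩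
  have hsub : (univ.filter fun e : Fin M → (Fin k ↪ Fin n) => ¬ Typ δ e) ⊆
      (univ : Finset (Asg n × Asg n)).biUnion B := by
    intro e he
    rw [mem_filter] at he
    have h1 := he.2
    unfold Typ at h1
    push Not at h1
    obtain ⟨σ, σ', h2, h3⟩ := h1
    rw [mem_biUnion]
    refine ⟨(σ, σ'), mem_univ _, ?_⟩
    rw [hB, mem_filter]
    exact ⟨mem_univ _, h2, h3⟩
  have hb : ∀ x : Asg n × Asg n, ((B x).card : ℝ) ≤
      Real.exp (-2 * ((1 - δ) ^ k * M)) * Fintype.card (Fin M → (Fin k ↪ Fin n)) := by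
    intro x
    by_cases hx : δ * n < (hammingDist x.1 x.2 : ℝ)
    · have h1 : B x = univ.filter fun e : Fin M → (Fin k ↪ Fin n) => 4 * (1 - δ) ^ k * M <
          (#{j : Fin M | (fun i => !x.1 (e j i)) = fun i => !x.2 (e j i)} : ℝ) := by
        rw [hB]
        apply filter_congr
        intro e _
        exact ⟨fun h => h.2, fun h => ⟨hx, h⟩⟩
      rw [h1]
      exact Typ_pair hk δ hδ0 hδ x.1 x.2 hx
    · have h1 : B x = ∅ := by
        rw [hB]
        apply filter_eq_empty_iff.2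
        intro e _ h
        exact hx h.1
      rw [h1, card_empty, Nat.cast_zero]
      positivity
  have h1 : ((univ.filter fun e : Fin M → (Fin k ↪ Fin n) => ¬ Typ δ e).card : ℝ) ≤
      ∑ x : Asg n × Asg n, ((B x).card : ℝ) := by
    exact_mod_cast (card_le_card hsub).trans card_biUnion_le
  refine h1.trans ((sum_le_sum fun x _ => hb x).trans (le_of_eq ?_))
  have h2 : (Fintype.card (Asg n × Asg n) : ℝ) = 4 ^ n := by
    have h3 : Fintype.card (Asg n × Asg n) = 4 ^ n := by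
      rw [Fintype.card_prod]
      have h4 : Fintype.card (Asg n) = 2 ^ n := by
        simp [Asg]
      rw [h4, ← mul_pow]
      norm_num
    rw [h3]
    push_cast
    rfl
  rw [sum_const, card_univ, nsmul_eq_mul, h2]
  ring

end Pool.Agent.KS
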