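import Pool.Agent.Lib.MP_f017c9_lc_U.Defs
import Pool.Agent.Lib.MP_f017c9_lc.Pair

/-!
# The change of a feature vector along a cube
-/

namespace Pool.Agent.KS

open Finset

/-- the set of the clauses with labels in `T` -/
private def sensSet {M L : ℕ} (T : Finset (Fin (L + 1))) (l : Fin M → Fin (L + 1)) :
    Finset (Fin M) := {j | l j ∈ T}

private lemma sens_move {n k M L : ℕ} (T : Finset (Fin (L + 1))) (F : Formula n k M)
    (l : Fin M → Fin (L + 1)) (y : Fin M → Pat k) :
    moveJ T F (fun j => (l j, y j)) = pairSet F (sensSet T l) y := by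
  funext j
  by_cases h : l j ∈ T <;> simp [moveJ, moveJ1, pairSet, sensSet, h]

private lemma sens_dist_set {n k M Q : ℕ} {R : Type} [Fintype R]
    (w : R → Formula n k M → Fin Q → Bool) (J : Finset (Fin M)) :
    ∑ x : R × Formula n k M, ∑ y : Fin M → Pat k,
        (hammingDist (w x.1 x.2) (w x.1 (pairSet x.2 J y)) : ℝ) ≤
      ∑ j ∈ J, ∑ x : R × Formula n k M, ∑ y : Fin M → Pat k,
        (hammingDist (w x.1 x.2) (w x.1 (resign x.2 j (y j))) : ℝ) := by
  induction J using Finset.induction_on with
  | empty => simp [pair_set_empty]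
  | insert j J hj ih =>
    rw [Finset.sum_insert hj]
    have h := pair_invol_sum2 (pair_set_invol' (n := n) (k := k) (R := R) J)
      (fun z => (hammingDist (w z.1.1 z.1.2) (w z.1.1 (resign z.1.2 j (z.2 j))) : ℝ))
    simp only [pairOld, if_neg hj] at h
    rw [← h, ← sub_le_iff_le_add']
    refine le_trans ?_ ih
    rw [sub_le_iff_le_add', ← Finset.sum_add_distrib]
    refine Finset.sum_le_sum fun x _ => ?_
    rw [← Finset.sum_add_distrib]
    refine Finset.sum_le_sum fun y _ => ?_
    rw [pair_set_insert]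
    have := hammingDist_triangle (w x.1 x.2) (w x.1 (pairSet x.2 J y))
      (w x.1 (resign (pairSet x.2 J y) j (y j)))
    have h2 : (hammingDist (w x.1 x.2) (w x.1 (resign (pairSet x.2 J y) j (y j))) : ℝ) ≤
      hammingDist (w x.1 x.2) (w x.1 (pairSet x.2 J y)) +
        hammingDist (w x.1 (pairSet x.2 J y)) (w x.1 (resign (pairSet x.2 J y) j (y j))) := by
      exact_mod_cast this
    linarith

/-- PROOF. As for `pair_dist` (Pair.lean), for a feature vector in `Fin Q → Bool` instead of
`Asg n` and the label set `T` instead of the label `0`. For fixed labels `i`, the formula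
`extF z T` arises from `extF z ∅` by giving the clauses `j` with `i j ∈ T`, one after the other, the
new signs `(z.2 j).2.2.2`; every intermediate formula is uniform and independent of the new signs of
the next clause, so the expected change is at most `∑ j with i j ∈ T, (sensitivity of w at j)`; for
each `j` the label `i j` lies in `T` with probability `T.card / L`. -/
theorem sensU {n k M L Q : ℕ} (hk : k ≤ n) (hL : 1 ≤ L) {R : Type} [Fintype R] [Nonempty R]
    (w : R → Formula n k M → Fin Q → Bool) (T : Finset (Fin L)) :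
    (∑ z : ExtZ R n k M L,
      (hammingDist (w z.1 (extF z ∅)) (w z.1 (extF z T)) : ℝ)) ≤
      Fintype.card (ExtZ R n k M L) * ((T.card : ℝ) / L * bitSensitivity w) := by
  obtain ⟨L, rfl⟩ : ∃ L', L = L' + 1 := ⟨L - 1, by omega⟩
  have hX := pair_card_pos (M := M) hk (R := R)
  -- the sums for one clause
  set c : Fin M → ℝ := fun j => ∑ x : R × Formula n k M, ∑ y : Fin M → Pat k,
        (hammingDist (w x.1 x.2) (w x.1 (resign x.2 j (y j))) : ℝ) with hc
  have h0 : (∑ z : ExtZ R n k M (L + 1),
      (hammingDist (w z.1 (extF z ∅)) (w z.1 (extF z T)) : ℝ)) =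
      ∑ z : (R × Formula n k M) × (Fin M → Fin (L + 1) × Pat k),
        (hammingDist (w z.1.1 z.1.2) (w z.1.1 (moveJ T z.1.2 z.2)) : ℝ) := by
    rw [← Equiv.sum_comp (extEq2 R n k M (∅ : Finset (Fin (L + 1))))]
    refine Finset.sum_congr rfl fun z _ => ?_
    have h := ext_move z (∅ : Finset (Fin (L + 1))) T
    have hs : symmDiff (∅ : Finset (Fin (L + 1))) T = T := by
      ext a
      simp [Finset.mem_symmDiff]
    rw [hs] at h
    have h2 : moveJ T (extEq2 R n k M (∅ : Finset (Fin (L + 1))) z).1.2
        (extEq2 R n k M (∅ : Finset (Fin (L + 1))) z).2 = extF z T := congrArg Prod.snd h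
    rw [h2]
    rfl
  have h1 : (∑ z : (R × Formula n k M) × (Fin M → Fin (L + 1) × Pat k),
      (hammingDist (w z.1.1 z.1.2) (w z.1.1 (moveJ T z.1.2 z.2)) : ℝ)) ≤
      ∑ l : Fin M → Fin (L + 1), ∑ j ∈ sensSet T l, c j := by
    rw [Fintype.sum_prod_type]
    have e : ∀ x : R × Formula n k M, ∑ a : Fin M → Fin (L + 1) × Pat k,
        (hammingDist (w x.1 x.2) (w x.1 (moveJ T x.2 a)) : ℝ) =
        ∑ l : Fin M → Fin (L + 1), ∑ y : Fin M → Pat k,
          (hammingDist (w x.1 x.2) (w x.1 (pairSet x.2 (sensSet T l) y)) : ℝ) := by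
      intro x
      rw [pair_sum_labels]
      refine Finset.sum_congr rfl fun l _ => Finset.sum_congr rfl fun y _ => ?_
      rw [sens_move]
    rw [Finset.sum_congr rfl (fun x _ => e x), Finset.sum_comm]
    exact Finset.sum_le_sum fun l _ => sens_dist_set w (sensSet T l)
  have h2 : ∑ l : Fin M → Fin (L + 1), ∑ j ∈ sensSet T l, c j =
      ∑ j, (∑ l : Fin M → Fin (L + 1), if l j ∈ T then (1 : ℝ) else 0) * c j := by
    simp only [sensSet, Finset.sum_filter, Finset.sum_mul]
    rw [Finset.sum_comm]
    refine Finset.sum_congr rfl fun j _ => Finset.sum_congr rfl fun l _ => ?_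
    split_ifs <;> simp
  have h3 : ∀ j : Fin M, ((L : ℝ) + 1) *
      (∑ l : Fin M → Fin (L + 1), if l j ∈ T then (1 : ℝ) else 0) =
        Fintype.card (Fin M → Fin (L + 1)) * T.card := by
    intro j
    have := pair_coord (M := M) j (fun b : Fin (L + 1) => if b ∈ T then (1 : ℝ) else 0)
    simpa using this
  have h4 : ∀ j : Fin M, (2 : ℝ) ^ k * c j = Fintype.card (Fin M → Pat k) *
      ∑ r : R, ∑ F : Formula n k M, ∑ p : Pat k,
        (hammingDist (w r F) (w r (resign F j p)) : ℝ) := by
    intro j
    rw [hc]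
    simp only
    rw [Finset.mul_sum, ← Fintype.sum_prod_type' (f := fun (r : R) (F : Formula n k M) =>
      ∑ p : Pat k, (hammingDist (w r F) (w r (resign F j p)) : ℝ)), Finset.mul_sum]
    refine Finset.sum_congr rfl fun x _ => ?_
    have := pair_coord (M := M) j (fun p : Pat k =>
      (hammingDist (w x.1 x.2) (w x.1 (resign x.2 j p)) : ℝ))
    simpa using this
  rw [h0]
  refine le_trans h1 ?_
  rw [h2, ext_card, pair_card, bitSensitivity]
  have h5 : ∀ j : Fin M, (∑ l : Fin M → Fin (L + 1), if l j ∈ T then (1 : ℝ) else 0) * c j =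
      (Fintype.card (Fin M → Fin (L + 1)) * T.card * Fintype.card (Fin M → Pat k) /
        ((L + 1) * 2 ^ k)) *
      ∑ r : R, ∑ F : Formula n k M, ∑ p : Pat k,
        (hammingDist (w r F) (w r (resign F j p)) : ℝ) := by
    intro j
    have hL' : (0 : ℝ) < (L : ℝ) + 1 := by positivity
    have h2k : (0 : ℝ) < (2 : ℝ) ^ k := by positivity
    rw [div_mul_eq_mul_div, eq_div_iff (by positivity), ← h3 j, mul_assoc _ _ (∑ r : R, _), ← h4 j]
    ring
  rw [Finset.sum_congr rfl (fun j _ => h5 j), ← Finset.mul_sum]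
  apply le_of_eq
  have hL' : (0 : ℝ) < (L : ℝ) + 1 := by positivity
  push_cast
  field_simp

end Pool.Agent.KS
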