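import Pool.Agent.Lib.MP_f017c9_lc_U.Defs
import Pool.Agent.Lib.MP_f017c9_lc_U.Sens

/-!
# The unstable points have small measure
-/

namespace Pool.Agent.KS

open Finset

theorem emb_empty {r L : ℕ} (h : r ≤ L) : emb h (∅ : Finset (Fin r)) = ∅ := by
  unfold emb
  exact Finset.map_empty _

theorem emb_card {r L : ℕ} (h : r ≤ L) (T : Finset (Fin r)) : (emb h T).card ≤ r := by
  unfold emb
  rw [Finset.card_map]
  have := card_le_univ T
  rwa [Fintype.card_fin] at this

/-- the set of the unstable points has small measure -/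
theorem unstable_le {n k M r L Q : ℕ} (hk : k ≤ n) (hrL : r ≤ L) (hL : 1 ≤ L) {R : Type}
    [Fintype R] [Nonempty R] (w : R → Formula n k M → Fin Q → Bool) (ρ : ℝ) (hρ : 0 < ρ) :
    (Nat.card {z : ExtZ R n k M L // ¬ ∀ T : Finset (Fin r),
      (hammingDist (w z.1 (extF z ∅)) (w z.1 (extF z (emb hrL T))) : ℝ) ≤ ρ} : ℝ) ≤
      (2 ^ r * ((r : ℝ) / L * bitSensitivity w) / ρ) * Fintype.card (ExtZ R n k M L) := by
  classical
  have hw0 : 0 ≤ bitSensitivity w := by
    unfold bitSensitivity
    positivity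
  have hL0 : (0 : ℝ) < L := by exact_mod_cast hL
  rw [Nat.card_eq_fintype_card, Fintype.card_subtype]
  have hsub : (univ.filter fun z : ExtZ R n k M L => ¬ ∀ T : Finset (Fin r),
      (hammingDist (w z.1 (extF z ∅)) (w z.1 (extF z (emb hrL T))) : ℝ) ≤ ρ) ⊆
      (univ : Finset (Finset (Fin r))).biUnion fun T => univ.filter fun z : ExtZ R n k M L =>
        ρ < (hammingDist (w z.1 (extF z ∅)) (w z.1 (extF z (emb hrL T))) : ℝ) := by
    intro z hz
    simp only [mem_filter, mem_univ, true_and, not_forall, not_le] at hz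
    obtain ⟨T, hT⟩ := hz
    simp only [mem_biUnion, mem_univ, true_and, mem_filter]
    exact ⟨T, hT⟩
  have h1 := (card_le_card hsub).trans card_biUnion_le
  have h2 : ∀ T : Finset (Fin r), ((univ.filter fun z : ExtZ R n k M L =>
        ρ < (hammingDist (w z.1 (extF z ∅)) (w z.1 (extF z (emb hrL T))) : ℝ)).card : ℝ) ≤
      ((r : ℝ) / L * bitSensitivity w) / ρ * Fintype.card (ExtZ R n k M L) := by
    intro T
    have h3 := sensU hk hL w (emb hrL T)
    have h4 : ((univ.filter fun z : ExtZ R n k M L =>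
        ρ < (hammingDist (w z.1 (extF z ∅)) (w z.1 (extF z (emb hrL T))) : ℝ)).card : ℝ) * ρ ≤
        ∑ z : ExtZ R n k M L,
          (hammingDist (w z.1 (extF z ∅)) (w z.1 (extF z (emb hrL T))) : ℝ) := by
      rw [← nsmul_eq_mul, ← Finset.sum_const]
      refine (Finset.sum_le_sum fun z hz => ?_).trans
        (Finset.sum_le_sum_of_subset_of_nonneg (Finset.subset_univ _) fun z _ _ =>
          Nat.cast_nonneg _)
      exact (mem_filter.1 hz).2.le
    have h5 : ((emb hrL T).card : ℝ) / L * bitSensitivity w ≤ (r : ℝ) / L * bitSensitivity w := by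
      have : ((emb hrL T).card : ℝ) ≤ r := by exact_mod_cast emb_card hrL T
      gcongr
    have h6 : (0 : ℝ) ≤ Fintype.card (ExtZ R n k M L) := Nat.cast_nonneg _
    rw [div_mul_eq_mul_div, le_div_iff₀ hρ]
    refine h4.trans (h3.trans ?_)
    rw [mul_comm]
    exact mul_le_mul_of_nonneg_right h5 h6
  have h7 : ((univ.filter fun z : ExtZ R n k M L => ¬ ∀ T : Finset (Fin r),
      (hammingDist (w z.1 (extF z ∅)) (w z.1 (extF z (emb hrL T))) : ℝ) ≤ ρ).card : ℝ) ≤
      ∑ T : Finset (Fin r), ((univ.filter fun z : ExtZ R n k M L =>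
        ρ < (hammingDist (w z.1 (extF z ∅)) (w z.1 (extF z (emb hrL T))) : ℝ)).card : ℝ) := by
    exact_mod_cast h1
  refine h7.trans ((Finset.sum_le_sum fun T _ => h2 T).trans (le_of_eq ?_))
  rw [Finset.sum_const, card_univ, Fintype.card_finset, Fintype.card_fin, nsmul_eq_mul]
  push_cast
  ring

end Pool.Agent.KS
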