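import Pool.Agent.Lib.MP_f017c9_lc.MainG
import Pool.Agent.Lib.MP_f017c9_lc_U.Typ
import Pool.Agent.Lib.MP_f017c9_lc_U.ExtA
import Pool.Agent.Lib.MP_f017c9_lc_U.Unst
import Pool.Agent.Lib.MP_f017c9_lc_U.Strat
import Pool.Agent.Lib.MP_f017c9_lc_U.NumA
import Pool.Agent.Lib.MP_f017c9_lc_U.NumD
import Pool.Agent.Lib.MP_f017c9_lc_U.NumE

/-!
# Decoders of algebraic features, stable features, a short sketch, few clauses (assembly)
-/

namespace Pool.Agent.KS

open Finset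

theorem mainA (ε : ℝ) (hε : 0 < ε) (hε1 : ε ≤ 1) :
    ∃ c : ℝ, 0 < c ∧ ∀ g : ℕ, ∃ k₀ : ℕ, ∀ k ≥ k₀, ∃ (N : ℕ) (C c' : ℝ), 0 < C ∧ 0 < c' ∧
      ∃ n₀ : ℕ, ∀ n ≥ n₀, ∀ M : ℕ, ε * 2 ^ k * n ≤ M →
      ∀ (R G : Type) [Fintype R] [Nonempty R] [AddCommGroup G] [Fintype G],
        Fintype.card G ≤ g → ∀ D Q₁ Q₂ Q₃ : ℕ, (D : ℝ) ≤ c * k →
        (Q₁ : ℝ) ≤ 2 ^ (c * k) * n → (Q₂ : ℝ) ≤ 2 ^ (c * k) * n → (Q₃ : ℝ) ≤ ε * n / 2 →
        ∀ (A : R → Formula n k M → Asg n) (z : R → Formula n k M → Fin Q₁ → G)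
          (w : R → Formula n k M → Fin Q₂ → Bool) (y : R → Formula n k M → Fin Q₃ → Bool),
          (∀ a, SumFeature G D fun r F => z r F a) →
          ReadsFew (2 ^ (-((k : ℝ) / 20)) * M) A z w y →
            successProb A ^ N ≤ C * (bitSensitivity w / n ^ 2) + Real.exp (-c' * n) := by
  classical
  obtain ⟨hδ0, hδ4, hδB⟩ := delta_facts ε hε hε1
  refine ⟨dlU ε / 16, by unfold dlU; positivity, fun g => ?_⟩
  obtain ⟨k₁, hk₁⟩ := numU_sep ε hε hε1
  obtain ⟨k₂, hk₂⟩ := numU_count ε hε hε1 (g + 1) (by omega)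
  obtain ⟨k₃, hk₃⟩ := numU_read ε hε hε1
  refine ⟨max (max k₁ k₂) k₃, fun k hk => ?_⟩
  obtain ⟨hr, hsep, hkε, htyp⟩ := hk₁ k
    ((le_max_left _ _).trans ((le_max_left _ _).trans hk))
  have hcount := hk₂ k ((le_max_right _ _).trans ((le_max_left _ _).trans hk))
  have hread := hk₃ k ((le_max_right _ _).trans hk)
  obtain ⟨r, hrdef⟩ : ∃ r : ℕ, r = ⌊dlU ε * k⌋₊ := ⟨_, rfl⟩
  rw [← hrdef] at hr hsep hread
  obtain ⟨κ, hκ, hball⟩ := numU_ball ε ((2 : ℝ) ^ (dlU ε / 16 * k)) hε hε1 (by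
    apply Real.one_le_rpow (by norm_num)
    have : 0 < dlU ε := hδ0
    positivity)
  obtain ⟨m, hmdef⟩ : ∃ m : ℕ, m = ⌈6 / ε⌉₊ := ⟨_, rfl⟩
  have hm1 : 6 / ε ≤ m := by rw [hmdef]; exact Nat.le_ceil _
  have hm2 : (m : ℝ) ≤ 7 / ε := by
    have h1 := Nat.ceil_lt_add_one (a := 6 / ε) (by positivity)
    rw [← hmdef] at h1
    have h2 : 7 / ε = 6 / ε + 1 / ε := by ring
    have h3 : 1 ≤ 1 / ε := by
      rw [le_div_iff₀ hε]; linarith
    linarith
  have hm0 : 1 ≤ m := by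
    have : (0 : ℝ) < m := lt_of_lt_of_le (by positivity) hm1
    exact_mod_cast this
  obtain ⟨C, c', hC, hc', n₀, hn₀⟩ := numU_final ε κ hε hε1 hκ m r hm1 hr
  refine ⟨2 ^ (r + 2), C, c', hC, hc', max n₀ (max k 1),
    fun n hn M hM R G _ _ _ _ hG D Q₁ Q₂ Q₃ hD hQ₁ hQ₂ hQ₃ A z w y hz hA => ?_⟩
  have hn0 : n₀ ≤ n := (le_max_left _ _).trans hn
  have hkn : k ≤ n := (le_max_left _ _).trans ((le_max_right _ _).trans hn)
  have hn1 : 1 ≤ n := (le_max_right _ _).trans ((le_max_right _ _).trans hn)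
  have hnR : (0 : ℝ) < n := by exact_mod_cast hn1
  by_contra hcon
  push Not at hcon
  obtain ⟨δ, hδ⟩ : ∃ δ : ℝ, δ = dlU ε := ⟨_, rfl⟩
  have hδ' : δ = ε / (16 * Real.log (16 / ε)) := hδ
  rw [← hδ'] at hδ0 hδ4 hδB
  rw [← hδ] at hsep htyp
  have hE : ε * n ≤ M / 2 ^ k := by
    rw [le_div_iff₀ (by positivity)]
    linarith
  obtain ⟨p, hp⟩ : ∃ p : ℝ, p = successProb A := ⟨_, rfl⟩
  have hp0 : 0 ≤ p := by
    rw [hp]
    unfold successProb
    positivity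
  have hp1 : p ≤ 1 := by
    rw [hp]
    unfold successProb
    refine div_le_one_of_le₀ ?_ (Nat.cast_nonneg _)
    exact_mod_cast card_le_univ _
  have hs0 : 0 ≤ bitSensitivity w := by
    unfold bitSensitivity
    positivity
  obtain ⟨S, hS⟩ : ∃ S : ℝ, S = bitSensitivity w / n ^ 2 := ⟨_, rfl⟩
  have hS0 : 0 ≤ S := by rw [hS]; positivity
  have hSs : bitSensitivity w = S * n ^ 2 := by
    rw [hS, div_mul_cancel₀]
    positivity
  rw [← hp, ← hS] at hcon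
  have hp2 : 0 < p := by
    rcases hp0.lt_or_eq with h | h
    · exact h
    · exfalso
      rw [← h, zero_pow (by positivity)] at hcon
      have := Real.exp_pos (-c' * n)
      have : 0 ≤ C * S := by positivity
      linarith
  obtain ⟨P, hP⟩ : ∃ P : ℝ, P = p ^ (2 ^ (r + 1)) := ⟨_, rfl⟩
  have hP0 : 0 < P := by rw [hP]; positivity
  obtain ⟨L, hL⟩ : ∃ L : ℕ, L = r + ⌈2 ^ (r + 1) * r * S * n / (κ * p ^ (2 ^ (r + 1)))⌉₊ :=
    ⟨_, rfl⟩
  have hrL : r ≤ L := by omega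
  have hL1 : 1 ≤ L := hr.trans hrL
  have hL0 : (0 : ℝ) < L := by exact_mod_cast hL1
  obtain ⟨a, ha1, ha2⟩ := exists_two_pow (m * (2 * L)) (Nat.mul_pos hm0 (by omega))
  -- the unstable points
  have hη : (2 ^ r * ((r : ℝ) / L * bitSensitivity w) / (κ * n)) ≤ P / 2 := by
    have h1 : 2 ^ (r + 1) * r * S * n / (κ * P) ≤ L := by
      rw [hL, hP]
      push_cast
      refine (Nat.le_ceil _).trans ?_
      have : (0 : ℝ) ≤ r := Nat.cast_nonneg _
      linarith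
    rw [div_le_iff₀ (by positivity)] at h1
    rw [div_le_div_iff₀ (by positivity) (by norm_num), hSs]
    have h2 : (2 : ℝ) ^ r * ((r : ℝ) / L * (S * n ^ 2)) * 2 =
        (2 ^ (r + 1) * r * S * n) * n / L := by
      rw [pow_succ]
      field_simp
      ring
    rw [h2, div_le_iff₀ hL0]
    calc 2 ^ (r + 1) * r * S * n * n ≤ (L * (κ * P)) * n :=
          mul_le_mul_of_nonneg_right h1 hnR.le
      _ = P * (κ * n) * L := by ring
  have hball' := hball n Q₂ hQ₂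
  -- the typical variables
  have hT : (Nat.card {e : Fin M → (Fin k ↪ Fin n) // ¬ Typ δ e} : ℝ) ≤
      Real.exp (-n) * Fintype.card (Fin M → (Fin k ↪ Fin n)) := by
    refine (typ_count hkn δ hδ0.le (by linarith)).trans ?_
    apply mul_le_mul_of_nonneg_right _ (Nat.cast_nonneg _)
    have h4 : (4 : ℝ) ^ n ≤ Real.exp (2 * n) := by
      have : (4 : ℝ) ≤ Real.exp 2 := by
        have h1 := Real.add_one_le_exp (1 : ℝ)
        have h2 : Real.exp 2 = Real.exp 1 * Real.exp 1 := by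
          rw [← Real.exp_add]; norm_num
        rw [h2]
        nlinarith
      calc (4 : ℝ) ^ n ≤ Real.exp 2 ^ n := pow_le_pow_left₀ (by norm_num) this n
        _ = Real.exp (2 * n) := by rw [← Real.exp_nat_mul, mul_comm]
    calc (4 : ℝ) ^ n * Real.exp (-2 * ((1 - δ) ^ k * M))
        ≤ Real.exp (2 * n) * Real.exp (-2 * ((1 - δ) ^ k * M)) :=
          mul_le_mul_of_nonneg_right h4 (Real.exp_pos _).le
      _ = Real.exp (2 * n + -2 * ((1 - δ) ^ k * M)) := by rw [← Real.exp_add]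
      _ ≤ Real.exp (-n) := by
        apply Real.exp_le_exp.2
        have h5 : (0 : ℝ) ≤ (1 - δ) ^ k := pow_nonneg (by linarith) _
        have h6 := mul_le_mul_of_nonneg_left hM h5
        have h7 := mul_le_mul_of_nonneg_right htyp hnR.le
        nlinarith
  have hSt := unstable_le (r := r) hkn hrL hL1 w (κ * n) (by positivity)
  obtain ⟨J₀, hJ, hgood⟩ := extractA (M := M) (r := r) hkn hrL hL1 A δ hδ0.le (by linarith)
    hsep
    (((((g + 1 : ℕ) : ℝ)) ^ (∑ d ∈ range (D + 1), r.choose d)) ^ Q₁ *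
        (2 ^ Q₂ * Real.exp (ε * n / 32) ^ (2 ^ r)) * 2 ^ (Q₃ * 2 ^ r))
    (Real.exp (-n)) (P / 2) hT
    (fun z : ExtZ R n k M L => ∀ T : Finset (Fin r),
      (hammingDist (w z.1 (extF z ∅)) (w z.1 (extF z (emb hrL T))) : ℝ) ≤ κ * n)
    (hSt.trans (mul_le_mul_of_nonneg_right hη (Nat.cast_nonneg _)))
    (by
      intro u e
      obtain ⟨N, hN, S₁, σ₁, h1, h2, h3⟩ := stratU (L := L) hrL D A z w y hz
        (2 ^ (-((k : ℝ) / 20)) * M) hA (by
          have hM0 : (0 : ℝ) ≤ M := Nat.cast_nonneg _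
          have := mul_le_mul_of_nonneg_right hread hM0
          linarith) (κ * n)
        (Real.exp (ε * n / 32)) hball' u e
      refine ⟨N, hN.trans ?_, S₁, σ₁, h1, h2, h3⟩
      have hg1 : (Fintype.card G : ℝ) ≤ ((g + 1 : ℕ) : ℝ) := by
        exact_mod_cast (by omega : Fintype.card G ≤ g + 1)
      gcongr)
  have hnum := hcount n r D Q₁ Q₂ Q₃ (M / 2 ^ k) hrdef hD hQ₁ hQ₂ hQ₃ hE
  obtain ⟨π, hπ⟩ : ∃ π : ℝ, π = nearProb A δ J₀ := ⟨_, rfl⟩
  rw [← hπ, ← hp, ← hP] at hgood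
  have hfin := hn₀ n hn0 S p (M / 2 ^ k) π L (2 ^ a) hS0 hp0 hp1 hE hcon hL ha2 (by
    rw [← hP]
    linarith)
  -- the walk
  let gg : R × Formula n k M → R × Formula n k M → Prop := fun x x' =>
    (numViolated (A x.1 x.2) x.2 : ℝ) ≤ M / 2 ^ k / 20 ∧
      (numViolated (A x'.1 x'.2) x'.2 : ℝ) ≤ M / 2 ^ k / 20 ∧
        (hammingDist (A x.1 x.2) (A x'.1 x'.2) : ℝ) ≤ δ * n
  have hgs : ∀ x x', gg x x' → gg x' x := by
    intro x x' h
    refine ⟨h.2.1, h.1, ?_⟩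
    rw [hammingDist_comm]
    exact h.2.2
  have : Nonempty (Fin k ↪ Fin n) := ⟨Fin.castLEEmb hkn⟩
  have : Nonempty (Formula n k M) := inferInstance
  have : Nonempty (Fin L) := ⟨⟨0, hL1⟩⟩
  have hX0 : (0 : ℝ) < Fintype.card (R × Formula n k M) := by
    exact_mod_cast Fintype.card_pos
  have hY0 : (0 : ℝ) < Fintype.card (Fin M → Fin L × Pat k) := by
    exact_mod_cast Fintype.card_pos
  have hpath := path_pow (X := R × Formula n k M) (Y := Fin M → Fin L × Pat k)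
    (moveJR J₀) (revJR J₀) (moveJR_revJR J₀) (revJR_revJR J₀) gg hgs a
  have hupper := walk_boundJ (K := 2 ^ a) (K' := 2 * L) (m := m) (M := M) hkn hL1 J₀ hJ A δ
    (Real.exp (ε * n / 4)) hδ0.le (by linarith) (by
      rw [hδ']
      exact delta_pow ε hε hε1 k m hm2 hkε)
    (Nat.one_le_two_pow) rfl ha1 (by
      intro σ
      refine (ball_bound σ (2 * (δ * n)) (2 * δ) (by positivity) (by positivity)
        (by linarith)).trans ?_
      apply Real.exp_le_exp.mpr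
      exact hδB n)
  have hcard : (Fintype.card ((R × Formula n k M) × (Fin (2 ^ a) → Fin M → Fin L × Pat k)) :
      ℝ) = Fintype.card (R × Formula n k M) *
        (Fintype.card (Fin M → Fin L × Pat k) : ℝ) ^ (2 ^ a) := by
    rw [Fintype.card_prod, Fintype.card_fun (α := Fin (2 ^ a)), Fintype.card_fin]
    push_cast
    rfl
  rw [hcard] at hupper
  have h1 : nearProb A δ J₀ ^ (2 ^ a) ≤ _ := hpath
  rw [← hπ] at h1
  have hden : (0 : ℝ) < Fintype.card (R × Formula n k M) *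
        (Fintype.card (Fin M → Fin L × Pat k) : ℝ) ^ (2 ^ a) := by positivity
  rw [le_div_iff₀ hden] at h1
  have h2 := h1.trans hupper
  rw [mul_comm] at h2
  have h3 := le_of_mul_le_mul_left h2 hden
  push_cast at hfin h3
  linarith

end Pool.Agent.KS
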