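import Pool.Agent.Lib.MP_f017c9_lc_U.DefsA
import Pool.Agent.Lib.MP_f017c9_lc.Moment

/-!
# First moment of tuples which are computed by reading few clauses
-/

namespace Pool.Agent.KS

open Finset

/-- PROOF. Let `x'` vary over all vectors which agree with `x` on `S x`: these vectors form a class
`C x`, of `(card W) ^ (M - #(S x))` elements; `S`, `ω` are constant on it, so `x' ∈ C x ↔ x ∈ C x'`
and the classes of equivalent elements have the same size. Hence
`∑ x, f x = ∑ x, (∑ x' ∈ C x, f x') / #(C x)`, and for `f x = ∏ j with j ∉ S x, φ (ω x) j (x j)` the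
inner sum is `∏ j with j ∉ S x, ∑ v, φ (ω x) j v`. -/
theorem certificate_sum {M : ℕ} {W Ω : Type} [Fintype W] [Nonempty W] [DecidableEq W]
    (S : (Fin M → W) → Finset (Fin M)) (ω : (Fin M → W) → Ω)
    (hcert : ∀ x x', (∀ j ∈ S x, x' j = x j) → S x' = S x ∧ ω x' = ω x)
    (φ : Ω → Fin M → W → ℝ) (hφ : ∀ o j v, 0 ≤ φ o j v) (b : ℝ)
    (hb : ∀ x, (∏ j with j ∉ S x, ∑ v, φ (ω x) j v) ≤
      b * (Fintype.card W : ℝ) ^ #{j : Fin M | j ∉ S x}) :
    (∑ x : Fin M → W, ∏ j with j ∉ S x, φ (ω x) j (x j)) ≤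
      b * Fintype.card (Fin M → W) := by
  have hw0 : (0 : ℝ) < Fintype.card W := by
    exact_mod_cast Fintype.card_pos
  obtain ⟨t, ht⟩ : ∃ t : (Fin M → W) → Fin M → Finset W,
      t = fun x j => if j ∈ S x then {x j} else univ := ⟨_, rfl⟩
  have hmem : ∀ x x', x' ∈ Fintype.piFinset (t x) ↔ ∀ j ∈ S x, x' j = x j := by
    intro x x'
    rw [Fintype.mem_piFinset, ht]
    constructor
    · intro h j hj
      have := h j
      simp only [if_pos hj, mem_singleton] at this
      exact this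
    · intro h j
      by_cases hj : j ∈ S x
      · simp only [if_pos hj, mem_singleton]
        exact h j hj
      · simp only [if_neg hj, mem_univ]
  have hsymm : ∀ x x', x' ∈ Fintype.piFinset (t x) → x ∈ Fintype.piFinset (t x') := by
    intro x x' h
    rw [hmem] at h ⊢
    have h3 := (hcert x x' h).1
    intro j hj
    rw [h3] at hj
    exact (h j hj).symm
  have hcardt : ∀ x, (#(Fintype.piFinset (t x)) : ℝ) =
      (Fintype.card W : ℝ) ^ #{j : Fin M | j ∉ S x} := by
    intro x
    rw [Fintype.card_piFinset]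
    push_cast
    rw [← prod_filter_mul_prod_filter_not univ (fun j => j ∉ S x)]
    have h3 : ∏ j with j ∉ S x, (#(t x j) : ℝ) = (Fintype.card W : ℝ) ^ #{j | j ∉ S x} := by
      rw [← prod_const]
      apply prod_congr rfl
      intro j hj
      rw [ht]
      simp only [if_neg (mem_filter.1 hj).2, card_univ]
    have h4 : ∏ j with ¬ j ∉ S x, (#(t x j) : ℝ) = 1 := by
      apply prod_eq_one
      intro j hj
      have hj2 : j ∈ S x := not_not.1 (mem_filter.1 hj).2
      rw [ht]
      simp only [if_pos hj2, card_singleton, Nat.cast_one]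
    rw [h3, h4, mul_one]
  have hinner : ∀ x, ∑ x' ∈ Fintype.piFinset (t x), ∏ j with j ∉ S x', φ (ω x') j (x' j) =
      ∏ j with j ∉ S x, ∑ v, φ (ω x) j v := by
    intro x
    have h3 : ∀ x' ∈ Fintype.piFinset (t x), ∏ j with j ∉ S x', φ (ω x') j (x' j) =
        ∏ j, (if j ∈ S x then 1 else φ (ω x) j (x' j)) := by
      intro x' hx'
      obtain ⟨h4, h5⟩ := hcert x x' ((hmem x x').1 hx')
      rw [h4, h5, prod_filter]
      apply prod_congr rfl
      intro j _
      by_cases hj : j ∈ S x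
      · simp [hj]
      · simp [hj]
    rw [sum_congr rfl h3, ← prod_univ_sum (t x) (fun j v => if j ∈ S x then 1 else φ (ω x) j v),
      prod_filter]
    apply prod_congr rfl
    intro j _
    by_cases hj : j ∈ S x
    · rw [ht]
      simp [hj]
    · rw [ht]
      simp [hj]
  have hpos : ∀ x, (0 : ℝ) < (Fintype.card W : ℝ) ^ #{j : Fin M | j ∉ S x} := fun x =>
    pow_pos hw0 _
  have hsplit : ∀ x : Fin M → W, ∏ j with j ∉ S x, φ (ω x) j (x j) =
      ∑ x' : Fin M → W, if x' ∈ Fintype.piFinset (t x) then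
        (∏ j with j ∉ S x, φ (ω x) j (x j)) / (Fintype.card W : ℝ) ^ #{j : Fin M | j ∉ S x}
        else 0 := by
    intro x
    rw [sum_ite_mem, univ_inter, sum_const, nsmul_eq_mul, hcardt]
    field_simp
  rw [sum_congr rfl fun x _ => hsplit x, sum_comm]
  have hswap : ∀ x' : Fin M → W, (∑ x : Fin M → W, if x' ∈ Fintype.piFinset (t x) then
        (∏ j with j ∉ S x, φ (ω x) j (x j)) / (Fintype.card W : ℝ) ^ #{j : Fin M | j ∉ S x}
        else 0) ≤ b := by
    intro x'
    have h3 : ∀ x : Fin M → W, (if x' ∈ Fintype.piFinset (t x) then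
        (∏ j with j ∉ S x, φ (ω x) j (x j)) / (Fintype.card W : ℝ) ^ #{j : Fin M | j ∉ S x}
        else 0) = (if x ∈ Fintype.piFinset (t x') then
        (∏ j with j ∉ S x, φ (ω x) j (x j)) else 0) /
          (Fintype.card W : ℝ) ^ #{j : Fin M | j ∉ S x'} := by
      intro x
      by_cases hx : x ∈ Fintype.piFinset (t x')
      · rw [if_pos hx, if_pos (hsymm _ _ hx), (hcert x' x ((hmem x' x).1 hx)).1]
      · rw [if_neg hx, if_neg fun h => hx (hsymm _ _ h), zero_div]
    rw [sum_congr rfl fun x _ => h3 x, ← sum_div, sum_ite_mem, univ_inter, hinner,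
      div_le_iff₀ (hpos x')]
    exact hb x'
  refine (sum_le_sum fun x' _ => hswap x').trans (le_of_eq ?_)
  rw [sum_const, card_univ, nsmul_eq_mul, mul_comm]

/-- one clause -/
theorem MomA_clause {n k : ℕ} {W Λ : Type} [Fintype W] [Fintype Λ] [DecidableEq Λ]
    (pat : Λ → W → Pat k)
    (h1 : ∀ l a, (#{w : W | pat l w = a} : ℝ) = Fintype.card W * (1 / 2 ^ k))
    (γ : Λ → Λ → ℝ) (hγ : ∀ l l', 0 ≤ γ l l' ∧ γ l l' ≤ 1)
    (h2 : ∀ l l', l ≠ l' → ∀ a b, (#{w : W | pat l w = a ∧ pat l' w = b} : ℝ) ≤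
      Fintype.card W * (1 / 2 ^ k) *
        (γ l l' * (if a = b then 1 else 0) + (1 - γ l l') * (1 / 2 ^ k)))
    (ε : Fin k ↪ Fin n) (o : Λ → Asg n) :
    ∑ v : W, ((1 : ℝ) / 4) ^ #{l : Λ | Violated (o l) (ε, pat l v)} ≤
      Fintype.card W * Real.exp (-(3 / 4) * (Fintype.card Λ * (1 / 2 ^ k)) +
        3 / 8 * (1 / 2 ^ k) * ∑ l : Λ, ∑ l' ∈ univ.erase l,
          ((if (fun i => !o l (ε i)) = (fun i => !o l' (ε i)) then (1 : ℝ) else 0) +
            1 / 2 ^ k)) := by
  obtain ⟨N, hN⟩ : ∃ N : ℝ, N = Fintype.card W := ⟨_, rfl⟩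
  have hN0 : 0 ≤ N := by rw [hN]; positivity
  obtain ⟨m, hmdef⟩ : ∃ m : ℝ, m = Fintype.card Λ := ⟨_, rfl⟩
  rw [← hN, ← hmdef]
  have hfirst : ∑ v : W,
      ((#{l : Λ | Violated (o l) (ε, pat l v)} : ℕ) : ℝ) = m * (N * (1 / 2 ^ k)) := by
    simp only [card_filter, Nat.cast_sum, Nat.cast_ite, Nat.cast_one, Nat.cast_zero]
    rw [sum_comm]
    have : ∀ l : Λ, ∑ v : W,
        (if Violated (o l) (ε, pat l v) then (1 : ℝ) else 0) = N * (1 / 2 ^ k) := by
      intro l
      have h3 := h1 l (fun i => !o l (ε i))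
      rw [card_filter] at h3
      push_cast at h3
      rw [hN, ← h3]
      apply sum_congr rfl
      intro v _
      simp only [Moment_iff]
    rw [sum_congr rfl fun l _ => this l, sum_const, card_univ, nsmul_eq_mul, hmdef]
  have hsecond : ∑ v : W,
      (((#{l : Λ | Violated (o l) (ε, pat l v)} : ℕ) : ℝ) *
        (((#{l : Λ | Violated (o l) (ε, pat l v)} : ℕ) : ℝ) - 1)) ≤
        N * (1 / 2 ^ k) * ∑ l : Λ, ∑ l' ∈ univ.erase l,
          ((if (fun i => !o l (ε i)) = (fun i => !o l' (ε i)) then (1 : ℝ) else 0) +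
            1 / 2 ^ k) := by
    have hid : ∀ v : W,
        (((#{l : Λ | Violated (o l) (ε, pat l v)} : ℕ) : ℝ) *
        (((#{l : Λ | Violated (o l) (ε, pat l v)} : ℕ) : ℝ) - 1)) =
        ∑ l : Λ, ∑ l' ∈ univ.erase l,
          (if Violated (o l) (ε, pat l v) ∧ Violated (o l') (ε, pat l' v) then (1 : ℝ)
            else 0) := by
      intro v
      have h3 : ∀ l : Λ, ∑ l' ∈ univ.erase l,
          (if Violated (o l) (ε, pat l v) ∧ Violated (o l') (ε, pat l' v) then (1 : ℝ)
            else 0) =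
          (if Violated (o l) (ε, pat l v) then (1 : ℝ) else 0) *
            (((#{l : Λ | Violated (o l) (ε, pat l v)} : ℕ) : ℝ) - 1) := by
        intro l
        by_cases hl : Violated (o l) (ε, pat l v)
        · simp only [hl, true_and, if_true, one_mul]
          rw [card_filter]
          push_cast
          rw [← add_sum_erase univ _ (mem_univ l)]
          simp [hl]
        · simp [hl]
      rw [sum_congr rfl fun l _ => h3 l, ← sum_mul]
      rw [card_filter]
      push_cast
      rfl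
    rw [sum_congr rfl fun v _ => hid v, sum_comm, mul_sum]
    apply sum_le_sum
    intro l _
    rw [sum_comm, mul_sum]
    apply sum_le_sum
    intro l' hl'
    have hne : l ≠ l' := (ne_of_mem_erase hl').symm
    have h6 := h2 l l' hne (fun i => !o l (ε i)) (fun i => !o l' (ε i))
    rw [card_filter] at h6
    push_cast at h6
    rw [← hN] at h6
    have h7 : (∑ v : W, if Violated (o l) (ε, pat l v) ∧ Violated (o l') (ε, pat l' v) then
        (1 : ℝ) else 0) = ∑ v : W, if (pat l v = fun i => !o l (ε i)) ∧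
          (pat l' v = fun i => !o l' (ε i)) then (1 : ℝ) else 0 := by
      apply sum_congr rfl
      intro v _
      simp only [Moment_iff]
    rw [h7]
    refine h6.trans ?_
    apply mul_le_mul_of_nonneg_left _ (by positivity)
    obtain ⟨hγ0, hγ1⟩ := hγ l l'
    have hk0 : (0 : ℝ) ≤ 1 / 2 ^ k := by positivity
    have h8 : (1 - γ l l') * (1 / 2 ^ k : ℝ) ≤ 1 / 2 ^ k := by
      nlinarith
    split_ifs
    · linarith
    · linarith
  have hpt : ∑ v : W,
      ((1 : ℝ) / 4) ^ #{l : Λ | Violated (o l) (ε, pat l v)} ≤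
      ∑ v : W,
        (1 - (3 / 4) * (((#{l : Λ | Violated (o l) (ε, pat l v)} : ℕ) : ℝ) -
          ((#{l : Λ | Violated (o l) (ε, pat l v)} : ℕ) : ℝ) *
          (((#{l : Λ | Violated (o l) (ε, pat l v)} : ℕ) : ℝ) - 1) / 2)) :=
    sum_le_sum fun v _ => Tuple_phi _
  refine hpt.trans ?_
  have hsplit : ∑ v : W,
        (1 - (3 / 4) * (((#{l : Λ | Violated (o l) (ε, pat l v)} : ℕ) : ℝ) -
          ((#{l : Λ | Violated (o l) (ε, pat l v)} : ℕ) : ℝ) *
          (((#{l : Λ | Violated (o l) (ε, pat l v)} : ℕ) : ℝ) - 1) / 2)) =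
      N - (3 / 4) * (m * (N * (1 / 2 ^ k))) +
        (3 / 8) * ∑ v : W,
      (((#{l : Λ | Violated (o l) (ε, pat l v)} : ℕ) : ℝ) *
        (((#{l : Λ | Violated (o l) (ε, pat l v)} : ℕ) : ℝ) - 1)) := by
    rw [← hfirst, hN]
    have hc : (Fintype.card W : ℝ) = ∑ _v : W, (1 : ℝ) := by
      rw [sum_const, card_univ, nsmul_eq_mul, mul_one]
    rw [hc, mul_sum, mul_sum, ← sum_sub_distrib, ← sum_add_distrib]
    apply sum_congr rfl
    intro v _
    ring
  rw [hsplit]
  obtain ⟨T, hT⟩ : ∃ T : ℝ, T = ∑ l : Λ, ∑ l' ∈ univ.erase l,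
          ((if (fun i => !o l (ε i)) = (fun i => !o l' (ε i)) then (1 : ℝ) else 0) +
            1 / 2 ^ k) := ⟨_, rfl⟩
  rw [← hT] at hsecond ⊢
  have hexp := Real.add_one_le_exp (-(3 / 4) * (m * (1 / 2 ^ k)) + 3 / 8 * (1 / 2 ^ k) * T)
  have hfin := mul_le_mul_of_nonneg_left hexp hN0
  nlinarith

/-- PROOF. As for `momentU` (Mom.lean; or `moment`, Moment.lean), restricted to the clauses which
are not read, by `certificate_sum` with `Ω = Λ → Asg n`, `ω = σ`,
`φ o j v = (1/4) ^ #{l | Violated (o l) (e j, pat l v)}` if `o` is spread (pairwise distances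
`> δ n`) and `φ o j v = 0` otherwise. On the event the product over the clauses not read is at least
`(1/4) ^ (card Λ M / 2 ^ k / 20)` (if no clause is unread then `M = 0`, by `hS`: trivial). For one
clause (`Tuple_phi`, `h1`, `h2`, `Moment_iff`)
`∑ v, φ o j v ≤ card W * exp (-(3/4) card Λ / 2 ^ k + 3/8 / 2 ^ k * ∑_{l ≠ l'} (1[agree] + 1 / 2 ^ k))`
where agree means `(fun i => !o l (e j i)) = fun i => !o l' (e j i)`. The product over the clauses
`j ∉ S x` (at least `99/100 M` clauses) has exponent at most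
`-(3/4) (99/100) card Λ M / 2 ^ k + 3/8 / 2 ^ k * card Λ (card Λ - 1) * 5 θ M` with
`θ = (1 - δ) ^ k` (`he`, `1 / 2 ^ k ≤ θ`), at most `(-0.7425 + 0.1875) card Λ M / 2 ^ k` by `hm`; the
factor `4 ^ (card Λ M / 2 ^ k / 20)` adds `0.0694`. -/
theorem momentA {n k M : ℕ} {W Λ : Type} [Fintype W] [Nonempty W] [DecidableEq W] [Fintype Λ]
    [Nonempty Λ] [DecidableEq Λ] (e : Fin M → (Fin k ↪ Fin n)) (δ : ℝ) (hδ0 : 0 ≤ δ)
    (hδ : δ ≤ 1 / 2) (he : Typ δ e) (pat : Λ → W → Pat k)
    (h1 : ∀ l a, (#{w : W | pat l w = a} : ℝ) = Fintype.card W * (1 / 2 ^ k))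
    (γ : Λ → Λ → ℝ) (hγ : ∀ l l', 0 ≤ γ l l' ∧ γ l l' ≤ 1)
    (h2 : ∀ l l', l ≠ l' → ∀ a b, (#{w : W | pat l w = a ∧ pat l' w = b} : ℝ) ≤
      Fintype.card W * (1 / 2 ^ k) *
        (γ l l' * (if a = b then 1 else 0) + (1 - γ l l') * (1 / 2 ^ k)))
    (hm : 5 * ((Fintype.card Λ : ℝ) - 1) * (1 - δ) ^ k ≤ 1 / 2)
    (S : (Fin M → W) → Finset (Fin M)) (σ : (Fin M → W) → Λ → Asg n)
    (hS : ∀ x, ((S x).card : ℝ) ≤ M / 100)
    (hcert : ∀ x x', (∀ j ∈ S x, x' j = x j) → S x' = S x ∧ σ x' = σ x) :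
    (#{x : Fin M → W |
        (∀ l, (#{j : Fin M | Violated (σ x l) (e j, pat l (x j))} : ℝ) ≤ M / 2 ^ k / 20) ∧
          ∀ l l', l ≠ l' → δ * n < (hammingDist (σ x l) (σ x l') : ℝ)} : ℝ) ≤
      Fintype.card (Fin M → W) * Real.exp (-(48 / 100) * Fintype.card Λ * (M / 2 ^ k)) := by
  rcases Nat.eq_zero_or_pos M with hM | hM
  · have h3 : (#{x : Fin M → W |
        (∀ l, (#{j : Fin M | Violated (σ x l) (e j, pat l (x j))} : ℝ) ≤ M / 2 ^ k / 20) ∧
          ∀ l l', l ≠ l' → δ * n < (hammingDist (σ x l) (σ x l') : ℝ)} : ℝ) ≤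
        Fintype.card (Fin M → W) := by
      exact_mod_cast card_le_univ _
    refine h3.trans (le_of_eq ?_)
    have h4 : (M : ℝ) = 0 := by exact_mod_cast hM
    rw [h4]
    simp
  have hM0 : (0 : ℝ) < M := by exact_mod_cast hM
  have hMn : (0 : ℝ) ≤ M := hM0.le
  obtain ⟨E, hE⟩ : ∃ E : ℝ, E = M / 2 ^ k := ⟨_, rfl⟩
  have hE0 : 0 ≤ E := by rw [hE]; positivity
  obtain ⟨m, hmdef⟩ : ∃ m : ℝ, m = Fintype.card Λ := ⟨_, rfl⟩
  have hm1 : 1 ≤ m := by
    rw [hmdef]
    exact_mod_cast Fintype.card_pos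
  have hm0 : 0 ≤ m := by linarith
  obtain ⟨θ, hθ⟩ : ∃ θ : ℝ, θ = (1 - δ) ^ k := ⟨_, rfl⟩
  have hθk : (1 / 2 ^ k : ℝ) ≤ θ := by
    have h3 : (1 / 2 : ℝ) ^ k ≤ (1 - δ) ^ k := pow_le_pow_left₀ (by norm_num) (by linarith) k
    rw [one_div_pow, ← hθ] at h3
    exact h3
  rw [← hE, ← hmdef]
  rw [← hmdef, ← hθ] at hm
  -- the weights
  obtain ⟨φ, hφdef⟩ : ∃ φ : (Λ → Asg n) → Fin M → W → ℝ, φ = fun o j v =>
      if ∀ l l', l ≠ l' → δ * n < (hammingDist (o l) (o l') : ℝ) then
        ((1 : ℝ) / 4) ^ #{l : Λ | Violated (o l) (e j, pat l v)} else 0 := ⟨_, rfl⟩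
  have hφ : ∀ o j v, 0 ≤ φ o j v := by
    intro o j v
    rw [hφdef]
    simp only
    split_ifs
    · positivity
    · exact le_rfl
  -- the clauses which are not read
  have hunread : ∀ x, 99 / 100 * (M : ℝ) ≤ (#{j : Fin M | j ∉ S x} : ℝ) := by
    intro x
    have h3 : #{j : Fin M | j ∈ S x} + #{j : Fin M | j ∉ S x} = M := by
      rw [card_filter_add_card_filter_not]
      simp
    have h4 : #{j : Fin M | j ∈ S x} = (S x).card := by
      congr 1
      ext j
      simp
    rw [h4] at h3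
    have h5 : ((S x).card : ℝ) + (#{j : Fin M | j ∉ S x} : ℝ) = M := by exact_mod_cast h3
    have := hS x
    linarith
  have hmain := certificate_sum S σ hcert φ hφ (Real.exp (-(555 / 1000) * (m * E))) (by
    intro x
    by_cases hsp : ∀ l l', l ≠ l' → δ * n < (hammingDist (σ x l) (σ x l') : ℝ)
    · have h3 : ∀ j : Fin M, ∑ v, φ (σ x) j v ≤
          Fintype.card W * Real.exp (-(3 / 4) * (m * (1 / 2 ^ k)) +
            3 / 8 * (1 / 2 ^ k) * ∑ l : Λ, ∑ l' ∈ univ.erase l,
              ((if (fun i => !σ x l (e j i)) = (fun i => !σ x l' (e j i)) then (1 : ℝ) else 0) +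
                1 / 2 ^ k)) := by
        intro j
        have h4 := MomA_clause pat h1 γ hγ h2 (e j) (σ x)
        rw [← hmdef] at h4
        rw [hφdef]
        simp only [if_pos hsp]
        exact h4
      have h5 : (∏ j with j ∉ S x, ∑ v, φ (σ x) j v) ≤
          ∏ j with j ∉ S x, (Fintype.card W * Real.exp (-(3 / 4) * (m * (1 / 2 ^ k)) +
            3 / 8 * (1 / 2 ^ k) * ∑ l : Λ, ∑ l' ∈ univ.erase l,
              ((if (fun i => !σ x l (e j i)) = (fun i => !σ x l' (e j i)) then (1 : ℝ) else 0) +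
                1 / 2 ^ k))) := by
        apply prod_le_prod
        · intro j _
          exact sum_nonneg fun v _ => hφ _ _ _
        · intro j _
          exact h3 j
      refine h5.trans ?_
      rw [prod_mul_distrib, prod_const, ← Real.exp_sum, mul_comm]
      apply mul_le_mul_of_nonneg_right _ (by positivity)
      apply Real.exp_le_exp.2
      rw [sum_add_distrib, sum_const, nsmul_eq_mul, ← mul_sum]
      have h6 : ∑ j with j ∉ S x, ∑ l : Λ, ∑ l' ∈ univ.erase l,
              ((if (fun i => !σ x l (e j i)) = (fun i => !σ x l' (e j i)) then (1 : ℝ) else 0) +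
                1 / 2 ^ k) ≤ m * ((m - 1) * (5 * θ * M)) := by
        have h7 : ∑ j with j ∉ S x, ∑ l : Λ, ∑ l' ∈ univ.erase l,
              ((if (fun i => !σ x l (e j i)) = (fun i => !σ x l' (e j i)) then (1 : ℝ) else 0) +
                1 / 2 ^ k) ≤ ∑ j : Fin M, ∑ l : Λ, ∑ l' ∈ univ.erase l,
              ((if (fun i => !σ x l (e j i)) = (fun i => !σ x l' (e j i)) then (1 : ℝ) else 0) +
                1 / 2 ^ k) := by
          apply sum_le_sum_of_subset_of_nonneg (filter_subset _ _)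
          intro j _ _
          apply sum_nonneg
          intro l _
          apply sum_nonneg
          intro l' _
          split_ifs <;> positivity
        refine h7.trans ?_
        rw [sum_comm]
        have h8 : ∀ l : Λ, ∑ j : Fin M, ∑ l' ∈ univ.erase l,
              ((if (fun i => !σ x l (e j i)) = (fun i => !σ x l' (e j i)) then (1 : ℝ) else 0) +
                1 / 2 ^ k) ≤ (m - 1) * (5 * θ * M) := by
          intro l
          rw [sum_comm]
          have h9 : ∀ l' ∈ univ.erase l, ∑ j : Fin M,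
              ((if (fun i => !σ x l (e j i)) = (fun i => !σ x l' (e j i)) then (1 : ℝ) else 0) +
                1 / 2 ^ k) ≤ 5 * θ * M := by
            intro l' hl'
            have hne : l ≠ l' := (ne_of_mem_erase hl').symm
            have h10 := he (σ x l) (σ x l') (hsp l l' hne)
            rw [← hθ, card_filter] at h10
            push_cast at h10
            rw [sum_add_distrib, sum_const, card_univ, Fintype.card_fin, nsmul_eq_mul]
            have h11 := mul_le_mul_of_nonneg_left hθk hMn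
            linarith
          refine (sum_le_sum h9).trans (le_of_eq ?_)
          rw [sum_const, card_erase_of_mem (mem_univ l), card_univ, nsmul_eq_mul, hmdef]
          have h12 : 1 ≤ Fintype.card Λ := Fintype.card_pos_iff.2 ⟨l⟩
          rw [Nat.cast_sub h12, Nat.cast_one]
        refine (sum_le_sum fun l _ => h8 l).trans (le_of_eq ?_)
        rw [sum_const, card_univ, nsmul_eq_mul, hmdef]
      have h13 : (0 : ℝ) ≤ m * (1 / 2 ^ k) := by positivity
      have h14 := mul_le_mul_of_nonneg_right (hunread x) h13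
      have h15 : (0 : ℝ) ≤ 3 / 8 * (1 / 2 ^ k) := by positivity
      have h16 := mul_le_mul_of_nonneg_left h6 h15
      have h17 : E = M * (1 / 2 ^ k) := by
        rw [hE]
        ring
      have h18 : 3 / 8 * (1 / 2 ^ k) * (m * ((m - 1) * (5 * θ * M))) ≤ 3 / 16 * (m * E) := by
        have h19 : (0 : ℝ) ≤ 3 / 8 * (m * E) := by positivity
        have h20 := mul_le_mul_of_nonneg_left hm h19
        rw [h17] at h20 ⊢
        linarith
      have h21 : 99 / 100 * (M : ℝ) * (m * (1 / 2 ^ k)) = 99 / 100 * (m * E) := by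
        rw [h17]
        ring
      linarith
    · have h3 : ∃ j : Fin M, j ∉ S x := by
        by_contra hcon
        push Not at hcon
        have h4 : #{j : Fin M | j ∉ S x} = 0 := by
          rw [card_eq_zero, filter_eq_empty_iff]
          intro j _
          exact not_not.2 (hcon j)
        have h5 := hunread x
        rw [h4, Nat.cast_zero] at h5
        linarith
      obtain ⟨j, hj⟩ := h3
      have h4 : (∏ j with j ∉ S x, ∑ v, φ (σ x) j v) = 0 := by
        apply prod_eq_zero (mem_filter.2 ⟨mem_univ j, hj⟩)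
        rw [hφdef]
        simp only [if_neg hsp, sum_const_zero]
      rw [h4]
      positivity)
  have hpoint : ∀ x : Fin M → W,
      (if (∀ l, (#{j : Fin M | Violated (σ x l) (e j, pat l (x j))} : ℝ) ≤ E / 20) ∧
          ∀ l l', l ≠ l' → δ * n < (hammingDist (σ x l) (σ x l') : ℝ) then (1 : ℝ) else 0) ≤
      Real.exp (Real.log 4 * (m * (E / 20))) * ∏ j with j ∉ S x, φ (σ x) j (x j) := by
    intro x
    split_ifs with h
    · obtain ⟨h, hsp⟩ := h
      rw [hφdef]
      simp only [if_pos hsp]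
      rw [prod_pow_eq_pow_sum]
      have hs : ((∑ j with j ∉ S x, #{l : Λ | Violated (σ x l) (e j, pat l (x j))} : ℕ) : ℝ) ≤
          m * (E / 20) := by
        have h3 : (∑ j : Fin M, #{l : Λ | Violated (σ x l) (e j, pat l (x j))}) =
            ∑ l : Λ, #{j : Fin M | Violated (σ x l) (e j, pat l (x j))} := by
          simp only [card_filter]
          rw [sum_comm]
        have h4 : (∑ j with j ∉ S x, #{l : Λ | Violated (σ x l) (e j, pat l (x j))}) ≤
            ∑ l : Λ, #{j : Fin M | Violated (σ x l) (e j, pat l (x j))} := by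
          rw [← h3]
          exact sum_le_sum_of_subset (filter_subset _ _)
        have h5 : ((∑ j with j ∉ S x, #{l : Λ | Violated (σ x l) (e j, pat l (x j))} : ℕ) : ℝ) ≤
            ((∑ l : Λ, #{j : Fin M | Violated (σ x l) (e j, pat l (x j))} : ℕ) : ℝ) := by
          exact_mod_cast h4
        refine h5.trans ?_
        push_cast
        calc ∑ l : Λ, (#{j : Fin M | Violated (σ x l) (e j, pat l (x j))} : ℝ)
            ≤ ∑ _l : Λ, E / 20 := sum_le_sum fun l _ => h l
          _ = m * (E / 20) := by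
              rw [sum_const, card_univ, nsmul_eq_mul, hmdef]
      have hlog : (0 : ℝ) ≤ Real.log 4 := Real.log_nonneg (by norm_num)
      have h6 : ((1 : ℝ) / 4) ^
          (∑ j with j ∉ S x, #{l : Λ | Violated (σ x l) (e j, pat l (x j))}) =
          Real.exp (-(Real.log 4 *
            ((∑ j with j ∉ S x, #{l : Λ | Violated (σ x l) (e j, pat l (x j))} : ℕ) : ℝ))) := by
        rw [Real.exp_neg, mul_comm (Real.log 4), Real.exp_nat_mul, Real.exp_log (by norm_num),
          one_div, inv_pow]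
      rw [h6, ← Real.exp_add]
      apply Real.one_le_exp
      have := mul_le_mul_of_nonneg_left hs hlog
      linarith
    · exact mul_nonneg (Real.exp_pos _).le (prod_nonneg fun j _ => hφ _ _ _)
  have hnum2 : (#{x : Fin M → W |
        (∀ l, (#{j : Fin M | Violated (σ x l) (e j, pat l (x j))} : ℝ) ≤ E / 20) ∧
          ∀ l l', l ≠ l' → δ * n < (hammingDist (σ x l) (σ x l') : ℝ)} : ℝ) =
      ∑ x : Fin M → W,
        (if (∀ l, (#{j : Fin M | Violated (σ x l) (e j, pat l (x j))} : ℝ) ≤ E / 20) ∧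
          ∀ l l', l ≠ l' → δ * n < (hammingDist (σ x l) (σ x l') : ℝ) then (1 : ℝ) else 0) := by
    rw [card_filter]
    push_cast
    rfl
  rw [hnum2]
  refine (sum_le_sum fun x _ => hpoint x).trans ?_
  rw [← mul_sum]
  refine (mul_le_mul_of_nonneg_left hmain (Real.exp_pos _).le).trans ?_
  have hcn : (0 : ℝ) ≤ Fintype.card (Fin M → W) := Nat.cast_nonneg _
  rw [← mul_assoc, mul_comm]
  apply mul_le_mul_of_nonneg_left _ hcn
  rw [← Real.exp_add]
  apply Real.exp_le_exp.2
  have hlog4 : Real.log 4 ≤ 1.3863 := by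
    have h4 : (4 : ℝ) = 2 ^ 2 := by norm_num
    rw [h4, Real.log_pow]
    have := Real.log_two_lt_d9
    push_cast
    linarith
  have hmE : (0 : ℝ) ≤ m * E := by positivity
  have h3 := mul_le_mul_of_nonneg_right hlog4 hmE
  nlinarith

end Pool.Agent.KS
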