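import Pool.Agent.Lib.MP_f017c9_lc_U.Defs
import Pool.Agent.Lib.MP_f017c9_lc_U.Fam

/-!
# The number of output tuples on a cube, for fixed seed and fixed variables
-/

namespace Pool.Agent.KS

open Finset

private theorem tup_ball {r Q₂ : ℕ} (ρ B : ℝ)
    (hB : ∀ v : Fin Q₂ → Bool, (#{v' : Fin Q₂ → Bool | (hammingDist v v' : ℝ) ≤ ρ} : ℝ) ≤ B) :
    ∃ 𝒱 : Finset (Finset (Fin r) → Fin Q₂ → Bool), (𝒱.card : ℝ) ≤ 2 ^ Q₂ * B ^ (2 ^ r) ∧
      ∀ (v₀ : Fin Q₂ → Bool) (v : Finset (Fin r) → Fin Q₂ → Bool),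
        (∀ T, (hammingDist v₀ (v T) : ℝ) ≤ ρ) → v ∈ 𝒱 := by
  refine ⟨(univ : Finset (Fin Q₂ → Bool)).biUnion fun v₀ =>
    Fintype.piFinset fun _ : Finset (Fin r) =>
      {v' : Fin Q₂ → Bool | (hammingDist v₀ v' : ℝ) ≤ ρ}, ?_, fun v₀ v hv => ?_⟩
  · have h1 : ∀ v₀ : Fin Q₂ → Bool, (((Fintype.piFinset fun _ : Finset (Fin r) =>
        ({v' : Fin Q₂ → Bool | (hammingDist v₀ v' : ℝ) ≤ ρ} : Finset (Fin Q₂ → Bool))).card : ℕ) :
          ℝ) ≤ B ^ (2 ^ r) := by
      intro v₀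
      rw [Fintype.card_piFinset, prod_const, card_univ, Fintype.card_finset, Fintype.card_fin,
        Nat.cast_pow]
      exact pow_le_pow_left₀ (Nat.cast_nonneg _) (hB v₀) _
    refine le_trans (Nat.cast_le.2 card_biUnion_le) ?_
    rw [Nat.cast_sum]
    refine le_trans (sum_le_sum fun v₀ _ => h1 v₀) ?_
    rw [sum_const, card_univ, nsmul_eq_mul]
    simp
  · rw [mem_biUnion]
    refine ⟨v₀, mem_univ _, ?_⟩
    rw [Fintype.mem_piFinset]
    intro T
    rw [mem_filter]
    exact ⟨mem_univ _, hv T⟩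

/-- PROOF. Let `Φ : (Fin Q₁ → G) × (Fin Q₂ → Bool) × (Fin Q₃ → Bool) → Asg n` send a triple to the
output `A u (fun j => (e j, s j))` for some `s` with this triple of features, if there is one (and
to anything otherwise). By `hA` the output on every formula with the variables `e` is `Φ` of its
triple. On the cube the first entries form an element of `Fin Q₁ → ℱ` (`familyU`, applied to each
feature with the terms `h` of `hz`), the second entries form a function
`v : Finset (Fin r) → Fin Q₂ → Bool` with `hammingDist (v ∅) (v T) ≤ ρ` for all `T` (at most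
`2 ^ Q₂ * B ^ (2 ^ r)` functions), the third entries are arbitrary (`(2 ^ Q₃) ^ (2 ^ r)` functions).
`𝒯` is the image of these data. -/
theorem tuplesU {n k M r L Q₁ Q₂ Q₃ : ℕ} (hrL : r ≤ L) {R G : Type} [AddCommGroup G] [Fintype G]
    (D : ℕ) (A : R → Formula n k M → Asg n) (z : R → Formula n k M → Fin Q₁ → G)
    (w : R → Formula n k M → Fin Q₂ → Bool) (y : R → Formula n k M → Fin Q₃ → Bool)
    (hz : ∀ a, SumFeature G D fun r F => z r F a) (hA : DecodedFrom A z w y) (ρ B : ℝ)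
    (hB : ∀ v : Fin Q₂ → Bool, (#{v' : Fin Q₂ → Bool | (hammingDist v v' : ℝ) ≤ ρ} : ℝ) ≤ B)
    (u : R) (e : Fin M → (Fin k ↪ Fin n)) :
    ∃ 𝒯 : Finset (Finset (Fin r) → Asg n),
      (𝒯.card : ℝ) ≤ ((Fintype.card G : ℝ) ^ (∑ d ∈ range (D + 1), r.choose d)) ^ Q₁ *
        (2 ^ Q₂ * B ^ (2 ^ r)) * 2 ^ (Q₃ * 2 ^ r) ∧
      ∀ (i : Fin M → Fin L) (s s' : Fin M → Pat k),
        (∀ T : Finset (Fin r), (hammingDist (w u (cubeF e i s s' ∅))
          (w u (cubeF e i s s' (emb hrL T))) : ℝ) ≤ ρ) →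
        (fun T => A u (cubeF e i s s' (emb hrL T))) ∈ 𝒯 := by
  classical
  obtain ⟨ℱ, hF1, hF2⟩ := familyU (G := G) r D
  obtain ⟨𝒱, hV1, hV2⟩ := tup_ball (r := r) ρ B hB
  obtain ⟨Φ, hΦ⟩ : ∃ Φ : (Fin Q₁ → G) → (Fin Q₂ → Bool) → (Fin Q₃ → Bool) → Asg n,
      ∀ s : Fin M → Pat k, A u (fun j => (e j, s j)) =
        Φ (z u (fun j => (e j, s j))) (w u (fun j => (e j, s j)))
          (y u (fun j => (e j, s j))) := by
    refine ⟨fun zz ww yy => if h : ∃ s : Fin M → Pat k, z u (fun j => (e j, s j)) = zz ∧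
      w u (fun j => (e j, s j)) = ww ∧ y u (fun j => (e j, s j)) = yy then
        A u (fun j => (e j, h.choose j)) else fun _ => false, fun s => ?_⟩
    have h : ∃ s' : Fin M → Pat k, z u (fun j => (e j, s' j)) = z u (fun j => (e j, s j)) ∧
      w u (fun j => (e j, s' j)) = w u (fun j => (e j, s j)) ∧
      y u (fun j => (e j, s' j)) = y u (fun j => (e j, s j)) := ⟨s, rfl, rfl, rfl⟩
    beta_reduce
    rw [dif_pos h]
    exact hA u _ _ (fun j => rfl) h.choose_spec.1.symm h.choose_spec.2.1.symm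
      h.choose_spec.2.2.symm
  refine ⟨((Fintype.piFinset fun _ : Fin Q₁ => ℱ) ×ˢ 𝒱 ×ˢ
    (univ : Finset (Finset (Fin r) → Fin Q₃ → Bool))).image
      (fun p => fun T => Φ (fun a => p.1 a T) (p.2.1 T) (p.2.2 T)), ?_, ?_⟩
  · refine le_trans (Nat.cast_le.2 card_image_le) ?_
    rw [card_product, card_product, Fintype.card_piFinset, prod_const, card_univ, card_univ,
      Fintype.card_fin]
    have h1 : (Fintype.card (Finset (Fin r) → Fin Q₃ → Bool) : ℝ) = 2 ^ (Q₃ * 2 ^ r) := by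
      rw [pow_mul]
      simp
    push_cast
    rw [h1, ← mul_assoc]
    refine mul_le_mul_of_nonneg_right ?_ (by positivity)
    exact mul_le_mul (pow_le_pow_left₀ (Nat.cast_nonneg _) hF1 _) hV1 (Nat.cast_nonneg _)
      (by positivity)
  · intro i s s' hd
    rw [mem_image]
    refine ⟨(fun a T => z u (cubeF e i s s' (emb hrL T)) a,
      fun T => w u (cubeF e i s s' (emb hrL T)), fun T => y u (cubeF e i s s' (emb hrL T))),
      ?_, ?_⟩
    · rw [mem_product, mem_product]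
      refine ⟨?_, hV2 _ _ hd, mem_univ _⟩
      rw [Fintype.mem_piFinset]
      intro a
      obtain ⟨h, h1, h2⟩ := hz a u e
      have h3 := hF2 M L hrL (Pat k) h h1 i s s'
      have h4 : (fun T : Finset (Fin r) => z u (cubeF e i s s' (emb hrL T)) a) =
          fun T : Finset (Fin r) =>
            ∑ J with J.card ≤ D, h J (fun j => if i j ∈ emb hrL T then s' j else s j) := by
        funext T
        exact h2 _
      change (fun T : Finset (Fin r) => z u (cubeF e i s s' (emb hrL T)) a) ∈ ℱ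
      rw [h4]
      exact h3
    · funext T
      exact (hΦ (fun j => if i j ∈ emb hrL T then s' j else s j)).symm

end Pool.Agent.KS
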